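import Pool.Agent.Helper351.EG.Main

set_option autoImplicit false

namespace Pool.Agent.Helper351.EG

open Finset

/-- `2 r` vertices, independence number at most two, no `K_r`, few edges: impossible for `r ≥ 6`. -/
theorem andrasfai {V : Type} [DecidableEq V] (G : SimpleGraph V) [DecidableRel G.Adj] (r : ℕ)
    (hr : 6 ≤ r) (M : Finset V) (hM : M.card = 2 * r) (h2 : IndLe G M 2) (hK : NoK G M r)
    (he : e2 G M ≤ 2 * r ^ 2)
    (hdg : ∀ v ∈ M, M.card ≤ deg G M v + r) : False := by
  classical
  -- all degrees are at most r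
  have hdeg : ∀ v ∈ M, deg G M v ≤ r := by
    intro v hv
    have h1 : e2 G M = deg G M v + ∑ w ∈ M.erase v, deg G M w := by
      unfold e2
      rw [Finset.add_sum_erase M (fun w => deg G M w) hv]
    have h2' : ∑ w ∈ M.erase v, r ≤ ∑ w ∈ M.erase v, deg G M w := by
      refine Finset.sum_le_sum (fun w hw => ?_)
      have := hdg w (Finset.mem_of_mem_erase hw)
      rw [hM] at this
      omega
    rw [Finset.sum_const, Finset.card_erase_of_mem hv, hM, smul_eq_mul] at h2'
    have h3 : (2 * r - 1) * r + r = 2 * r ^ 2 := by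
      have : 2 * r - 1 + 1 = 2 * r := by omega
      calc (2 * r - 1) * r + r = (2 * r - 1 + 1) * r := by ring
        _ = 2 * r ^ 2 := by rw [this]; ring
    omega
  -- the complement graph
  let S := {x // x ∈ M}
  let H : SimpleGraph S :=
    { Adj := fun x y => x ≠ y ∧ ¬ G.Adj x.1 y.1
      symm := ⟨fun x y h => ⟨h.1.symm, fun h' => h.2 h'.symm⟩⟩
      loopless := ⟨fun x h => h.1 rfl⟩ }
  have hcard : Fintype.card S = 2 * r := by
    rw [Fintype.card_coe, hM]
  have hHdeg : ∀ v : S, r - 1 ≤ H.degree v := by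
    intro v
    have h1 : (M.filter (fun w => v.1 ≠ w ∧ ¬ G.Adj v.1 w)).card ≤ H.degree v := by
      rw [← H.card_neighborFinset_eq_degree]
      refine Finset.card_le_card_of_surjOn (fun y : S => y.1) ?_
      intro w hw
      rw [Finset.mem_coe, Finset.mem_filter] at hw
      refine ⟨⟨w, hw.1⟩, ?_, rfl⟩
      rw [Finset.mem_coe, SimpleGraph.mem_neighborFinset]
      exact ⟨fun h => hw.2.1 (congrArg Subtype.val h), hw.2.2⟩
    have h3 : M ⊆ insert v.1 ((M.filter (fun w => G.Adj v.1 w)) ∪
        (M.filter (fun w => v.1 ≠ w ∧ ¬ G.Adj v.1 w))) := by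
      intro w hw
      rw [Finset.mem_insert, Finset.mem_union, Finset.mem_filter, Finset.mem_filter]
      by_cases h4 : w = v.1
      · exact Or.inl h4
      · by_cases h5 : G.Adj v.1 w
        · exact Or.inr (Or.inl ⟨hw, h5⟩)
        · exact Or.inr (Or.inr ⟨hw, fun h => h4 h.symm, h5⟩)
    have h4 := Finset.card_le_card h3
    have h5 := (Finset.card_insert_le v.1 ((M.filter (fun w => G.Adj v.1 w)) ∪
        (M.filter (fun w => v.1 ≠ w ∧ ¬ G.Adj v.1 w))))
    have h6 := Finset.card_union_le (M.filter (fun w => G.Adj v.1 w))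
        (M.filter (fun w => v.1 ≠ w ∧ ¬ G.Adj v.1 w))
    have h7 : (M.filter (fun w => G.Adj v.1 w)).card ≤ r := hdeg v.1 v.2
    omega
  haveI hne : Nonempty S := by
    rw [← Fintype.card_pos_iff, hcard]
    omega
  have hmin : r - 1 ≤ H.minDegree := H.le_minDegree_of_forall_le_degree _ hHdeg
  have hcf : H.CliqueFree 3 := by
    intro T hT
    have h1 : (T.map (Function.Embedding.subtype _)).card ≤ 2 := by
      refine h2 _ ?_ ?_
      · intro x hx
        rw [Finset.mem_map] at hx
        obtain ⟨y, _, rfl⟩ := hx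
        exact y.2
      · intro x hx y hy hxy
        rw [Finset.mem_map] at hx hy
        obtain ⟨x', hx', rfl⟩ := hx
        obtain ⟨y', hy', rfl⟩ := hy
        have hne' : x' ≠ y' := by
          intro h
          rw [h] at hxy
          exact G.loopless.irrefl _ hxy
        exact (hT.1 hx' hy' hne').2 hxy
    rw [Finset.card_map, hT.2] at h1
    omega
  have hcol : H.Colorable 2 := by
    refine SimpleGraph.colorable_of_cliqueFree_lt_minDegree hcf ?_
    rw [hcard]
    omega
  obtain ⟨c⟩ := hcol
  have hsum : (Finset.univ.filter (fun x : S => c x = 0)).card +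
      (Finset.univ.filter (fun x : S => ¬ c x = 0)).card = 2 * r := by
    rw [Finset.card_filter_add_card_filter_not, Finset.card_univ, hcard]
  -- a large colour class
  have hfin : ∀ A : Finset S, r ≤ A.card → (∀ x ∈ A, ∀ y ∈ A, ¬ H.Adj x y) → False := by
    intro A hA hind
    obtain ⟨A', hA', hAc⟩ := Finset.exists_subset_card_eq hA
    refine hK (A'.map (Function.Embedding.subtype _)) ?_ (by rw [Finset.card_map, hAc]) ?_
    · intro x hx
      rw [Finset.mem_map] at hx
      obtain ⟨y, _, rfl⟩ := hx
      exact y.2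
    · intro x hx y hy hxy
      rw [Finset.mem_map] at hx hy
      obtain ⟨x', hx', rfl⟩ := hx
      obtain ⟨y', hy', rfl⟩ := hy
      have h3 := hind x' (hA' hx') y' (hA' hy')
      by_contra h4
      exact h3 ⟨fun h => hxy (by rw [h]), h4⟩
  rcases le_or_gt r (Finset.univ.filter (fun x : S => c x = 0)).card with h | h
  · refine hfin _ h ?_
    intro x hx y hy hxy
    rw [Finset.mem_filter] at hx hy
    exact c.valid hxy (hx.2.trans hy.2.symm)
  · refine hfin (Finset.univ.filter (fun x : S => ¬ c x = 0)) (by omega) ?_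
    intro x hx y hy hxy
    rw [Finset.mem_filter] at hx hy
    refine c.valid hxy ?_
    have h1 : c x = 1 := Fin.eq_one_of_ne_zero _ hx.2
    have h2 : c y = 1 := Fin.eq_one_of_ne_zero _ hy.2
    rw [h1, h2]

end Pool.Agent.Helper351.EG
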