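import Pool.Agent.Helper351.EG.Main

set_option autoImplicit false

namespace Pool.Agent.Helper351.EG

open Finset

theorem NoK_mono' {V : Type} (G : SimpleGraph V)
    {W' W : Finset V} (h : W' ⊆ W) {r : ℕ} (hP : NoK G W r) : NoK G W' r :=
  fun Q hQ hc => hP Q (hQ.trans h) hc

theorem exists_max_ind' {V : Type} [DecidableEq V] (G : SimpleGraph V) (W : Finset V) :
    ∃ T ⊆ W, Ind G T ∧ IndLe G W T.card := by
  classical
  obtain ⟨T, hT, hmax⟩ := exists_max_image (W.powerset.filter (fun T => Ind G T)) Finset.card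
    ⟨∅, mem_filter.mpr ⟨by simp, fun x hx => absurd hx (notMem_empty x)⟩⟩
  rw [mem_filter, mem_powerset] at hT
  refine ⟨T, hT.1, hT.2, fun S hS hSi => hmax S ?_⟩
  rw [mem_filter, mem_powerset]
  exact ⟨hS, hSi⟩

/-- no `K_r`, all degrees at least `r`, independence number at most `k`, `r k + 1` vertices: the
total excess is at least `2 r + 1`. -/
theorem claimC {V : Type} [DecidableEq V] (G : SimpleGraph V) [DecidableRel G.Adj] (r : ℕ)
    (hr : 2 ≤ r) (k : ℕ) (hk2 : 2 ≤ k) (W : Finset V) (hc : W.card = r * k + 1) (hk : IndLe G W k)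
    (hK : NoK G W r) (hδ : ∀ v ∈ W, r ≤ deg G W v) :
    r * W.card + 2 * r + 1 ≤ e2 G W := by
  classical
  obtain ⟨m, rfl⟩ : ∃ m, k = m + 2 := ⟨k - 2, by omega⟩
  set H := W.filter (fun v => r + 1 ≤ deg G W v) with hH
  set L := W.filter (fun v => ¬ r + 1 ≤ deg G W v) with hL
  set A := W.filter (fun v => deg G W v = r + 1) with hA
  have hLW : L ⊆ W := filter_subset _ _
  have hHW : H ⊆ W := filter_subset _ _
  have hcard : H.card + L.card = W.card := card_filter_add_card_filter_not _
  have hdL : ∀ v ∈ L, deg G W v = r := fun v hv => by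
    have h1 := (mem_filter.mp hv).2
    have h2 := hδ v (hLW hv)
    omega
  have hdH : ∀ v ∈ H, r + 1 ≤ deg G W v := fun v hv => (mem_filter.mp hv).2
  have he2 : e2 G W = ∑ v ∈ H, deg G W v + L.card * r := by
    unfold e2
    rw [← sum_filter_add_sum_filter_not W (fun v => r + 1 ≤ deg G W v)]
    congr 1
    rw [sum_congr rfl hdL]
    simp
  have hSH1 : (r + 1) * H.card ≤ ∑ v ∈ H, deg G W v := by
    calc (r + 1) * H.card = ∑ v ∈ H, (r + 1) := by simp [mul_comm]
      _ ≤ _ := sum_le_sum hdH
  have hAH : A.card = ∑ v ∈ H, (if deg G W v = r + 1 then 1 else 0) := by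
    rw [← card_filter]
    congr 1
    ext v
    simp only [hA, hH, mem_filter]
    constructor
    · rintro ⟨h1, h2⟩; exact ⟨⟨h1, by omega⟩, h2⟩
    · rintro ⟨⟨h1, _⟩, h2⟩; exact ⟨h1, h2⟩
  have hSH2 : (r + 2) * H.card ≤ ∑ v ∈ H, deg G W v + A.card := by
    rw [hAH, ← sum_add_distrib]
    calc (r + 2) * H.card = ∑ v ∈ H, (r + 2) := by simp [mul_comm]
      _ ≤ _ := sum_le_sum (fun v hv => by
        have := hdH v hv
        split_ifs <;> omega)
  -- independent sets in L
  have hind : IndLe G L (m + 1) := by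
    intro T hT hTi
    by_contra hlt
    push Not at hlt
    have hTW := hT.trans hLW
    have h1 := hk T hTW hTi
    have hTr : T.card = m + 2 := by omega
    have h2 := L1 G r hr W T hTW hTi (by rw [hTr]; exact hk) hK
    have h3 : ∑ t ∈ T, deg G W t = T.card * r := by
      rw [sum_congr rfl (fun t ht => hdL t (hT ht))]; simp
    rw [hc, h3, hTr] at h2
    nlinarith
  obtain ⟨T, hT, hTi, hTm⟩ := exists_max_ind' G L
  have hTW := hT.trans hLW
  have h2 := L1 G r hr L T hT hTi hTm (NoK_mono' G hLW hK)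
  have hsplit : ∀ t, deg G H t + deg G L t = deg G W t := by
    intro t
    unfold deg
    rw [← card_union_of_disjoint]
    · congr 1
      ext v
      simp only [hH, hL, mem_union, mem_filter]
      constructor
      · rintro (⟨⟨h1, _⟩, h2⟩ | ⟨⟨h1, _⟩, h2⟩) <;> exact ⟨h1, h2⟩
      · rintro ⟨h1, h2⟩
        by_cases h : r + 1 ≤ deg G W v
        · left; exact ⟨⟨h1, h⟩, h2⟩
        · right; exact ⟨⟨h1, h⟩, h2⟩
    · rw [disjoint_left]
      intro v hv hv'
      simp only [hH, hL, mem_filter] at hv hv'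
      exact hv'.1.2 hv.1.2
  have h3 : ∑ t ∈ T, deg G H t + ∑ t ∈ T, deg G L t = T.card * r := by
    rw [← sum_add_distrib, sum_congr rfl (fun t ht => (hsplit t).trans (hdL t (hT ht)))]; simp
  have h4 := hind T hT hTi
  have h5 : A.card ≤ ∑ t ∈ T, deg G H t ∨ T.card ≤ m := by
    by_cases hTc : T.card ≤ m
    · right; exact hTc
    left
    have hTc' : T.card = m + 1 := by omega
    have hsub : A ⊆ T.biUnion (fun t => H.filter (fun w => G.Adj t w)) := by
      intro x hx
      have hx' := mem_filter.mp hx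
      by_contra hcon
      simp only [mem_biUnion, mem_filter, not_exists, not_and] at hcon
      have hxH : x ∈ H := by rw [hH, mem_filter]; exact ⟨hx'.1, by omega⟩
      have hxT : x ∉ T := fun h => by
        have := hdL x (hT h)
        omega
      have hI : Ind G (insert x T) := by
        intro y hy z hz hyz
        rw [mem_insert] at hy hz
        rcases hy with rfl | hy <;> rcases hz with rfl | hz
        · exact G.irrefl hyz
        · exact hcon z hz hxH hyz.symm
        · exact hcon y hy hxH hyz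
        · exact hTi y hy z hz hyz
      have hsubW : insert x T ⊆ W := insert_subset hx'.1 hTW
      have hci : (insert x T).card = m + 2 := by rw [card_insert_of_notMem hxT, hTc']
      have h6 := L1 G r hr W (insert x T) hsubW hI (by rw [hci]; exact hk) hK
      rw [sum_insert hxT, hx'.2, sum_congr rfl (fun t ht => hdL t (hT ht)), hci, hc] at h6
      simp only [sum_const, smul_eq_mul, hTc'] at h6
      nlinarith
    calc A.card ≤ (T.biUnion (fun t => H.filter (fun w => G.Adj t w))).card := card_le_card hsub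
      _ ≤ ∑ t ∈ T, (H.filter (fun w => G.Adj t w)).card := card_biUnion_le
      _ = _ := rfl
  obtain ⟨S, hS⟩ : ∃ S, S = ∑ v ∈ H, deg G W v := ⟨_, rfl⟩
  obtain ⟨SL, hSL⟩ : ∃ S, S = ∑ t ∈ T, deg G L t := ⟨_, rfl⟩
  obtain ⟨SHt, hSHt⟩ : ∃ S, S = ∑ t ∈ T, deg G H t := ⟨_, rfl⟩
  rw [← hS] at he2 hSH1 hSH2
  rw [← hSL] at h2 h3
  rw [← hSHt] at h3 h5
  rw [he2]
  have hrm : r * (m + 2) = r * m + 2 * r := by ring
  rw [hrm] at hc
  have e1 : r * W.card = r * H.card + r * L.card := by rw [← hcard]; ring
  have e2' : (r + 1) * H.card = r * H.card + H.card := by ring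
  have e3 : (r + 2) * H.card = r * H.card + 2 * H.card := by ring
  have e4 : L.card * r = r * L.card := by ring
  have e5 : T.card * r = r * T.card := by ring
  rcases h5 with h5 | h5
  · have e6 : r * T.card ≤ r * m + r := by
      calc r * T.card ≤ r * (m + 1) := Nat.mul_le_mul_left _ h4
        _ = _ := by ring
    omega
  · have e6 : r * T.card ≤ r * m := Nat.mul_le_mul_left _ h5
    omega

end Pool.Agent.Helper351.EG
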