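import Pool.Agent.Helper351.EG.Defs

set_option autoImplicit false

namespace Pool.Agent.Helper351.EG

open Finset


/-- every `(r+1)`-set sees every colour -/
def AllSee {V : Type} {r : ℕ} (c : V → V → Fin r) : Prop :=
  ∀ S : Finset V, S.card = r + 1 → ∀ k : Fin r, ∃ x ∈ S, ∃ y ∈ S, x ≠ y ∧ c x y = k

theorem C_ind {V : Type} [DecidableEq V] {r : ℕ} (c : V → V → Fin r) (hc : ∀ x y, c x y = c y x)
    (hs : AllSee c) (k : Fin r) (W : Finset V) : IndLe (colG c hc k) W r := by
  intro T _ hT
  by_contra hlt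
  obtain ⟨S, hST, hS⟩ := Finset.exists_subset_card_eq (show r + 1 ≤ T.card by omega)
  obtain ⟨x, hx, y, hy, hxy, hk⟩ := hs S hS k
  exact hT x (hST hx) y (hST hy) ⟨hxy, hk⟩

theorem C_K {V : Type} [DecidableEq V] {r : ℕ} (hr : 2 ≤ r) (c : V → V → Fin r)
    (hc : ∀ x y, c x y = c y x)
    (hs : AllSee c) (k : Fin r) (W : Finset V) : NoK (colG c hc k) W (r + 1) := by
  intro T _ hTr hT
  haveI : Nontrivial (Fin r) := Fin.nontrivial_iff_two_le.2 hr
  obtain ⟨j, hj⟩ := exists_ne k
  obtain ⟨x, hx, y, hy, hxy, hk⟩ := hs T hTr j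
  have h1 : x ≠ y ∧ c x y = k := hT x hx y hy hxy
  exact hj (hk.symm.trans h1.2)

theorem C_P {V : Type} [DecidableEq V] {r : ℕ} (c : V → V → Fin r)
    (hc : ∀ x y, c x y = c y x)
    (hs : AllSee c) (k : Fin r) (W : Finset V) : P (colG c hc k) W r := by
  intro Q _ hQr hQ v _ hvQ
  have hcard : (insert v Q).card = r + 1 := by
    rw [Finset.card_insert_of_notMem hvQ, hQr]
  have hsub : (Finset.univ : Finset (Fin r)).erase k ⊆
      (Q.filter (fun w => ¬ (colG c hc k).Adj v w)).image (fun w => c v w) := by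
    intro j hj
    have hjk : j ≠ k := Finset.ne_of_mem_erase hj
    obtain ⟨x, hx, y, hy, hxy, hcx⟩ := hs (insert v Q) hcard j
    have key : ∀ z ∈ Q, c v z = j →
        j ∈ (Q.filter (fun w => ¬ (colG c hc k).Adj v w)).image (fun w => c v w) := by
      intro z hz hcz
      refine Finset.mem_image.2 ⟨z, Finset.mem_filter.2 ⟨hz, fun h1 => ?_⟩, hcz⟩
      have h2 : v ≠ z ∧ c v z = k := h1
      exact hjk (hcz.symm.trans h2.2)
    rcases Finset.mem_insert.1 hx with hx | hx
    · rcases Finset.mem_insert.1 hy with hy | hy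
      · exact absurd (hx.trans hy.symm) hxy
      · rw [hx] at hcx
        exact key y hy hcx
    · rcases Finset.mem_insert.1 hy with hy | hy
      · rw [hy, hc] at hcx
        exact key x hx hcx
      · have h1 : x ≠ y ∧ c x y = k := hQ x hx y hy hxy
        exact absurd (hcx.symm.trans h1.2) hjk
  have h1 := Finset.card_le_card hsub
  rw [Finset.card_erase_of_mem (Finset.mem_univ k), Finset.card_univ, Fintype.card_fin] at h1
  have h2 : ((Q.filter (fun w => ¬ (colG c hc k).Adj v w)).image (fun w => c v w)).card ≤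
      (Q.filter (fun w => ¬ (colG c hc k).Adj v w)).card := Finset.card_image_le
  have h3 := Finset.card_filter_add_card_filter_not (s := Q) (fun w => (colG c hc k).Adj v w)
  have h4 : deg (colG c hc k) Q v = (Q.filter (fun w => (colG c hc k).Adj v w)).card := rfl
  rw [h4]
  omega

end Pool.Agent.Helper351.EG
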