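import Pool.Agent.Helper351.EG.Defs

set_option autoImplicit false

namespace Pool.Agent.Helper351.EG

open Finset



theorem deg_insert251 {V : Type} [DecidableEq V] (G : SimpleGraph V) [DecidableRel G.Adj]
    (W : Finset V) (u v : V) (hv : v ∉ W) :
    deg G (insert v W) u = deg G W u + if G.Adj u v then 1 else 0 := by
  unfold deg
  rw [Finset.filter_insert]
  split_ifs with h
  · rw [Finset.card_insert_of_notMem (fun h' => hv (Finset.mem_filter.1 h').1)]
  · rfl

theorem e2_insert251 {V : Type} [DecidableEq V] (G : SimpleGraph V) [DecidableRel G.Adj]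
    (W : Finset V) (v : V) (hv : v ∉ W) :
    e2 G (insert v W) = e2 G W + 2 * deg G W v := by
  unfold e2
  rw [Finset.sum_insert hv, deg_insert251 G W v v hv, if_neg (G.loopless.irrefl v)]
  simp only [deg_insert251 G W _ v hv]
  rw [Finset.sum_add_distrib]
  have h1 : (∑ x ∈ W, if G.Adj x v then 1 else 0) = deg G W v := by
    unfold deg
    rw [Finset.card_filter]
    refine Finset.sum_congr rfl fun x _ => ?_
    simp only [G.adj_comm]
  rw [h1]
  ring

/-- a graph with `e` edges on `m` vertices has an independent set with `m - e` elements -/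
theorem ind_of_few {V : Type} [DecidableEq V] (G : SimpleGraph V) [DecidableRel G.Adj]
    (W : Finset V) (k : ℕ) (hk : IndLe G W k) : 2 * W.card ≤ e2 G W + 2 * k := by
  induction hn : W.card using Nat.strong_induction_on generalizing W with
  | _ n ih =>
    by_cases h : ∀ v ∈ W, deg G W v = 0
    · have h1 : W.card ≤ k := by
        refine hk W (Finset.Subset.refl W) ?_
        intro x hx y hy hadj
        have h2 := h x hx
        unfold deg at h2
        rw [Finset.card_eq_zero] at h2
        have h3 : y ∈ W.filter (fun w => G.Adj x w) := Finset.mem_filter.2 ⟨hy, hadj⟩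
        rw [h2] at h3
        exact Finset.notMem_empty _ h3
      omega
    · push Not at h
      obtain ⟨v, hv, hd⟩ := h
      have hins : insert v (W.erase v) = W := Finset.insert_erase hv
      have hnot : v ∉ W.erase v := Finset.notMem_erase v W
      have h1 := e2_insert251 G (W.erase v) v hnot
      rw [hins] at h1
      have h2 := deg_insert251 G (W.erase v) v v hnot
      rw [hins, if_neg (G.loopless.irrefl v)] at h2
      have h3 : (W.erase v).card = W.card - 1 := Finset.card_erase_of_mem hv
      have h4 : 0 < W.card := Finset.card_pos.2 ⟨v, hv⟩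
      have h5 := ih (W.erase v).card (by omega) (W.erase v)
        (fun T hT hI => hk T (hT.trans (Finset.erase_subset _ _)) hI) rfl
      have h6 : 1 ≤ deg G W v := Nat.one_le_iff_ne_zero.2 hd
      omega

/-- all colours together -/
theorem sum_e2 {V : Type} [DecidableEq V] {r : ℕ} (c : V → V → Fin r)
    (hc : ∀ x y, c x y = c y x) (W : Finset V) :
    ∑ k : Fin r, e2 (colG c hc k) W = W.card * (W.card - 1) := by
  unfold e2
  rw [Finset.sum_comm]
  have h1 : ∀ v ∈ W, ∑ k : Fin r, deg (colG c hc k) W v = W.card - 1 := by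
    intro v hv
    have h2 : (W.filter (fun w => v ≠ w)).card =
        ∑ k ∈ (Finset.univ : Finset (Fin r)), ((W.filter (fun w => v ≠ w)).filter
          (fun w => c v w = k)).card :=
      Finset.card_eq_sum_card_fiberwise (f := c v) (fun _ _ => Finset.mem_coe.2 (Finset.mem_univ _))
    have h3 : W.filter (fun w => v ≠ w) = W.erase v := by
      ext w
      simp only [Finset.mem_filter, Finset.mem_erase]
      exact ⟨fun h => ⟨h.2.symm, h.1⟩, fun h => ⟨h.2, h.1.symm⟩⟩
    have h4 : (W.erase v).card = W.card - 1 := Finset.card_erase_of_mem hv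
    rw [← h4, ← h3, h2]
    refine Finset.sum_congr rfl fun k _ => ?_
    unfold deg
    rw [Finset.filter_filter]
    rfl
  rw [Finset.sum_congr rfl h1, Finset.sum_const, smul_eq_mul]

theorem C_11 {V : Type} [DecidableEq V] (c : V → V → Fin 5) (hc : ∀ x y, c x y = c y x)
    (hi : ∀ k, ∀ W : Finset V, IndLe (colG c hc k) W 5) (k : Fin 5) (M : Finset V)
    (hM : M.card = 11) : e2 (colG c hc k) M ≤ 62 := by
  have h1 := sum_e2 c hc M
  rw [hM, Fin.sum_univ_five] at h1
  have h2 : ∀ j, 12 ≤ e2 (colG c hc j) M := by
    intro j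
    have := ind_of_few (colG c hc j) M 5 (hi j M)
    rw [hM] at this
    omega
  have a0 := h2 0
  have a1 := h2 1
  have a2 := h2 2
  have a3 := h2 3
  have a4 := h2 4
  fin_cases k
  · show e2 (colG c hc 0) M ≤ 62
    omega
  · show e2 (colG c hc 1) M ≤ 62
    omega
  · show e2 (colG c hc 2) M ≤ 62
    omega
  · show e2 (colG c hc 3) M ≤ 62
    omega
  · show e2 (colG c hc 4) M ≤ 62
    omega

theorem C_min (c : Fin 26 → Fin 26 → Fin 5) (hc : ∀ x y, c x y = c y x) :
    ∃ k, e2 (colG c hc k) (Finset.univ : Finset (Fin 26)) ≤ 130 := by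
  by_contra hcon
  push Not at hcon
  have h1 := sum_e2 c hc (Finset.univ : Finset (Fin 26))
  rw [Fin.sum_univ_five, Finset.card_univ, Fintype.card_fin] at h1
  have a0 := hcon 0
  have a1 := hcon 1
  have a2 := hcon 2
  have a3 := hcon 3
  have a4 := hcon 4
  omega

end Pool.Agent.Helper351.EG
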