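import Pool.Agent.Helper351.EG.Main

set_option autoImplicit false

namespace Pool.Agent.Helper351.EG

open Finset

/-- the other colours use many edges -/
theorem C_gen {V : Type} [DecidableEq V] {r : ℕ} (hr : 1 ≤ r) (c : V → V → Fin r)
    (hc : ∀ x y, c x y = c y x)
    (hi : ∀ k, ∀ W : Finset V, IndLe (colG c hc k) W r) (k : Fin r) (M : Finset V) :
    e2 (colG c hc k) M + 2 * (r - 1) * (M.card - r) ≤ M.card * (M.card - 1) := by
  have h1 := sum_e2 c hc M
  rw [← Finset.add_sum_erase Finset.univ (fun k : Fin r => e2 (colG c hc k) M)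
    (Finset.mem_univ k)] at h1
  have h2 : ∀ j ∈ Finset.univ.erase k, 2 * (M.card - r) ≤ e2 (colG c hc j) M := by
    intro j _
    have h3 := ind_of_few (colG c hc j) M r (hi j M)
    omega
  have h3 := Finset.card_nsmul_le_sum _ _ _ h2
  rw [Finset.card_erase_of_mem (Finset.mem_univ k), Finset.card_univ, Fintype.card_fin,
    smul_eq_mul] at h3
  have h4 : 2 * (r - 1) * (M.card - r) = (r - 1) * (2 * (M.card - r)) := by ring
  rw [h4]
  omega

theorem C_min_gen (r : ℕ) (hr : 1 ≤ r) (c : Fin (r ^ 2 + 1) → Fin (r ^ 2 + 1) → Fin r)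
    (hc : ∀ x y, c x y = c y x) :
    ∃ k, e2 (colG c hc k) (Finset.univ : Finset (Fin (r ^ 2 + 1))) ≤ r * (r ^ 2 + 1) := by
  by_contra hcon
  push Not at hcon
  have h1 := sum_e2 c hc (Finset.univ : Finset (Fin (r ^ 2 + 1)))
  rw [Finset.card_univ, Fintype.card_fin] at h1
  have hne : (Finset.univ : Finset (Fin r)).Nonempty := ⟨⟨0, by omega⟩, Finset.mem_univ _⟩
  have h2 := Finset.sum_lt_sum_of_nonempty hne (fun k _ => hcon k)
  rw [h1, Finset.sum_const, Finset.card_univ, Fintype.card_fin, smul_eq_mul] at h2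
  have h3 : r ^ 2 + 1 - 1 = r ^ 2 := by omega
  rw [h3] at h2
  have h4 : r * (r * (r ^ 2 + 1)) = (r ^ 2 + 1) * r ^ 2 := by ring
  omega

end Pool.Agent.Helper351.EG
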