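import Mathlib

set_option autoImplicit false

namespace Pool.Agent.Helper351.EG

open Finset

/-- The number of neighbours of `v` inside `W`. -/
def deg {V : Type} (G : SimpleGraph V) [DecidableRel G.Adj] (W : Finset V) (v : V) : ℕ :=
  (W.filter (fun w => G.Adj v w)).card

/-- Twice the number of edges inside `W`. -/
def e2 {V : Type} (G : SimpleGraph V) [DecidableRel G.Adj] (W : Finset V) : ℕ :=
  ∑ v ∈ W, deg G W v

/-- `T` is independent. -/
def Ind {V : Type} (G : SimpleGraph V) (T : Finset V) : Prop :=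
  ∀ x ∈ T, ∀ y ∈ T, ¬ G.Adj x y

/-- `T` is a clique. -/
def Clq {V : Type} (G : SimpleGraph V) (T : Finset V) : Prop :=
  ∀ x ∈ T, ∀ y ∈ T, x ≠ y → G.Adj x y

/-- Every independent subset of `W` has at most `k` elements. -/
def IndLe {V : Type} (G : SimpleGraph V) (W : Finset V) (k : ℕ) : Prop :=
  ∀ T ⊆ W, Ind G T → T.card ≤ k

/-- `W` contains no clique with `m` elements. -/
def NoK {V : Type} (G : SimpleGraph V) (W : Finset V) (m : ℕ) : Prop :=
  ∀ T ⊆ W, T.card = m → ¬ Clq G T

/-- A vertex of `W` outside a clique `Q ⊆ W` with `r` elements has at most one neighbour in `Q`. -/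
def P {V : Type} (G : SimpleGraph V) [DecidableRel G.Adj] (W : Finset V) (r : ℕ) : Prop :=
  ∀ Q ⊆ W, Q.card = r → Clq G Q → ∀ v ∈ W, v ∉ Q → deg G Q v ≤ 1

/-- The graph of the edges of colour `k`. -/
def colG {V : Type} {r : ℕ} (c : V → V → Fin r) (hc : ∀ x y, c x y = c y x) (k : Fin r) :
    SimpleGraph V where
  Adj x y := x ≠ y ∧ c x y = k
  symm := ⟨fun x y h => ⟨h.1.symm, by rw [hc]; exact h.2⟩⟩
  loopless := ⟨fun x h => h.1 rfl⟩

instance {V : Type} [DecidableEq V] {r : ℕ} (c : V → V → Fin r) (hc : ∀ x y, c x y = c y x)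
    (k : Fin r) : DecidableRel (colG c hc k).Adj :=
  fun x y => inferInstanceAs (Decidable (x ≠ y ∧ c x y = k))

end Pool.Agent.Helper351.EG
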