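import Pool.Agent.Helper351.EG.Main

set_option autoImplicit false

namespace Pool.Agent.Helper351.EG

open Finset

/-- 21 vertices, independence number at most three, no `K_7`. -/
theorem F7a {V : Type} [DecidableEq V] (G : SimpleGraph V) [DecidableRel G.Adj]
    (F : Finset V) (hF : F.card = 21) (h3 : IndLe G F 3)
    (h14 : ∀ M ⊆ F, M.card = 14 → IndLe G M 2 → False)
    (h13 : ∀ M ⊆ F, M.card = 13 → IndLe G M 2 → 82 ≤ e2 G M)
    (h8 : ∀ M ⊆ F, M.card = 8 → e2 G M ≤ 44)
    (hsplit : ∀ N ⊆ F, e2 G F + e2 G N = e2 G (F \ N) + 2 * ∑ x ∈ N, deg G F x) :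
    (∀ v ∈ F, 7 ≤ deg G F v) ∧
    (∀ u ∈ F, deg G F u = 7 →
      150 + 2 * (∑ x ∈ F.filter (fun w => G.Adj u w), (deg G F x - 7)) ≤ e2 G F) := by
  have hcard : ∀ v ∈ F, (F \ insert v (F.filter (fun w => G.Adj v w))).card + (1 + deg G F v) = 21 := by
    intro v hv
    have hsub : insert v (F.filter (fun w => G.Adj v w)) ⊆ F := by
      intro x hx
      rcases Finset.mem_insert.1 hx with h | h
      · rw [h]; exact hv
      · exact (Finset.mem_filter.1 h).1
    have hni : v ∉ F.filter (fun w => G.Adj v w) := by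
      intro h
      exact G.irrefl (Finset.mem_filter.1 h).2
    have h1 : (insert v (F.filter (fun w => G.Adj v w))).card = 1 + deg G F v := by
      rw [Finset.card_insert_of_notMem hni, deg, Nat.add_comm]
    have h2 := Finset.card_sdiff_add_card_eq_card hsub
    rw [h1, hF] at h2
    exact h2
  have hset : ∀ v, F \ insert v (F.filter (fun w => G.Adj v w)) =
      F.filter (fun w => w ≠ v ∧ ¬ G.Adj v w) := by
    intro v
    ext x
    simp only [Finset.mem_sdiff, Finset.mem_insert, Finset.mem_filter, not_or, not_and]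
    constructor
    · rintro ⟨h1, h2, h4⟩
      exact ⟨h1, h2, h4 h1⟩
    · rintro ⟨h1, h2, h4⟩
      exact ⟨h1, h2, fun _ => h4⟩
  have hind : ∀ v ∈ F, IndLe G (F \ insert v (F.filter (fun w => G.Adj v w))) 2 := by
    intro v hv
    rw [hset v]
    exact indLe_remove_nbhd G F 2 h3 v hv
  have hdeg : ∀ v ∈ F, 7 ≤ deg G F v := by
    intro v hv
    by_contra hlt
    have hc := hcard v hv
    have hle : 14 ≤ (F \ insert v (F.filter (fun w => G.Adj v w))).card := by omega
    obtain ⟨M, hM, hMc⟩ := Finset.exists_subset_card_eq hle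
    exact h14 M (hM.trans Finset.sdiff_subset) hMc (fun T hT hI => hind v hv T (hT.trans hM) hI)
  refine ⟨hdeg, ?_⟩
  intro u hu hu7
  set A := F.filter (fun w => G.Adj u w) with hA
  have hni : u ∉ A := by
    intro h
    exact G.irrefl (Finset.mem_filter.1 h).2
  have hsub : insert u A ⊆ F := by
    intro x hx
    rcases Finset.mem_insert.1 hx with h | h
    · rw [h]; exact hu
    · exact (Finset.mem_filter.1 h).1
  have hAc : A.card = 7 := hu7
  have hNc : (insert u A).card = 8 := by
    rw [Finset.card_insert_of_notMem hni, hAc]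
  have hc := hcard u hu
  have hMc : (F \ insert u A).card = 13 := by
    have : (F \ insert u A).card + (1 + deg G F u) = 21 := hc
    omega
  have e1 := h13 (F \ insert u A) Finset.sdiff_subset hMc (hind u hu)
  have e8 := h8 (insert u A) hsub hNc
  have es := hsplit (insert u A) hsub
  rw [Finset.sum_insert hni, hu7] at es
  have hs : ∑ x ∈ A, deg G F x = ∑ x ∈ A, (deg G F x - 7) + 49 := by
    have h1 : ∑ x ∈ A, deg G F x = ∑ x ∈ A, ((deg G F x - 7) + 7) := by
      refine Finset.sum_congr rfl fun x hx => ?_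
      have := hdeg x (Finset.mem_filter.1 hx).1
      omega
    rw [h1, Finset.sum_add_distrib, Finset.sum_const, hAc]
    simp
  rw [hs] at es
  omega

end Pool.Agent.Helper351.EG
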