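import Pool.Agent.Helper351.EG.Main

set_option autoImplicit false

namespace Pool.Agent.Helper351.EG

open Finset

theorem F7b {V : Type} [DecidableEq V] (G : SimpleGraph V) [DecidableRel G.Adj]
    (F : Finset V) (hF : F.card = 21) (hδ : ∀ v ∈ F, 7 ≤ deg G F v)
    (hu : ∀ u ∈ F, deg G F u = 7 →
      150 + 2 * (∑ x ∈ F.filter (fun w => G.Adj u w), (deg G F x - 7)) ≤ e2 G F)
    (he : e2 G F ≤ 152) : False := by
  set S := ∑ x ∈ F, (deg G F x - 7) with hS
  have hS1 : S + 147 = e2 G F := by
    have h1 : ∑ x ∈ F, ((deg G F x - 7) + 7) = e2 G F := by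
      unfold e2
      apply Finset.sum_congr rfl
      intro x hx
      have := hδ x hx
      omega
    rw [Finset.sum_add_distrib, Finset.sum_const, hF] at h1
    simpa using h1
  set H := F.filter (fun x => 8 ≤ deg G F x) with hH
  set L := F.filter (fun x => ¬ 8 ≤ deg G F x) with hL
  have hHL : H.card + L.card = 21 := by
    rw [← hF]; exact Finset.card_filter_add_card_filter_not _
  have hSH : ∑ x ∈ H, (deg G F x - 7) = S := by
    rw [hS, ← Finset.sum_filter_add_sum_filter_not F (fun x => 8 ≤ deg G F x)]
    have h0 : ∑ x ∈ F.filter (fun x => ¬ 8 ≤ deg G F x), (deg G F x - 7) = 0 := by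
      apply Finset.sum_eq_zero
      intro x hx
      have := (Finset.mem_filter.mp hx).2
      omega
    rw [h0, add_zero]
  have hHS : H.card ≤ S := by
    rw [← hSH, Finset.card_eq_sum_ones]
    apply Finset.sum_le_sum
    intro x hx
    have := (Finset.mem_filter.mp hx).2
    omega
  have hL7 : ∀ u ∈ L, u ∈ F ∧ deg G F u = 7 := by
    intro u hu'
    have h1 := Finset.mem_filter.mp hu'
    have h2 := hδ u h1.1
    exact ⟨h1.1, by omega⟩
  have hLne : L.Nonempty := by
    rw [← Finset.card_pos]; omega
  have h150 : 150 ≤ e2 G F := by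
    obtain ⟨u, hu'⟩ := hLne
    have := hu u (hL7 u hu').1 (hL7 u hu').2
    omega
  have hHne : H.Nonempty := by
    rw [Finset.nonempty_iff_ne_empty]
    intro h0
    rw [h0, Finset.sum_empty] at hSH
    omega
  -- neighbours in L
  have hdeg : ∀ x ∈ H, 4 ≤ (L.filter (fun u => G.Adj x u)).card := by
    intro x hx
    have h1 := Finset.mem_filter.mp hx
    have h2 : deg G F x = (H.filter (fun u => G.Adj x u)).card +
        (L.filter (fun u => G.Adj x u)).card := by
      unfold deg
      rw [hH, hL, Finset.filter_filter, Finset.filter_filter,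
        ← Finset.card_filter_add_card_filter_not (s := F.filter (fun w => G.Adj x w))
          (fun y => 8 ≤ deg G F y), Finset.filter_filter, Finset.filter_filter]
      congr 2
      · apply Finset.filter_congr
        intro y _
        tauto
      · apply Finset.filter_congr
        intro y _
        tauto
    have h3 : (H.filter (fun u => G.Adj x u)).card ≤ (H.erase x).card := by
      apply Finset.card_le_card
      intro y hy
      have h4 := Finset.mem_filter.mp hy
      refine Finset.mem_erase.mpr ⟨?_, h4.1⟩
      rintro rfl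
      exact G.loopless.irrefl _ h4.2
    have h5 : (H.erase x).card + 1 = H.card := Finset.card_erase_add_one hx
    omega
  have hone : ∀ u ∈ L, ∀ T : Finset V, T ⊆ F.filter (fun w => G.Adj u w) →
      150 + 2 * ∑ x ∈ T, (deg G F x - 7) ≤ e2 G F := by
    intro u hu' T hT
    have h1 := hu u (hL7 u hu').1 (hL7 u hu').2
    have h2 : ∑ x ∈ T, (deg G F x - 7) ≤ ∑ x ∈ F.filter (fun w => G.Adj u w), (deg G F x - 7) :=
      Finset.sum_le_sum_of_subset hT
    omega
  have hexc : ∀ x ∈ H, deg G F x - 7 = 1 ∧ e2 G F = 152 := by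
    intro x hx
    have h1 := Finset.mem_filter.mp hx
    have h2 : (L.filter (fun u => G.Adj x u)).Nonempty := by
      rw [← Finset.card_pos]; have := hdeg x hx; omega
    obtain ⟨u, hu'⟩ := h2
    have h3 := Finset.mem_filter.mp hu'
    have h4 := hone u h3.1 {x} (by
      intro y hy
      rw [Finset.mem_singleton] at hy
      rw [hy]
      exact Finset.mem_filter.mpr ⟨h1.1, h3.2.symm⟩)
    rw [Finset.sum_singleton] at h4
    have h5 := h1.2
    omega
  have he152 : e2 G F = 152 := by
    obtain ⟨x, hx⟩ := hHne
    exact (hexc x hx).2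
  have hH5 : H.card = 5 := by
    have h1 : ∑ x ∈ H, (deg G F x - 7) = H.card := by
      rw [Finset.card_eq_sum_ones]
      exact Finset.sum_congr rfl (fun x hx => (hexc x hx).1)
    omega
  have hone' : ∀ u ∈ L, (H.filter (fun x => G.Adj x u)).card ≤ 1 := by
    intro u hu'
    have h1 := hone u hu' (H.filter (fun x => G.Adj x u)) (by
      intro y hy
      have h2 := Finset.mem_filter.mp hy
      have h3 := Finset.mem_filter.mp h2.1
      exact Finset.mem_filter.mpr ⟨h3.1, h2.2.symm⟩)
    have h2 : ∑ x ∈ H.filter (fun x => G.Adj x u), (deg G F x - 7)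
        = (H.filter (fun x => G.Adj x u)).card := by
      rw [Finset.card_eq_sum_ones]
      exact Finset.sum_congr rfl (fun x hx => (hexc x (Finset.mem_filter.mp hx).1).1)
    omega
  have hdc : ∑ x ∈ H, (L.filter (fun u => G.Adj x u)).card
      = ∑ u ∈ L, (H.filter (fun x => G.Adj x u)).card := by
    simp only [Finset.card_filter]
    exact Finset.sum_comm
  have hlow : 20 ≤ ∑ x ∈ H, (L.filter (fun u => G.Adj x u)).card := by
    have := Finset.card_nsmul_le_sum H (fun x => (L.filter (fun u => G.Adj x u)).card) 4 hdeg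
    rw [hH5] at this
    simpa using this
  have hup : ∑ u ∈ L, (H.filter (fun x => G.Adj x u)).card ≤ 16 := by
    have := Finset.sum_le_card_nsmul L (fun u => (H.filter (fun x => G.Adj x u)).card) 1 hone'
    have hL16 : L.card = 16 := by omega
    rw [hL16] at this
    simpa using this
  omega

end Pool.Agent.Helper351.EG
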