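import Pool.Agent.Helper351.EG.Defs

set_option autoImplicit false

namespace Pool.Agent.Helper351.EG

open Finset


theorem deg_ge_of_two_b {V : Type} [DecidableEq V] (G : SimpleGraph V) [DecidableRel G.Adj]
    (W : Finset V) (h2 : IndLe G W 2) (hK : NoK G W 5) (v : V) (hv : v ∈ W) :
    W.card ≤ deg G W v + 5 := by
  classical
  set M := W.filter (fun w => w ≠ v ∧ ¬ G.Adj v w) with hM
  have hMW : M ⊆ W := Finset.filter_subset _ _
  have hMc : Clq G M := by
    intro x hx y hy hxy
    by_contra hn
    rw [hM, Finset.mem_filter] at hx hy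
    have hT : ({v, x, y} : Finset V) ⊆ W := by
      intro z hz
      simp only [Finset.mem_insert, Finset.mem_singleton] at hz
      rcases hz with rfl | rfl | rfl
      · exact hv
      · exact hx.1
      · exact hy.1
    have hI : Ind G ({v, x, y} : Finset V) := by
      intro a ha b hb
      simp only [Finset.mem_insert, Finset.mem_singleton] at ha hb
      rcases ha with rfl | rfl | rfl <;> rcases hb with rfl | rfl | rfl
      · exact G.irrefl
      · exact hx.2.2
      · exact hy.2.2
      · exact fun h => hx.2.2 h.symm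
      · exact G.irrefl
      · exact hn
      · exact fun h => hy.2.2 h.symm
      · exact fun h => hn h.symm
      · exact G.irrefl
    have h3 := h2 _ hT hI
    rw [Finset.card_insert_of_notMem, Finset.card_insert_of_notMem, Finset.card_singleton] at h3
    · omega
    · simpa using hxy
    · simp only [Finset.mem_insert, Finset.mem_singleton, not_or]
      exact ⟨hx.2.1.symm, hy.2.1.symm⟩
  have hM4 : M.card ≤ 4 := by
    by_contra hcon
    obtain ⟨T, hTM, hTc⟩ := Finset.exists_subset_card_eq (show 5 ≤ M.card by omega)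
    exact hK T (hTM.trans hMW) hTc (fun x hx y hy hxy => hMc x (hTM hx) y (hTM hy) hxy)
  have hWsub : W ⊆ insert v (W.filter (fun w => G.Adj v w) ∪ M) := by
    intro w hw
    rw [Finset.mem_insert, Finset.mem_union]
    by_cases h1 : w = v
    · exact Or.inl h1
    · right
      by_cases h3 : G.Adj v w
      · exact Or.inl (Finset.mem_filter.mpr ⟨hw, h3⟩)
      · exact Or.inr (Finset.mem_filter.mpr ⟨hw, h1, h3⟩)
  have h5 := Finset.card_le_card hWsub
  have h6 := Finset.card_insert_le v (W.filter (fun w => G.Adj v w) ∪ M)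
  have h7 := Finset.card_union_le (W.filter (fun w => G.Adj v w)) M
  unfold deg
  omega

/-- level four -/
theorem final4 {V : Type} [DecidableEq V] (G : SimpleGraph V) [DecidableRel G.Adj]
    (W : Finset V) (hcard : W.card = 21) (h4 : IndLe G W 4) (hK : NoK G W 5)
    (hδ : ∀ v ∈ W, 5 ≤ deg G W v) (he : e2 G W ≤ 110)
    (hL1 : ∀ T ⊆ W, Ind G T → T.card = 4 → 22 ≤ ∑ t ∈ T, deg G W t)
    (hL2 : ∀ L ⊆ W, (∀ v ∈ L, deg G L v ≤ 5) → IndLe G L 3 → NoK G L 5 → L.card ≤ 15) : False := by
  classical
  set L := W.filter (fun v => deg G W v ≤ 5) with hL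
  have hLW : L ⊆ W := Finset.filter_subset _ _
  have hLd : ∀ v ∈ L, deg G W v ≤ 5 := fun v hv => (Finset.mem_filter.mp hv).2
  have hsum : 5 * W.card + (W \ L).card ≤ e2 G W := by
    unfold e2
    have h1 : ∑ v ∈ W, (5 + if v ∈ W \ L then 1 else 0) ≤ ∑ v ∈ W, deg G W v := by
      refine Finset.sum_le_sum fun v hv => ?_
      split_ifs with h
      · have h3 : v ∉ L := (Finset.mem_sdiff.mp h).2
        have h5 : ¬ deg G W v ≤ 5 := fun h' => h3 (Finset.mem_filter.mpr ⟨hv, h'⟩)
        omega
      · exact hδ v hv
    rw [Finset.sum_add_distrib, Finset.sum_const, smul_eq_mul, Finset.sum_boole] at h1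
    have h6 : W.filter (fun v => v ∈ W \ L) = W \ L := by
      ext v
      simp only [Finset.mem_filter, Finset.mem_sdiff]
      tauto
    rw [h6] at h1
    simp only [Nat.cast_id] at h1
    linarith
  have hLc : 16 ≤ L.card := by
    have h1 := Finset.card_sdiff_add_card_eq_card hLW
    omega
  have h15 := hL2 L hLW ?_ ?_ ?_
  · omega
  · intro v hv
    have h1 : deg G L v ≤ deg G W v :=
      Finset.card_le_card (Finset.filter_subset_filter _ hLW)
    exact h1.trans (hLd v hv)
  · intro T hT hI
    by_contra hcon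
    obtain ⟨T', hT', hTc⟩ := Finset.exists_subset_card_eq (show 4 ≤ T.card by omega)
    have h1 := hL1 T' ((hT'.trans hT).trans hLW) (fun x hx y hy => hI x (hT' hx) y (hT' hy)) hTc
    have h3 : ∑ t ∈ T', deg G W t ≤ ∑ t ∈ T', 5 :=
      Finset.sum_le_sum fun t ht => hLd t (hT (hT' ht))
    rw [Finset.sum_const, hTc, smul_eq_mul] at h3
    omega
  · intro T hT hTc
    exact hK T (hT.trans hLW) hTc

/-- level two -/
theorem final2 {V : Type} [DecidableEq V] (G : SimpleGraph V) [DecidableRel G.Adj]
    (W : Finset V) (hcard : W.card = 11) (h2 : IndLe G W 2)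
    (hQ1 : ∀ Q ⊆ W, Q.card = 5 → Clq G Q → IndLe G (W \ Q) 1)
    (hK6 : NoK G W 6) (h11 : e2 G W ≤ 62) : False := by
  classical
  by_cases hK : NoK G W 5
  · have h1 : ∀ v ∈ W, 6 ≤ deg G W v := by
      intro v hv
      have := deg_ge_of_two_b G W h2 hK v hv
      omega
    have h3 : ∑ v ∈ W, 6 ≤ e2 G W := Finset.sum_le_sum h1
    rw [Finset.sum_const, hcard, smul_eq_mul] at h3
    omega
  · unfold NoK at hK
    push Not at hK
    obtain ⟨Q, hQ, hQc, hQq⟩ := hK
    have h1 := hQ1 Q hQ hQc hQq
    refine hK6 (W \ Q) Finset.sdiff_subset ?_ ?_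
    · have := Finset.card_sdiff_add_card_eq_card hQ
      omega
    · intro x hx y hy hxy
      by_contra hn
      have hsub : ({x, y} : Finset V) ⊆ W \ Q := by
        intro z hz
        simp only [Finset.mem_insert, Finset.mem_singleton] at hz
        rcases hz with rfl | rfl
        · exact hx
        · exact hy
      have hI : Ind G ({x, y} : Finset V) := by
        intro a ha b hb
        simp only [Finset.mem_insert, Finset.mem_singleton] at ha hb
        rcases ha with rfl | rfl <;> rcases hb with rfl | rfl
        · exact G.irrefl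
        · exact hn
        · exact fun h => hn h.symm
        · exact G.irrefl
      have h3 := h1 _ hsub hI
      rw [Finset.card_pair hxy] at h3
      omega

end Pool.Agent.Helper351.EG
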