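import Pool.Agent.Helper351.EG.Defs

set_option autoImplicit false

namespace Pool.Agent.Helper351.EG

open Finset


theorem final3_six {V : Type} [DecidableEq V] (G : SimpleGraph V) [DecidableRel G.Adj]
    (L : Finset V) (hc : L.card = 6) (h2 : IndLe G L 2) (hK : NoK G L 5) :
    12 ≤ ∑ v ∈ L, deg G L v := by
  by_cases hd : ∀ v ∈ L, 2 ≤ deg G L v
  · have := Finset.card_nsmul_le_sum L (fun v => deg G L v) 2 hd
    rw [hc] at this
    simpa using this
  · push Not at hd
    obtain ⟨v, hv, hvd⟩ := hd
    set N := L.filter (fun w => w ≠ v ∧ ¬ G.Adj v w) with hN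
    have hNL : N ⊆ L := Finset.filter_subset _ _
    have hclq : Clq G N := by
      intro x hx y hy hxy
      by_contra hna
      rw [hN, Finset.mem_filter] at hx hy
      have hsub : ({v, x, y} : Finset V) ⊆ L := by
        intro z hz
        simp only [Finset.mem_insert, Finset.mem_singleton] at hz
        rcases hz with rfl | rfl | rfl
        · exact hv
        · exact hx.1
        · exact hy.1
      have hind : Ind G ({v, x, y} : Finset V) := by
        intro a ha b hb
        simp only [Finset.mem_insert, Finset.mem_singleton] at ha hb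
        rcases ha with rfl | rfl | rfl <;> rcases hb with rfl | rfl | rfl
        · exact G.loopless.irrefl _
        · exact hx.2.2
        · exact hy.2.2
        · exact fun h => hx.2.2 h.symm
        · exact G.loopless.irrefl _
        · exact hna
        · exact fun h => hy.2.2 h.symm
        · exact fun h => hna h.symm
        · exact G.loopless.irrefl _
      have h3 : ({v, x, y} : Finset V).card = 3 :=
        Finset.card_eq_three.2 ⟨v, x, y, hx.2.1.symm, hy.2.1.symm, hxy, rfl⟩
      have := h2 _ hsub hind
      omega
    have hcard : L.card ≤ N.card + deg G L v + 1 := by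
      have : L ⊆ (N ∪ L.filter (fun w => G.Adj v w)) ∪ {v} := by
        intro z hz
        simp only [Finset.mem_union, Finset.mem_singleton, hN, Finset.mem_filter]
        by_cases h1 : z = v
        · right; exact h1
        · left
          by_cases h2 : G.Adj v z
          · right; exact ⟨hz, h2⟩
          · left; exact ⟨hz, h1, h2⟩
      have h1 := Finset.card_le_card this
      have h2 := Finset.card_union_le (N ∪ L.filter (fun w => G.Adj v w)) {v}
      have h3 := Finset.card_union_le N (L.filter (fun w => G.Adj v w))
      have h4 : ({v} : Finset V).card = 1 := Finset.card_singleton v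
      unfold deg
      omega
    have hN4 : 4 ≤ N.card := by omega
    have hdeg3 : ∀ x ∈ N, 3 ≤ deg G L x := by
      intro x hx
      have hs : N.erase x ⊆ L.filter (fun w => G.Adj x w) := by
        intro z hz
        rw [Finset.mem_erase] at hz
        rw [Finset.mem_filter]
        exact ⟨hNL hz.2, hclq x hx z hz.2 hz.1.symm⟩
      have h1 := Finset.card_le_card hs
      rw [Finset.card_erase_of_mem hx] at h1
      unfold deg
      omega
    have h1 := Finset.card_nsmul_le_sum N (fun v => deg G L v) 3 hdeg3
    have h2 : ∑ v ∈ N, deg G L v ≤ ∑ v ∈ L, deg G L v :=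
      Finset.sum_le_sum_of_subset hNL
    simp only [smul_eq_mul] at h1
    omega

/-- level three -/
theorem final3 {V : Type} [DecidableEq V] (G : SimpleGraph V) [DecidableRel G.Adj]
    (W : Finset V) (hcard : W.card = 16) (h3 : IndLe G W 3) (hK : NoK G W 5)
    (hδ : ∀ v ∈ W, 5 ≤ deg G W v) (he : e2 G W ≤ 90)
    (hL1 : ∀ T ⊆ W, Ind G T → T.card = 3 → 17 ≤ ∑ t ∈ T, deg G W t)
    (hdg : ∀ L ⊆ W, IndLe G L 2 → ∀ v ∈ L, L.card ≤ deg G L v + 5) : False := by
  set H := W.filter (fun v => 6 ≤ deg G W v) with hH
  set L := W.filter (fun v => ¬ 6 ≤ deg G W v) with hL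
  set A := H.filter (fun v => deg G W v = 6) with hA
  have hHW : H ⊆ W := Finset.filter_subset _ _
  have hLW : L ⊆ W := Finset.filter_subset _ _
  have hAH : A ⊆ H := Finset.filter_subset _ _
  have hHL : H.card + L.card = 16 := by
    rw [← hcard]; exact Finset.card_filter_add_card_filter_not _
  have hL5 : ∀ v ∈ L, deg G W v = 5 := by
    intro v hv
    rw [hL, Finset.mem_filter] at hv
    have := hδ v hv.1
    omega
  -- degree sum
  have hsumW : ∑ v ∈ W, deg G W v = ∑ v ∈ H, deg G W v + ∑ v ∈ L, deg G W v :=
    (Finset.sum_filter_add_sum_filter_not W _ _).symm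
  have hsumL : ∑ v ∈ L, deg G W v = 5 * L.card := by
    rw [Finset.sum_congr rfl hL5]; simp [mul_comm]
  have hsumH : 7 * H.card ≤ ∑ v ∈ H, deg G W v + A.card := by
    have h1 : ∑ v ∈ H, deg G W v + A.card = ∑ v ∈ H, (deg G W v + if deg G W v = 6 then 1 else 0) := by
      rw [Finset.sum_add_distrib, hA, Finset.card_filter]
    rw [h1]
    have h2 : ∀ v ∈ H, 7 ≤ (deg G W v + if deg G W v = 6 then 1 else 0) := by
      intro v hv
      rw [hH, Finset.mem_filter] at hv
      split_ifs with h
      · omega
      · omega
    have := Finset.card_nsmul_le_sum H _ 7 h2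
    simp only [smul_eq_mul] at this
    omega
  have hAcard : A.card ≤ H.card := Finset.card_le_card hAH
  have he' : ∑ v ∈ H, deg G W v + 5 * L.card ≤ 90 := by
    have : e2 G W = ∑ v ∈ W, deg G W v := rfl
    omega
  -- L has no independent triple
  have hL2 : IndLe G L 2 := by
    intro T hT hI
    by_contra hc
    push Not at hc
    obtain ⟨T', hT', hc'⟩ := Finset.exists_subset_card_eq (show 3 ≤ T.card by omega)
    have hI' : Ind G T' := fun x hx y hy => hI x (hT' hx) y (hT' hy)
    have h17 := hL1 T' ((hT'.trans hT).trans hLW) hI' hc'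
    have h15 : ∑ t ∈ T', deg G W t = 5 * 3 := by
      rw [Finset.sum_congr rfl (fun t ht => hL5 t (hT (hT' ht)))]
      simp [hc']
    omega
  have hLdeg : ∀ v ∈ L, L.card ≤ deg G L v + 5 := hdg L hLW hL2
  have hsplit : ∀ v, deg G W v = deg G H v + deg G L v := by
    intro v
    have e1 : H.filter (fun w => G.Adj v w) =
        (W.filter (fun w => G.Adj v w)).filter (fun w => 6 ≤ deg G W w) := by
      ext z; rw [hH]; simp only [Finset.mem_filter]; tauto
    have e2 : L.filter (fun w => G.Adj v w) =
        (W.filter (fun w => G.Adj v w)).filter (fun w => ¬ 6 ≤ deg G W w) := by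
      ext z; rw [hL]; simp only [Finset.mem_filter]; tauto
    show (W.filter (fun w => G.Adj v w)).card =
      (H.filter (fun w => G.Adj v w)).card + (L.filter (fun w => G.Adj v w)).card
    rw [e1, e2]
    exact (Finset.card_filter_add_card_filter_not _).symm
  have hLne : L.Nonempty := by
    rw [← Finset.card_pos]; omega
  have hL10 : L.card ≤ 10 := by
    obtain ⟨v, hv⟩ := hLne
    have h1 := hLdeg v hv
    have h2 := hL5 v hv
    have h3 := hsplit v
    omega
  -- vertices of A have many neighbours in L
  have hAL : ∀ x ∈ A, L.card ≤ deg G L x + 4 := by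
    intro x hx
    rw [hA, Finset.mem_filter] at hx
    have hxW : x ∈ W := hHW hx.1
    set M := L.filter (fun w => ¬ G.Adj x w) with hM
    have hML : M ⊆ L := Finset.filter_subset _ _
    have hxL : x ∉ L := by
      intro h
      have := hL5 x h
      omega
    have hcl : Clq G M := by
      intro u hu w hw huw
      by_contra hna
      have hu' := hu
      have hw' := hw
      rw [hM, Finset.mem_filter] at hu hw
      have hxu : x ≠ u := fun h => hxL (h ▸ hu.1)
      have hxw : x ≠ w := fun h => hxL (h ▸ hw.1)
      have hsub : ({x, u, w} : Finset V) ⊆ W := by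
        intro z hz
        simp only [Finset.mem_insert, Finset.mem_singleton] at hz
        rcases hz with rfl | rfl | rfl
        · exact hxW
        · exact hLW hu.1
        · exact hLW hw.1
      have hind : Ind G ({x, u, w} : Finset V) := by
        intro a ha b hb
        simp only [Finset.mem_insert, Finset.mem_singleton] at ha hb
        rcases ha with rfl | rfl | rfl <;> rcases hb with rfl | rfl | rfl
        · exact G.loopless.irrefl _
        · exact hu.2
        · exact hw.2
        · exact fun h => hu.2 h.symm
        · exact G.loopless.irrefl _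
        · exact hna
        · exact fun h => hw.2 h.symm
        · exact fun h => hna h.symm
        · exact G.loopless.irrefl _
      have h3' : ({x, u, w} : Finset V).card = 3 :=
        Finset.card_eq_three.2 ⟨x, u, w, hxu, hxw, huw, rfl⟩
      have h17 := hL1 _ hsub hind h3'
      have hs : ∑ t ∈ ({x, u, w} : Finset V), deg G W t = deg G W x + (deg G W u + deg G W w) := by
        rw [Finset.sum_insert (by simp [hxu, hxw]), Finset.sum_pair huw]
      rw [hs, hx.2, hL5 u hu.1, hL5 w hw.1] at h17
      omega
    have hM4 : M.card ≤ 4 := by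
      by_contra hc
      push Not at hc
      obtain ⟨M', hM', hc'⟩ := Finset.exists_subset_card_eq (show 5 ≤ M.card by omega)
      exact hK M' ((hM'.trans hML).trans hLW) hc'
        (fun a ha b hb hab => hcl a (hM' ha) b (hM' hb) hab)
    have : (L.filter (fun w => G.Adj x w)).card + M.card = L.card :=
      Finset.card_filter_add_card_filter_not _
    unfold deg
    omega
  -- double counting
  have hdc : ∑ x ∈ H, deg G L x = ∑ v ∈ L, deg G H v := by
    have := Finset.sum_card_bipartiteAbove_eq_sum_card_bipartiteBelow (s := H) (t := L) G.Adj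
    unfold Finset.bipartiteAbove Finset.bipartiteBelow at this
    unfold deg
    rw [this]
    apply Finset.sum_congr rfl
    intro v _
    congr 1
    apply Finset.filter_congr
    intro w _
    exact G.adj_comm w v
  have hA1 : A.card * (L.card - 4) ≤ ∑ x ∈ H, deg G L x := by
    have h1 : A.card * (L.card - 4) ≤ ∑ x ∈ A, deg G L x := by
      have := Finset.card_nsmul_le_sum A (fun x => deg G L x) (L.card - 4)
        (fun x hx => by have := hAL x hx; omega)
      simpa using this
    exact h1.trans (Finset.sum_le_sum_of_subset hAH)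
  have hsumL2 : ∑ v ∈ L, deg G H v + ∑ v ∈ L, deg G L v = 5 * L.card := by
    rw [← Finset.sum_add_distrib, ← hsumL]
    apply Finset.sum_congr rfl
    intro v _
    exact (hsplit v).symm
  have hlow : L.card * (L.card - 5) ≤ ∑ v ∈ L, deg G L v := by
    have := Finset.card_nsmul_le_sum L (fun x => deg G L x) (L.card - 5)
        (fun x hx => by have := hLdeg x hx; omega)
    simpa using this
  have hLlow : 6 ≤ L.card := by omega
  have hAlow : 22 ≤ A.card + 2 * L.card := by omega
  have key : ∀ l a sH sL : ℕ, 6 ≤ l → l ≤ 10 → 22 ≤ a + 2 * l → a * (l - 4) ≤ sH → sH + sL = 5 * l →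
      l * (l - 5) ≤ sL → (l = 6 → 12 ≤ sL) → False := by
    intro l a sH sL h1 h2 h3 h4 h5 h6 h7
    interval_cases l
    · have := h7 rfl; omega
    · omega
    · omega
    · omega
    · omega
  refine key L.card A.card (∑ v ∈ L, deg G H v) (∑ v ∈ L, deg G L v) hLlow hL10 hAlow
    (hdc ▸ hA1) hsumL2 hlow ?_
  intro h6
  exact final3_six G L h6 hL2 (fun T hT => hK T (hT.trans hLW))

end Pool.Agent.Helper351.EG
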