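import Pool.Agent.Helper351.EG.Defs

set_option autoImplicit false

namespace Pool.Agent.Helper351.EG

open Finset


/-- the top level, when a clique `Q` with `r` elements is present and all degrees are at most `r` -/
theorem Kcase {V : Type} [DecidableEq V] (G : SimpleGraph V) [DecidableRel G.Adj] (r : ℕ) (hr : 3 ≤ r)
    (W Q : Finset V) (hcard : W.card = r ^ 2 + 1) (hk : IndLe G W r)
    (hΔ : ∀ v ∈ W, deg G W v ≤ r) (hQ : Q ⊆ W) (hQr : Q.card = r) (hQc : Clq G Q)
    (hP : P G W r) :
    IndLe G (W \ Q) (r - 1) := by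
  classical
  have hout : ∀ q ∈ Q, ∀ x ∈ W \ Q, ∀ y ∈ W \ Q, G.Adj q x → G.Adj q y → x = y := by
    intro q hq x hx y hy hqx hqy
    by_contra hne
    have hd := hΔ q (hQ hq)
    have hsub : (Q.erase q) ∪ {x, y} ⊆ W.filter (fun w => G.Adj q w) := by
      intro z hz
      rw [mem_union, mem_insert, mem_singleton] at hz
      rw [mem_filter]
      rcases hz with hz | rfl | rfl
      · rw [mem_erase] at hz
        exact ⟨hQ hz.2, hQc q hq z hz.2 (Ne.symm hz.1)⟩
      · exact ⟨(mem_sdiff.1 hx).1, hqx⟩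
      · exact ⟨(mem_sdiff.1 hy).1, hqy⟩
    have hcard2 : ((Q.erase q) ∪ {x, y}).card = (r - 1) + 2 := by
      rw [card_union_of_disjoint, card_erase_of_mem hq, hQr, card_pair hne]
      rw [Finset.disjoint_left]
      intro z hz hz2
      rw [mem_insert, mem_singleton] at hz2
      rw [mem_erase] at hz
      rcases hz2 with rfl | rfl
      · exact (mem_sdiff.1 hx).2 hz.2
      · exact (mem_sdiff.1 hy).2 hz.2
    have := card_le_card hsub
    unfold deg at hd
    omega
  have hnb : ∀ J ⊆ W \ Q, Ind G J → J.card = r → ∀ q ∈ Q, ∃ x ∈ J, G.Adj q x := by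
    intro J hJ hInd hJr q hq
    by_contra hcon
    push Not at hcon
    have hqJ : q ∉ J := fun h => (mem_sdiff.1 (hJ h)).2 hq
    have h1 : Ind G (insert q J) := by
      intro x hx y hy
      rw [mem_insert] at hx hy
      rcases hx with rfl | hx
      · rcases hy with rfl | hy
        · exact G.irrefl
        · exact hcon y hy
      · rcases hy with rfl | hy
        · exact fun h => hcon x hx h.symm
        · exact hInd x hx y hy
    have h2 := hk (insert q J) (by
      intro z hz
      rw [mem_insert] at hz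
      rcases hz with rfl | hz
      · exact hQ hq
      · exact (mem_sdiff.1 (hJ hz)).1) h1
    rw [card_insert_of_notMem hqJ] at h2
    omega
  have hone : ∀ x ∈ W \ Q, ∀ q ∈ Q, ∀ q' ∈ Q, G.Adj q x → G.Adj q' x → q = q' := by
    intro x hx q hq q' hq' h1 h2
    have hd := hP Q hQ hQr hQc x (mem_sdiff.1 hx).1 (mem_sdiff.1 hx).2
    unfold deg at hd
    rw [card_le_one] at hd
    exact hd q (mem_filter.2 ⟨hq, h1.symm⟩) q' (mem_filter.2 ⟨hq', h2.symm⟩)
  have hback : ∀ J ⊆ W \ Q, Ind G J → J.card = r → ∀ x ∈ J, ∃ q ∈ Q, G.Adj q x := by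
    intro J hJ hInd hJr x hx
    by_contra hcon
    push Not at hcon
    choose! f hf using hnb J hJ hInd hJr
    have hmaps : ∀ q ∈ Q, f q ∈ J.erase x := by
      intro q hq
      rw [mem_erase]
      refine ⟨?_, (hf q hq).1⟩
      intro h
      exact hcon q hq (h ▸ (hf q hq).2)
    have hinj : Set.InjOn f Q := by
      intro q hq q' hq' h
      exact hone (f q) (hJ (hf q hq).1) q hq q' hq' (hf q hq).2 (h ▸ (hf q' hq').2)
    have := card_le_card_of_injOn f hmaps hinj
    rw [card_erase_of_mem hx] at this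
    omega
  have huniq : ∀ J ⊆ W \ Q, Ind G J → J.card = r → ∀ J' ⊆ W \ Q, Ind G J' → J'.card = r →
      J ⊆ J' := by
    intro J hJ hI hr1 J' hJ' hI' hr2 x hx
    obtain ⟨q, hq, hqx⟩ := hback J hJ hI hr1 x hx
    obtain ⟨y, hy, hqy⟩ := hnb J' hJ' hI' hr2 q hq
    have := hout q hq x (hJ hx) y (hJ' hy) hqx hqy
    rw [this]; exact hy
  intro I hI hInd
  by_contra hcon
  push Not at hcon
  have hIW : I ⊆ W := fun z hz => (mem_sdiff.1 (hI hz)).1
  have hIr : I.card = r := by
    have := hk I hIW hInd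
    omega
  obtain ⟨a, ha, b, hb, hab⟩ := one_lt_card.1 (by omega : 1 < I.card)
  set I' := (I.erase a).erase b with hI'
  have hI'card : I'.card = r - 2 := by
    rw [hI', card_erase_of_mem (mem_erase.2 ⟨Ne.symm hab, hb⟩), card_erase_of_mem ha, hIr]; omega
  have hI'I : ∀ x ∈ I', x ∈ I ∧ x ≠ a ∧ x ≠ b := by
    intro x hx
    rw [hI', mem_erase, mem_erase] at hx
    exact ⟨hx.2.2, hx.2.1, hx.1⟩
  let cl : V → Finset V := fun x => insert x ((W \ Q).filter (fun w => G.Adj x w))
  have hcl : ∀ x ∈ I', (cl x).card ≤ r := by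
    intro x hx
    obtain ⟨hxI, _, _⟩ := hI'I x hx
    obtain ⟨q, hq, hqx⟩ := hback I hI hInd hIr x hxI
    have h1 : insert q ((W \ Q).filter (fun w => G.Adj x w)) ⊆ W.filter (fun w => G.Adj x w) := by
      intro z hz
      rw [mem_insert] at hz
      rw [mem_filter]
      rcases hz with rfl | hz
      · exact ⟨hQ hq, hqx.symm⟩
      · rw [mem_filter] at hz
        exact ⟨(mem_sdiff.1 hz.1).1, hz.2⟩
    have h2 : q ∉ (W \ Q).filter (fun w => G.Adj x w) := by
      intro h
      exact (mem_sdiff.1 (mem_filter.1 h).1).2 hq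
    have h3 := card_le_card h1
    rw [card_insert_of_notMem h2] at h3
    have h4 := hΔ x (hIW hxI)
    unfold deg at h4
    have h5 : (cl x).card ≤ ((W \ Q).filter (fun w => G.Adj x w)).card + 1 := card_insert_le _ _
    omega
  set N := (W \ Q) \ (I'.biUnion cl) with hN
  have hNcard : r + 1 ≤ N.card := by
    have h1 : (I'.biUnion cl).card ≤ (r - 2) * r := by
      refine le_trans card_biUnion_le ?_
      rw [← hI'card]
      have := sum_le_card_nsmul I' (fun x => (cl x).card) r hcl
      simpa using this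
    have h2 : (W \ Q).card = r ^ 2 + 1 - r := by
      rw [card_sdiff_of_subset hQ, hcard, hQr]
    have h3 : (W \ Q).card - (I'.biUnion cl).card ≤ N.card := le_card_sdiff _ _
    have h4 : r ^ 2 + 1 - r - (r - 2) * r = r + 1 := by
      obtain ⟨s, rfl⟩ : ∃ s, r = s + 2 := ⟨r - 2, by omega⟩
      have h5 : (s + 2) ^ 2 + 1 = (s + 2 - 2) * (s + 2) + (s + 2) + (s + 2 + 1) := by
        simp only [Nat.add_sub_cancel]; ring
      generalize (s + 2 - 2) * (s + 2) = A at *
      generalize (s + 2) ^ 2 = B at *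
      omega
    generalize (r - 2) * r = A at *
    generalize r ^ 2 = B at *
    omega
  have hNmem : ∀ z ∈ N, z ∈ W \ Q ∧ ∀ x ∈ I', z ≠ x ∧ ¬ G.Adj x z := by
    intro z hz
    rw [hN, mem_sdiff, mem_biUnion] at hz
    refine ⟨hz.1, fun x hx => ⟨?_, ?_⟩⟩
    · intro h
      exact hz.2 ⟨x, hx, by rw [h]; exact mem_insert_self _ _⟩
    · intro h
      exact hz.2 ⟨x, hx, mem_insert_of_mem (mem_filter.2 ⟨hz.1, h⟩)⟩
  have hinN : ∀ z ∈ I, z ∉ I' → z ∈ N := by
    intro z hz hz'
    rw [hN, mem_sdiff, mem_biUnion]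
    refine ⟨hI hz, ?_⟩
    rintro ⟨x, hx, hxz⟩
    rw [mem_insert] at hxz
    rcases hxz with rfl | hxz
    · exact hz' hx
    · exact hInd x (hI'I x hx).1 z hz (mem_filter.1 hxz).2
  have haI' : a ∉ I' := fun h => (hI'I a h).2.1 rfl
  have hbI' : b ∉ I' := fun h => (hI'I b h).2.2 rfl
  have haN := hinN a ha haI'
  have hbN := hinN b hb hbI'
  have hpair : ∀ u ∈ N, ∀ v ∈ N, u ≠ v → ¬ G.Adj u v → (u = a ∧ v = b) ∨ (u = b ∧ v = a) := by
    intro u hu v hv huv hadj
    obtain ⟨huW, hu'⟩ := hNmem u hu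
    obtain ⟨hvW, hv'⟩ := hNmem v hv
    have hvI : v ∉ I' := fun h => (hv' v h).1 rfl
    have huI : u ∉ insert v I' := by
      rw [mem_insert, not_or]
      exact ⟨huv, fun h => (hu' u h).1 rfl⟩
    have hJc : (insert u (insert v I')).card = r := by
      rw [card_insert_of_notMem huI, card_insert_of_notMem hvI, hI'card]
      omega
    have hJi : Ind G (insert u (insert v I')) := by
      intro x hx y hy
      rw [mem_insert, mem_insert] at hx hy
      rcases hx with rfl | rfl | hx
      · rcases hy with rfl | rfl | hy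
        · exact G.irrefl
        · exact hadj
        · exact fun h => (hu' y hy).2 h.symm
      · rcases hy with rfl | rfl | hy
        · exact fun h => hadj h.symm
        · exact G.irrefl
        · exact fun h => (hv' y hy).2 h.symm
      · rcases hy with rfl | rfl | hy
        · exact (hu' x hx).2
        · exact (hv' x hx).2
        · exact hInd x (hI'I x hx).1 y (hI'I y hy).1
    have hJs : insert u (insert v I') ⊆ W \ Q := by
      intro z hz
      rw [mem_insert, mem_insert] at hz
      rcases hz with rfl | rfl | hz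
      · exact huW
      · exact hvW
      · exact hI (hI'I z hz).1
    have hsub := huniq I hI hInd hIr _ hJs hJi hJc
    have h1 := hsub ha
    have h2 := hsub hb
    rw [mem_insert, mem_insert] at h1 h2
    rcases h1 with h1 | h1 | h1
    · rcases h2 with h2 | h2 | h2
      · exact absurd (h1.trans h2.symm) hab
      · exact Or.inl ⟨h1.symm, h2.symm⟩
      · exact absurd h2 hbI'
    · rcases h2 with h2 | h2 | h2
      · exact Or.inr ⟨h2.symm, h1.symm⟩
      · exact absurd (h1.trans h2.symm) hab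
      · exact absurd h2 hbI'
    · exact absurd h1 haI'
  obtain ⟨C, hCs, hCc⟩ := exists_subset_card_eq (s := (N.erase a).erase b) (n := r - 1) (by
    rw [card_erase_of_mem (mem_erase.2 ⟨Ne.symm hab, hbN⟩), card_erase_of_mem haN]
    omega)
  have hCm : ∀ c ∈ C, c ∈ N ∧ c ≠ a ∧ c ≠ b := by
    intro c hc
    have := hCs hc
    rw [mem_erase, mem_erase] at this
    exact ⟨this.2.2, this.2.1, this.1⟩
  have haC : a ∉ C := fun h => (hCm a h).2.1 rfl
  have hbC : b ∉ C := fun h => (hCm b h).2.2 rfl
  have hQ'c : (insert a C).card = r := by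
    rw [card_insert_of_notMem haC, hCc]; omega
  have hQ'N : ∀ z ∈ insert a C, z ∈ N := by
    intro z hz
    rw [mem_insert] at hz
    rcases hz with rfl | hz
    · exact haN
    · exact (hCm z hz).1
  have hbQ' : b ∉ insert a C := by
    rw [mem_insert, not_or]
    exact ⟨Ne.symm hab, hbC⟩
  have hQ'W : insert a C ⊆ W := by
    intro z hz
    exact (mem_sdiff.1 (hNmem z (hQ'N z hz)).1).1
  have hQ'clq : Clq G (insert a C) := by
    intro x hx y hy hxy
    by_contra hnon
    rcases hpair x (hQ'N x hx) y (hQ'N y hy) hxy hnon with h | h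
    · exact hbQ' (h.2 ▸ hy)
    · exact hbQ' (h.1 ▸ hx)
  have hdeg := hP (insert a C) hQ'W hQ'c hQ'clq b (hIW hb) hbQ'
  have hsubC : C ⊆ (insert a C).filter (fun w => G.Adj b w) := by
    intro c hc
    rw [mem_filter]
    refine ⟨mem_insert_of_mem hc, ?_⟩
    by_contra hnon
    obtain ⟨hcN, hca, hcb⟩ := hCm c hc
    rcases hpair b hbN c hcN (Ne.symm hcb) hnon with h | h
    · exact hab h.1.symm
    · exact hca h.2
  have := card_le_card hsubC
  unfold deg at hdeg
  omega

end Pool.Agent.Helper351.EG
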