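import Pool.Agent.Helper351.EG.Defs

set_option autoImplicit false

namespace Pool.Agent.Helper351.EG

open Finset


/-- Private neighbour bound: `T` a maximum independent set of `W`, no clique with `r` elements. -/
theorem L1 {V : Type} [DecidableEq V] (G : SimpleGraph V) [DecidableRel G.Adj] (r : ℕ) (hr : 2 ≤ r)
    (W T : Finset V) (hTW : T ⊆ W) (hT : Ind G T) (hmax : IndLe G W T.card) (hK : NoK G W r) :
    2 * W.card ≤ ∑ t ∈ T, deg G W t + r * T.card := by
  classical
  have hswap : ∑ t ∈ T, deg G W t = ∑ w ∈ W, deg G T w := by
    unfold deg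
    simp only [Finset.card_filter]
    rw [Finset.sum_comm]
    refine Finset.sum_congr rfl fun w _ => Finset.sum_congr rfl fun t _ => ?_
    exact if_congr (G.adj_comm t w) rfl rfl
  have hsub : ∑ w ∈ W \ T, deg G T w ≤ ∑ w ∈ W, deg G T w :=
    Finset.sum_le_sum_of_subset Finset.sdiff_subset
  -- every outside vertex has a neighbour in T
  have hone : ∀ w ∈ W \ T, 1 ≤ deg G T w := by
    intro w hw
    rw [Finset.mem_sdiff] at hw
    by_contra hcon
    have h0 : deg G T w = 0 := by omega
    unfold deg at h0
    rw [Finset.card_eq_zero, Finset.filter_eq_empty_iff] at h0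
    have hind : Ind G (insert w T) := by
      intro x hx y hy
      rw [Finset.mem_insert] at hx hy
      rcases hx with rfl | hx <;> rcases hy with rfl | hy
      · exact G.irrefl
      · exact h0 hy
      · exact fun h => h0 hx h.symm
      · exact hT x hx y hy
    have h1 := hmax (insert w T) (Finset.insert_subset hw.1 hTW) hind
    rw [Finset.card_insert_of_notMem hw.2] at h1
    omega
  -- private sets
  let Pr : V → Finset V := fun t => (W \ T).filter (fun w => T.filter (fun s => G.Adj w s) = {t})
  have hPrmem : ∀ t w, w ∈ Pr t ↔ (w ∈ W ∧ w ∉ T) ∧ T.filter (fun s => G.Adj w s) = {t} := by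
    intro t w
    simp only [Pr, Finset.mem_filter, Finset.mem_sdiff]
  have hPr : ∀ t ∈ T, (Pr t).card ≤ r - 2 := by
    intro t ht
    have hadj : ∀ w ∈ Pr t, G.Adj w t := by
      intro w hw
      have h := ((hPrmem t w).mp hw).2
      have h2 : t ∈ T.filter (fun s => G.Adj w s) := by rw [h]; exact Finset.mem_singleton_self t
      exact (Finset.mem_filter.mp h2).2
    have honly : ∀ w ∈ Pr t, ∀ s ∈ T, G.Adj w s → s = t := by
      intro w hw s hs hws
      have h := ((hPrmem t w).mp hw).2
      have h2 : s ∈ T.filter (fun s => G.Adj w s) := Finset.mem_filter.mpr ⟨hs, hws⟩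
      rw [h] at h2
      exact Finset.mem_singleton.mp h2
    have hcl : ∀ a ∈ Pr t, ∀ b ∈ Pr t, a ≠ b → G.Adj a b := by
      intro a ha b hb hab
      by_contra hnab
      have haW := ((hPrmem t a).mp ha).1
      have hbW := ((hPrmem t b).mp hb).1
      have hind : Ind G (insert a (insert b (T.erase t))) := by
        have haT : ∀ s ∈ T.erase t, ¬ G.Adj a s := by
          intro s hs h
          rw [Finset.mem_erase] at hs
          exact hs.1 (honly a ha s hs.2 h)
        have hbT : ∀ s ∈ T.erase t, ¬ G.Adj b s := by
          intro s hs h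
          rw [Finset.mem_erase] at hs
          exact hs.1 (honly b hb s hs.2 h)
        intro x hx y hy
        rw [Finset.mem_insert, Finset.mem_insert] at hx hy
        rcases hx with hx | hx | hx <;> rcases hy with hy | hy | hy
        · rw [hx, hy]; exact G.irrefl
        · rw [hx, hy]; exact hnab
        · rw [hx]; exact haT y hy
        · rw [hx, hy]; exact fun h => hnab h.symm
        · rw [hx, hy]; exact G.irrefl
        · rw [hx]; exact hbT y hy
        · rw [hy]; exact fun h => haT x hx h.symm
        · rw [hy]; exact fun h => hbT x hx h.symm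
        · exact hT x (Finset.mem_of_mem_erase hx) y (Finset.mem_of_mem_erase hy)
      have hsubW : insert a (insert b (T.erase t)) ⊆ W :=
        Finset.insert_subset haW.1 (Finset.insert_subset hbW.1
          ((Finset.erase_subset t T).trans hTW))
      have h1 := hmax _ hsubW hind
      have hbn : b ∉ T.erase t := fun h => hbW.2 (Finset.mem_of_mem_erase h)
      have han : a ∉ insert b (T.erase t) := by
        rw [Finset.mem_insert]
        rintro (h | h)
        · exact hab h
        · exact haW.2 (Finset.mem_of_mem_erase h)
      rw [Finset.card_insert_of_notMem han, Finset.card_insert_of_notMem hbn,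
        Finset.card_erase_of_mem ht] at h1
      have h2 : 1 ≤ T.card := Finset.card_pos.mpr ⟨t, ht⟩
      omega
    by_contra hcon
    have htn : t ∉ Pr t := fun h => ((hPrmem t t).mp h).1.2 ht
    have hcard : (insert t (Pr t)).card = (Pr t).card + 1 := Finset.card_insert_of_notMem htn
    have hge : r ≤ (insert t (Pr t)).card := by omega
    obtain ⟨Q, hQ, hQr⟩ := Finset.exists_subset_card_eq hge
    refine hK Q ?_ hQr ?_
    · intro x hx
      have hx' := hQ hx
      rw [Finset.mem_insert] at hx'
      rcases hx' with hx' | hx'
      · rw [hx']; exact hTW ht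
      · exact ((hPrmem t x).mp hx').1.1
    · intro x hx y hy hxy
      have hx' := hQ hx
      have hy' := hQ hy
      rw [Finset.mem_insert] at hx' hy'
      rcases hx' with hx' | hx' <;> rcases hy' with hy' | hy'
      · exact absurd (hx'.trans hy'.symm) hxy
      · rw [hx']; exact (hadj y hy').symm
      · rw [hy']; exact hadj x hx'
      · exact hcl x hx' y hy' hxy
  let S1 : Finset V := (W \ T).filter (fun w => deg G T w = 1)
  have hS1 : S1.card ≤ T.card * (r - 2) := by
    have hsub1 : S1 ⊆ T.biUnion Pr := by
      intro w hw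
      have hw' := Finset.mem_filter.mp hw
      have h1 : (T.filter (fun s => G.Adj w s)).card = 1 := hw'.2
      obtain ⟨t, ht⟩ := Finset.card_eq_one.mp h1
      rw [Finset.mem_biUnion]
      refine ⟨t, ?_, ?_⟩
      · have h2 : t ∈ T.filter (fun s => G.Adj w s) := by
          rw [ht]; exact Finset.mem_singleton_self t
        exact (Finset.mem_filter.mp h2).1
      · exact (hPrmem t w).mpr ⟨Finset.mem_sdiff.mp hw'.1, ht⟩
    calc S1.card ≤ (T.biUnion Pr).card := Finset.card_le_card hsub1
      _ ≤ T.card * (r - 2) := Finset.card_biUnion_le_card_mul _ _ _ hPr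
  have hsum : 2 * (W \ T).card ≤ ∑ w ∈ W \ T, deg G T w + S1.card := by
    have h1 : S1.card = ∑ w ∈ W \ T, (if deg G T w = 1 then 1 else 0) := by
      simp only [S1, Finset.card_filter]
    rw [h1, ← Finset.sum_add_distrib, mul_comm, ← smul_eq_mul, ← Finset.sum_const]
    refine Finset.sum_le_sum fun w hw => ?_
    have h2 := hone w hw
    split_ifs with h3 <;> omega
  have hcW : (W \ T).card + T.card = W.card := by
    rw [Finset.card_sdiff_add_card, Finset.union_eq_left.mpr hTW]
  have hmul : T.card * (r - 2) + 2 * T.card = r * T.card := by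
    obtain ⟨k, rfl⟩ := Nat.exists_eq_add_of_le hr
    have : 2 + k - 2 = k := by omega
    rw [this]
    ring
  rw [hswap]
  omega

end Pool.Agent.Helper351.EG
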