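import Pool.Agent.Helper351.EG.Defs

set_option autoImplicit false

namespace Pool.Agent.Helper351.EG

open Finset


theorem L2_split {V : Type} [DecidableEq V] (G : SimpleGraph V) [DecidableRel G.Adj]
    (W : Finset V) (v : V) (hv : v ∈ W) :
    W.card = 1 + deg G W v + (W.filter (fun w => w ≠ v ∧ ¬ G.Adj v w)).card := by
  have h1 := Finset.card_filter_add_card_filter_not (s := W) (fun w => G.Adj v w)
  have h2 : W.filter (fun w => ¬ G.Adj v w) = insert v (W.filter (fun w => w ≠ v ∧ ¬ G.Adj v w)) := by
    ext w
    simp only [Finset.mem_filter, Finset.mem_insert]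
    constructor
    · rintro ⟨a, b⟩
      by_cases h : w = v
      · exact Or.inl h
      · exact Or.inr ⟨a, h, b⟩
    · rintro (rfl | ⟨a, _, b⟩)
      · exact ⟨hv, G.loopless.irrefl w⟩
      · exact ⟨a, b⟩
  rw [h2, Finset.card_insert_of_notMem (by simp)] at h1
  unfold deg
  omega

/-- no `K_5`, independence number at most two: large degrees. -/
theorem deg_ge_of_two {V : Type} [DecidableEq V] (G : SimpleGraph V) [DecidableRel G.Adj]
    (W : Finset V) (h2 : IndLe G W 2) (hK : NoK G W 5) (v : V) (hv : v ∈ W) :
    W.card ≤ deg G W v + 5 := by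
  have hs := L2_split G W v hv
  set M := W.filter (fun w => w ≠ v ∧ ¬ G.Adj v w) with hM
  have hcl : ∀ x ∈ M, ∀ y ∈ M, x ≠ y → G.Adj x y := by
    intro x hx y hy hxy
    by_contra hn
    rw [hM, Finset.mem_filter] at hx hy
    have h := h2 {v, x, y} (by
      intro z hz
      simp only [Finset.mem_insert, Finset.mem_singleton] at hz
      rcases hz with rfl | rfl | rfl
      · exact hv
      · exact hx.1
      · exact hy.1) (by
      intro a ha b hb
      simp only [Finset.mem_insert, Finset.mem_singleton] at ha hb
      have l1 : ¬ G.Adj v v := G.loopless.irrefl v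
      have l2 : ¬ G.Adj x x := G.loopless.irrefl x
      have l3 : ¬ G.Adj y y := G.loopless.irrefl y
      have s1 : ¬ G.Adj x v := fun h => hx.2.2 h.symm
      have s2 : ¬ G.Adj y v := fun h => hy.2.2 h.symm
      have s3 : ¬ G.Adj y x := fun h => hn h.symm
      rcases ha with ha | ha | ha <;> rcases hb with hb | hb | hb <;> rw [ha, hb]
      · exact l1
      · exact hx.2.2
      · exact hy.2.2
      · exact s1
      · exact l2
      · exact hn
      · exact s2
      · exact s3
      · exact l3)
    have hc : ({v, x, y} : Finset V).card = 3 := by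
      rw [Finset.card_eq_three]
      exact ⟨v, x, y, hx.2.1.symm, hy.2.1.symm, hxy, rfl⟩
    omega
  have hM4 : M.card ≤ 4 := by
    by_contra hcon
    obtain ⟨T, hT, hTc⟩ := Finset.exists_subset_card_eq (show 5 ≤ M.card by omega)
    exact hK T (hT.trans (Finset.filter_subset _ _)) hTc
      (fun x hx y hy hxy => hcl x (hT hx) y (hT hy) hxy)
  omega

theorem L2 {V : Type} [DecidableEq V] (G : SimpleGraph V) [DecidableRel G.Adj]
    (L : Finset V) (hΔ : ∀ v ∈ L, deg G L v ≤ 5) (h3 : IndLe G L 3) (hK : NoK G L 5) :
    L.card ≤ 15 := by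
  by_contra hcon
  have hL : 16 ≤ L.card := by omega
  have key : ∀ v ∈ L, ∀ u ∈ L.filter (fun w => w ≠ v ∧ ¬ G.Adj v w),
      deg G L v = 5 ∧ (∀ w ∈ L, G.Adj u w → ¬ G.Adj v w) := by
    intro v hv u hu
    have hs := L2_split G L v hv
    have hd := hΔ v hv
    have hI : IndLe G (L.filter (fun w => w ≠ v ∧ ¬ G.Adj v w)) 2 := by
      intro T hT hTi
      have hvT : v ∉ T := by
        intro h
        have := (Finset.mem_filter.mp (hT h)).2.1
        exact this rfl
      have h := h3 (insert v T) (by
        intro z hz
        rcases Finset.mem_insert.mp hz with rfl | hz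
        · exact hv
        · exact (Finset.mem_filter.mp (hT hz)).1) (by
        intro a ha b hb
        rcases Finset.mem_insert.mp ha with ha1 | ha1
        · rcases Finset.mem_insert.mp hb with hb1 | hb1
          · rw [ha1, hb1]
            exact G.loopless.irrefl _
          · rw [ha1]
            exact (Finset.mem_filter.mp (hT hb1)).2.2
        · rcases Finset.mem_insert.mp hb with hb1 | hb1
          · rw [hb1]
            exact fun h => (Finset.mem_filter.mp (hT ha1)).2.2 h.symm
          · exact hTi a ha1 b hb1)
      rw [Finset.card_insert_of_notMem hvT] at h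
      omega
    have hK' : NoK G (L.filter (fun w => w ≠ v ∧ ¬ G.Adj v w)) 5 :=
      fun T hT => hK T (hT.trans (Finset.filter_subset _ _))
    have h5 := deg_ge_of_two G _ hI hK' u hu
    have hu' := Finset.mem_filter.mp hu
    have hsub : (L.filter (fun w => w ≠ v ∧ ¬ G.Adj v w)).filter (fun w => G.Adj u w) ⊆
        L.filter (fun w => G.Adj u w) :=
      Finset.filter_subset_filter _ (Finset.filter_subset _ _)
    have hle := Finset.card_le_card hsub
    have hdu := hΔ u hu'.1
    unfold deg at h5 hdu hd hs
    have heq := Finset.eq_of_subset_of_card_le hsub (by omega)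
    refine ⟨?_, ?_⟩
    · unfold deg
      omega
    · intro w hw huw
      have hw' : w ∈ L.filter (fun w => G.Adj u w) := Finset.mem_filter.mpr ⟨hw, huw⟩
      rw [← heq] at hw'
      exact (Finset.mem_filter.mp (Finset.mem_filter.mp hw').1).2.2
  have hne : L.Nonempty := Finset.card_pos.mp (by omega)
  obtain ⟨w, hw⟩ := hne
  have hdw : deg G L w = 5 := by
    have hs := L2_split G L w hw
    have hd := hΔ w hw
    have : 0 < (L.filter (fun x => x ≠ w ∧ ¬ G.Adj w x)).card := by omega
    obtain ⟨u, hu⟩ := Finset.card_pos.mp this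
    exact (key w hw u hu).1
  refine hK (L.filter (fun x => G.Adj w x)) (Finset.filter_subset _ _) hdw ?_
  intro x hx y hy hxy
  rw [Finset.mem_filter] at hx hy
  by_contra hn
  have := (key x hx.1 y (Finset.mem_filter.mpr ⟨hy.1, hxy.symm, hn⟩)).2 w hw hy.2.symm
  exact this hx.2.symm

end Pool.Agent.Helper351.EG
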