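import Pool.Agent.Helper351.EG.Defs

set_option autoImplicit false

namespace Pool.Agent.Helper351.EG

open Finset


theorem e2_remove {V : Type} [DecidableEq V] (G : SimpleGraph V) [DecidableRel G.Adj]
    (W A : Finset V) (hA : A ⊆ W) :
    e2 G (W \ A) + ∑ a ∈ A, deg G W a ≤ e2 G W := by
  unfold e2
  rw [← Finset.sum_sdiff hA]
  refine Nat.add_le_add_right ?_ _
  refine Finset.sum_le_sum fun v _ => ?_
  unfold deg
  exact Finset.card_le_card (Finset.filter_subset_filter _ Finset.sdiff_subset)

theorem indLe_remove_nbhd {V : Type} [DecidableEq V] (G : SimpleGraph V) [DecidableRel G.Adj]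
    (W : Finset V) (k : ℕ) (hk : IndLe G W (k + 1)) (v : V) (hv : v ∈ W) :
    IndLe G (W.filter (fun w => w ≠ v ∧ ¬ G.Adj v w)) k := by
  intro T hT hI
  have h1 : ∀ x ∈ T, x ∈ W ∧ x ≠ v ∧ ¬ G.Adj v x := fun x hx => by
    simpa using Finset.mem_filter.1 (hT hx)
  have hvT : v ∉ T := fun h => (h1 v h).2.1 rfl
  have h2 : (insert v T).card ≤ k + 1 := by
    refine hk (insert v T) ?_ ?_
    · intro x hx
      rcases Finset.mem_insert.1 hx with h | h
      · rw [h]; exact hv
      · exact (h1 x h).1
    · intro x hx y hy hxy
      rcases Finset.mem_insert.1 hx with h | h <;> rcases Finset.mem_insert.1 hy with h' | h'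
      · rw [h, h'] at hxy
        exact G.irrefl hxy
      · rw [h] at hxy
        exact (h1 y h').2.2 hxy
      · rw [h'] at hxy
        exact (h1 x h).2.2 hxy.symm
      · exact hI x h y h' hxy
  rw [Finset.card_insert_of_notMem hvT] at h2
  omega

/-- greedy -/
theorem L3 {V : Type} [DecidableEq V] (G : SimpleGraph V) [DecidableRel G.Adj]
    (m : ℕ) (S : Finset V) (hΔ : ∀ v ∈ S, deg G S v ≤ 4) (hm : IndLe G S m) :
    S.card ≤ 5 * m := by
  induction m generalizing S with
  | zero =>
    rcases S.eq_empty_or_nonempty with h | ⟨v, hv⟩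
    · simp [h]
    · exfalso
      have := hm {v} (by simpa using hv) (by
        intro x hx y hy hxy
        rw [Finset.mem_singleton.1 hx, Finset.mem_singleton.1 hy] at hxy
        exact G.irrefl hxy)
      simp at this
  | succ m ih =>
    rcases S.eq_empty_or_nonempty with h | ⟨v, hv⟩
    · simp [h]
    · have h1 := indLe_remove_nbhd G S m hm v hv
      have h2 := ih (S.filter (fun w => w ≠ v ∧ ¬ G.Adj v w)) (by
        intro w hw
        refine le_trans ?_ (hΔ w (Finset.mem_filter.1 hw).1)
        unfold deg
        exact Finset.card_le_card (Finset.filter_subset_filter _ (Finset.filter_subset _ _))) h1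
      have h3 : S ⊆ S.filter (fun w => w ≠ v ∧ ¬ G.Adj v w) ∪
          insert v (S.filter (fun w => G.Adj v w)) := by
        intro w hw
        by_cases hwv : w = v
        · simp [hwv]
        · by_cases ha : G.Adj v w
          · simp [ha, hw]
          · simp [ha, hw, hwv]
      have h4 := Finset.card_le_card h3
      have h5 := Finset.card_union_le (S.filter (fun w => w ≠ v ∧ ¬ G.Adj v w))
        (insert v (S.filter (fun w => G.Adj v w)))
      have h6 := Finset.card_insert_le v (S.filter (fun w => G.Adj v w))
      have h7 : (S.filter (fun w => G.Adj v w)).card ≤ 4 := hΔ v hv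
      omega

end Pool.Agent.Helper351.EG
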