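import Pool.Agent.Helper351.EG.Main

set_option autoImplicit false

namespace Pool.Agent.Helper351.EG

open Finset

/-- greedy -/
theorem L3g {V : Type} [DecidableEq V] (G : SimpleGraph V) [DecidableRel G.Adj] (r : ℕ) (hr : 1 ≤ r)
    (m : ℕ) (S : Finset V) (hΔ : ∀ v ∈ S, deg G S v ≤ r - 1) (hm : IndLe G S m) :
    S.card ≤ r * m := by
  induction m generalizing S with
  | zero =>
    rcases S.eq_empty_or_nonempty with h | ⟨v, hv⟩
    · simp [h]
    · exfalso
      have := hm {v} (by simpa using hv) (by
        intro x hx y hy hxy
        rw [Finset.mem_singleton.1 hx, Finset.mem_singleton.1 hy] at hxy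
        exact G.irrefl hxy)
      simp at this
  | succ m ih =>
    rcases S.eq_empty_or_nonempty with h | ⟨v, hv⟩
    · simp [h]
    · have h1 := indLe_remove_nbhd G S m hm v hv
      have h2 := ih (S.filter (fun w => w ≠ v ∧ ¬ G.Adj v w)) (by
        intro w hw
        refine le_trans ?_ (hΔ w (Finset.mem_filter.1 hw).1)
        unfold deg
        exact Finset.card_le_card (Finset.filter_subset_filter _ (Finset.filter_subset _ _))) h1
      have h3 : S ⊆ S.filter (fun w => w ≠ v ∧ ¬ G.Adj v w) ∪
          insert v (S.filter (fun w => G.Adj v w)) := by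
        intro w hw
        by_cases hwv : w = v
        · simp [hwv]
        · by_cases ha : G.Adj v w
          · simp [ha, hw]
          · simp [ha, hw, hwv]
      have h4 := Finset.card_le_card h3
      have h5 := Finset.card_union_le (S.filter (fun w => w ≠ v ∧ ¬ G.Adj v w))
        (insert v (S.filter (fun w => G.Adj v w)))
      have h6 := Finset.card_insert_le v (S.filter (fun w => G.Adj v w))
      have h7 : (S.filter (fun w => G.Adj v w)).card ≤ r - 1 := hΔ v hv
      have h8 : r * (m + 1) = r * m + r := by ring
      omega

end Pool.Agent.Helper351.EG
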