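import Pool.Agent.Helper351.EG.Defs

set_option autoImplicit false

namespace Pool.Agent.Helper351.EG

open Finset


/-- peeling the closed neighbourhood of a vertex of small degree -/
theorem L4 {V : Type} [DecidableEq V] (G : SimpleGraph V) [DecidableRel G.Adj]
    (W : Finset V) (k : ℕ)
    (hL4a : ∀ S : Finset V, IndLe G S k → 5 * k + 1 ≤ S.card →
      ∃ S' ⊆ S, S'.card = 5 * k + 1 ∧ e2 G S' + 10 * (S.card - (5 * k + 1)) ≤ e2 G S)
    (hcard : W.card = 5 * (k + 1) + 1) (hk : IndLe G W (k + 1))
    (v : V) (hv : v ∈ W) (hd : deg G W v ≤ 4) :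
    ∃ W' ⊆ W, W'.card = 5 * k + 1 ∧ IndLe G W' k ∧ e2 G W' + 20 ≤ e2 G W := by
  obtain ⟨v0, hv0, hmin⟩ := W.exists_min_image (deg G W) ⟨v, hv⟩
  obtain ⟨d, hdd⟩ : ∃ d, d = deg G W v0 := ⟨_, rfl⟩
  have hd4 : d ≤ 4 := by
    rw [hdd]; exact (hmin v hv).trans hd
  obtain ⟨A, hA⟩ : ∃ A, A = insert v0 (W.filter (fun w => G.Adj v0 w)) := ⟨_, rfl⟩
  have hAW : A ⊆ W := by
    rw [hA]
    exact Finset.insert_subset hv0 (Finset.filter_subset _ _)
  have hAc : A.card = d + 1 := by
    rw [hA, Finset.card_insert_of_notMem, hdd]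
    · rfl
    · intro h
      exact G.irrefl (Finset.mem_filter.mp h).2
  have hv0A : v0 ∈ A := by rw [hA]; exact Finset.mem_insert_self _ _
  have hSc : (W \ A).card = 5 * k + 5 - d := by
    rw [Finset.card_sdiff_of_subset hAW, hcard, hAc]
    omega
  have hSI : IndLe G (W \ A) k := by
    intro T hT hTI
    have hnA : ∀ t ∈ T, ¬ G.Adj v0 t := by
      intro t ht hadj
      have h1 := hT ht
      rw [Finset.mem_sdiff] at h1
      apply h1.2
      rw [hA]
      exact Finset.mem_insert_of_mem (Finset.mem_filter.mpr ⟨h1.1, hadj⟩)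
    have hv0T : v0 ∉ T := by
      intro h
      exact (Finset.mem_sdiff.mp (hT h)).2 hv0A
    have h2 := hk (insert v0 T) (by
      apply Finset.insert_subset hv0
      exact hT.trans Finset.sdiff_subset) (by
      intro x hx y hy hxy
      rw [Finset.mem_insert] at hx hy
      rcases hx with hx | hx
      · rcases hy with hy | hy
        · rw [hx, hy] at hxy
          exact G.irrefl hxy
        · rw [hx] at hxy
          exact hnA y hy hxy
      · rcases hy with hy | hy
        · rw [hy] at hxy
          exact hnA x hx hxy.symm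
        · exact hTI x hx y hy hxy)
    rw [Finset.card_insert_of_notMem hv0T] at h2
    omega
  obtain ⟨S', hS'1, hS'2, hS'3⟩ := hL4a (W \ A) hSI (by rw [hSc]; omega)
  refine ⟨S', hS'1.trans Finset.sdiff_subset, hS'2, fun T hT => hSI T (hT.trans hS'1), ?_⟩
  have h1 : e2 G (W \ A) + (d + 1) * d ≤ e2 G W := by
    unfold e2
    rw [← Finset.sum_sdiff hAW]
    apply add_le_add
    · apply Finset.sum_le_sum
      intro w _
      exact Finset.card_le_card (Finset.filter_subset_filter _ Finset.sdiff_subset)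
    · rw [← hAc, ← smul_eq_mul]
      apply Finset.card_nsmul_le_sum
      intro w hw
      rw [hdd]
      exact hmin w (hAW hw)
  rw [hSc] at hS'3
  clear hdd
  interval_cases d <;> omega

end Pool.Agent.Helper351.EG
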