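import Pool.Agent.Helper351.EG.Defs

set_option autoImplicit false

namespace Pool.Agent.Helper351.EG

open Finset


theorem e2_erase408 {V : Type} [DecidableEq V] (G : SimpleGraph V) [DecidableRel G.Adj]
    (S : Finset V) (v : V) (hv : v ∈ S) : e2 G S = e2 G (S.erase v) + 2 * deg G S v := by
  have h1 : e2 G S = deg G S v + ∑ w ∈ S.erase v, deg G S w := by
    unfold e2
    rw [← Finset.add_sum_erase S _ hv]
  have h2 : ∀ w ∈ S.erase v, deg G S w = deg G (S.erase v) w + (if G.Adj w v then 1 else 0) := by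
    intro w hw
    unfold deg
    have hS : S = insert v (S.erase v) := (Finset.insert_erase hv).symm
    conv_lhs => rw [hS]
    rw [Finset.filter_insert]
    by_cases h : G.Adj w v
    · rw [if_pos h, if_pos h, Finset.card_insert_of_notMem]
      simp
    · rw [if_neg h, if_neg h, add_zero]
  have h3 : ∑ w ∈ S.erase v, (if G.Adj w v then 1 else 0) = deg G S v := by
    rw [← Finset.card_filter]
    unfold deg
    congr 1
    ext w
    simp only [Finset.mem_filter, Finset.mem_erase]
    constructor
    · rintro ⟨⟨_, h⟩, h'⟩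
      exact ⟨h, h'.symm⟩
    · rintro ⟨h, h'⟩
      exact ⟨⟨h'.ne.symm, h⟩, h'.symm⟩
  rw [h1, Finset.sum_congr rfl h2, Finset.sum_add_distrib, h3]
  unfold e2
  ring

/-- trimming down -/
theorem L4a {V : Type} [DecidableEq V] (G : SimpleGraph V) [DecidableRel G.Adj]
    (m : ℕ) (hL3 : ∀ S : Finset V, (∀ v ∈ S, deg G S v ≤ 4) → IndLe G S m → S.card ≤ 5 * m)
    (S : Finset V) (hm : IndLe G S m) (hS : 5 * m + 1 ≤ S.card) :
    ∃ S' ⊆ S, S'.card = 5 * m + 1 ∧ e2 G S' + 10 * (S.card - (5 * m + 1)) ≤ e2 G S := by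
  have main : ∀ n : ℕ, ∀ S : Finset V, S.card = 5 * m + 1 + n → IndLe G S m →
      ∃ S' ⊆ S, S'.card = 5 * m + 1 ∧ e2 G S' + 10 * n ≤ e2 G S := by
    intro n
    induction n with
    | zero =>
      intro S hc _
      exact ⟨S, Finset.Subset.refl _, by simpa using hc, by simp⟩
    | succ n ih =>
      intro S hc hI
      have hex : ∃ v ∈ S, 5 ≤ deg G S v := by
        by_contra hcon
        push Not at hcon
        have := hL3 S (fun v hv => by have := hcon v hv; omega) hI
        omega
      obtain ⟨v, hv, hd⟩ := hex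
      have hc' : (S.erase v).card = 5 * m + 1 + n := by
        rw [Finset.card_erase_of_mem hv]; omega
      have hI' : IndLe G (S.erase v) m := fun T hT hi => hI T (hT.trans (Finset.erase_subset _ _)) hi
      obtain ⟨S', hs, hs1, hs2⟩ := ih (S.erase v) hc' hI'
      refine ⟨S', hs.trans (Finset.erase_subset _ _), hs1, ?_⟩
      have := e2_erase408 G S v hv
      omega
  obtain ⟨S', h1, h2, h3⟩ := main (S.card - (5 * m + 1)) S (by omega) hm
  exact ⟨S', h1, h2, h3⟩

end Pool.Agent.Helper351.EG
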