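import Pool.Agent.Helper351.EG.Defs

set_option autoImplicit false

namespace Pool.Agent.Helper351.EG

open Finset


/-- peeling a clique with `r` elements -/
theorem L5 {V : Type} [DecidableEq V] (G : SimpleGraph V) [DecidableRel G.Adj] (r : ℕ)
    (W Q : Finset V) (k : ℕ) (hkr : k + 1 < r)
    (hk : IndLe G W (k + 1)) (hQ : Q ⊆ W) (hQr : Q.card = r) (hQc : Clq G Q)
    (hP : ∀ v ∈ W, v ∉ Q → deg G Q v ≤ 1) :
    IndLe G (W \ Q) k ∧ (∀ q ∈ Q, r - 1 ≤ deg G W q) := by
  constructor
  · intro T hT hTi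
    by_contra hcon
    have hcon' : k + 1 ≤ T.card := by omega
    obtain ⟨T', hT', hT'c⟩ := Finset.exists_subset_card_eq hcon'
    have hT'W : T' ⊆ W := fun x hx => (Finset.mem_sdiff.mp (hT (hT' hx))).1
    have hT'Q : ∀ x ∈ T', x ∉ Q := fun x hx => (Finset.mem_sdiff.mp (hT (hT' hx))).2
    have hb : (T'.biUnion (fun t => Q.filter (fun w => G.Adj t w))).card ≤ k + 1 := by
      calc _ ≤ ∑ t ∈ T', (Q.filter (fun w => G.Adj t w)).card := Finset.card_biUnion_le
        _ ≤ ∑ t ∈ T', 1 := Finset.sum_le_sum (fun t ht => hP t (hT'W ht) (hT'Q t ht))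
        _ = k + 1 := by simp [hT'c]
    have hex : ∃ q ∈ Q, q ∉ T'.biUnion (fun t => Q.filter (fun w => G.Adj t w)) := by
      by_contra hne
      have hsub : Q ⊆ T'.biUnion (fun t => Q.filter (fun w => G.Adj t w)) := by
        intro q hq
        by_contra h
        exact hne ⟨q, hq, h⟩
      have := Finset.card_le_card hsub
      omega
    obtain ⟨q, hqQ, hq⟩ := hex
    have hqn : ∀ t ∈ T', ¬ G.Adj t q := by
      intro t ht hadj
      exact hq (Finset.mem_biUnion.mpr ⟨t, ht, Finset.mem_filter.mpr ⟨hqQ, hadj⟩⟩)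
    have hqT : q ∉ T' := fun h => hT'Q q h hqQ
    have h1 := hk (insert q T') (Finset.insert_subset (hQ hqQ) hT'W) (by
      intro x hx y hy hxy
      rw [Finset.mem_insert] at hx hy
      rcases hx with rfl | hx
      · rcases hy with rfl | hy
        · exact G.loopless.irrefl _ hxy
        · exact hqn y hy hxy.symm
      · rcases hy with rfl | hy
        · exact hqn x hx hxy
        · exact hTi x (hT' hx) y (hT' hy) hxy)
    rw [Finset.card_insert_of_notMem hqT, hT'c] at h1
    omega
  · intro q hq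
    have h1 : Q.erase q ⊆ W.filter (fun w => G.Adj q w) := by
      intro x hx
      rw [Finset.mem_erase] at hx
      exact Finset.mem_filter.mpr ⟨hQ hx.2, hQc q hq x hx.2 hx.1.symm⟩
    have h2 := Finset.card_le_card h1
    rw [Finset.card_erase_of_mem hq, hQr] at h2
    exact h2

end Pool.Agent.Helper351.EG
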