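import Pool.Agent.Helper351.EG.L1
import Pool.Agent.Helper351.EG.L2
import Pool.Agent.Helper351.EG.L3
import Pool.Agent.Helper351.EG.L4a
import Pool.Agent.Helper351.EG.L4
import Pool.Agent.Helper351.EG.L5
import Pool.Agent.Helper351.EG.Kcase
import Pool.Agent.Helper351.EG.Final3
import Pool.Agent.Helper351.EG.Final24
import Pool.Agent.Helper351.EG.Colour
import Pool.Agent.Helper351.EG.Count

set_option autoImplicit false

namespace Pool.Agent.Helper351.EG

open Finset

theorem deg_mono {V : Type} [DecidableEq V] (G : SimpleGraph V) [DecidableRel G.Adj]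
    {W' W : Finset V} (h : W' ⊆ W) (v : V) : deg G W' v ≤ deg G W v :=
  card_le_card (filter_subset_filter _ h)

theorem P_mono {V : Type} [DecidableEq V] (G : SimpleGraph V) [DecidableRel G.Adj]
    {W' W : Finset V} (h : W' ⊆ W) {r : ℕ} (hP : P G W r) : P G W' r :=
  fun Q hQ hc hcl v hv hvQ => hP Q (hQ.trans h) hc hcl v (h hv) hvQ

theorem NoK_mono {V : Type} (G : SimpleGraph V)
    {W' W : Finset V} (h : W' ⊆ W) {r : ℕ} (hP : NoK G W r) : NoK G W' r :=
  fun Q hQ hc => hP Q (hQ.trans h) hc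

theorem exists_max_ind {V : Type} [DecidableEq V] (G : SimpleGraph V) (W : Finset V) :
    ∃ T ⊆ W, Ind G T ∧ IndLe G W T.card := by
  classical
  obtain ⟨T, hT, hmax⟩ := exists_max_image (W.powerset.filter (fun T => Ind G T)) Finset.card
    ⟨∅, mem_filter.mpr ⟨by simp, fun x hx => absurd hx (notMem_empty x)⟩⟩
  rw [mem_filter, mem_powerset] at hT
  refine ⟨T, hT.1, hT.2, fun S hS hSi => hmax S ?_⟩
  rw [mem_filter, mem_powerset]
  exact ⟨hS, hSi⟩

theorem noK_case {V : Type} [DecidableEq V] (G : SimpleGraph V) [DecidableRel G.Adj] (r : ℕ)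
    (hr : 2 ≤ r) (k : ℕ) (W : Finset V) (hc : W.card = r * k + 1) (hk : IndLe G W k)
    (hd : ∀ v ∈ W, deg G W v ≤ r) (hK : NoK G W r) : False := by
  obtain ⟨T, hT, hTi, hTm⟩ := exists_max_ind G W
  have h2 := L1 G r hr W T hT hTi hTm hK
  have h3 : ∑ t ∈ T, deg G W t ≤ T.card * r := by
    calc _ ≤ ∑ t ∈ T, r := sum_le_sum (fun t ht => hd t (hT ht))
      _ = _ := by simp
  have h4 := hk T hT hTi
  have h5 : T.card * r ≤ k * r := Nat.mul_le_mul_right _ h4
  rw [hc] at h2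
  nlinarith

theorem genk {V : Type} [DecidableEq V] (G : SimpleGraph V) [DecidableRel G.Adj] (r : ℕ)
    (hr : 2 ≤ r) (k : ℕ) : k < r → ∀ W : Finset V, W.card = r * k + 1 → IndLe G W k →
      (∀ v ∈ W, deg G W v ≤ r) → P G W r → False := by
  induction k with
  | zero =>
    intro _ W hc h0 _ _
    obtain ⟨v, hv⟩ : W.Nonempty := card_pos.mp (by omega)
    have := h0 {v} (by simpa using hv) (by
      intro x hx y hy
      rw [mem_singleton] at hx hy
      subst hx; subst hy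
      exact G.irrefl)
    simp at this
  | succ k ih =>
    intro hk W hc h1 hd hP
    by_cases hK : NoK G W r
    · exact noK_case G r hr (k + 1) W hc h1 hd hK
    · unfold NoK at hK
      push Not at hK
      obtain ⟨Q, hQ, hQc, hQcl⟩ := hK
      obtain ⟨h2, h3⟩ := L5 G r W Q k hk h1 hQ hQc hQcl (hP Q hQ hQc hQcl)
      refine ih (by omega) (W \ Q) ?_ h2 ?_ (P_mono G sdiff_subset hP)
      · rw [card_sdiff_of_subset hQ, hc, hQc, Nat.mul_succ]
        omega
      · intro v hv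
        exact (deg_mono G sdiff_subset v).trans (hd v (sdiff_subset hv))

theorem gen {V : Type} [DecidableEq V] (G : SimpleGraph V) [DecidableRel G.Adj] (r : ℕ)
    (hr : 3 ≤ r) (W : Finset V) (hc : W.card = r ^ 2 + 1) (hk : IndLe G W r)
    (hd : ∀ v ∈ W, deg G W v ≤ r) (hP : P G W r) : False := by
  by_cases hK : NoK G W r
  · exact noK_case G r (by omega) r W (by rw [hc, sq]) hk hd hK
  · unfold NoK at hK
    push Not at hK
    obtain ⟨Q, hQ, hQc, hQcl⟩ := hK
    have h1 := Kcase G r hr W Q hc hk hd hQ hQc hQcl hP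
    refine genk G r (by omega) (r - 1) (by omega) (W \ Q) ?_ h1 ?_ (P_mono G sdiff_subset hP)
    · rw [card_sdiff_of_subset hQ, hc, hQc]
      obtain ⟨m, rfl⟩ : ∃ m, r = m + 1 := ⟨r - 1, by omega⟩
      simp only [Nat.add_sub_cancel]
      have : (m + 1) ^ 2 + 1 = (m + 1) * m + 1 + (m + 1) := by ring
      omega
    · intro v hv
      exact (deg_mono G sdiff_subset v).trans (hd v (sdiff_subset hv))

/-- In the absence of a clique with `r` elements at least `r + 1` vertices have degree at least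
`r + 1`. -/
theorem high {V : Type} [DecidableEq V] (G : SimpleGraph V) [DecidableRel G.Adj] (r : ℕ)
    (hr : 3 ≤ r) (W : Finset V) (hc : W.card = r ^ 2 + 1) (hk : IndLe G W r)
    (hK : NoK G W r) : r + 1 ≤ (W.filter (fun v => r + 1 ≤ deg G W v)).card := by
  classical
  set L := W.filter (fun v => ¬ r + 1 ≤ deg G W v) with hL
  have hLW : L ⊆ W := filter_subset _ _
  have hsum : (W.filter (fun v => r + 1 ≤ deg G W v)).card + L.card = W.card :=
    card_filter_add_card_filter_not _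
  have hdL : ∀ v ∈ L, deg G W v ≤ r := fun v hv => by
    have := (mem_filter.mp hv).2
    omega
  have hind : IndLe G L (r - 1) := by
    intro T hT hTi
    by_contra hlt
    push Not at hlt
    have hTW := hT.trans hLW
    have h1 := hk T hTW hTi
    have hTr : T.card = r := by omega
    have h2 := L1 G r (by omega) W T hTW hTi (by rw [hTr]; exact hk) hK
    have h3 : ∑ t ∈ T, deg G W t ≤ T.card * r := by
      calc _ ≤ ∑ t ∈ T, r := sum_le_sum (fun t ht => hdL t (hT ht))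
        _ = _ := by simp
    rw [hc, hTr] at h2
    rw [hTr] at h3
    nlinarith
  obtain ⟨T, hT, hTi, hTm⟩ := exists_max_ind G L
  have h2 := L1 G r (by omega) L T hT hTi hTm (NoK_mono G hLW hK)
  have h3 : ∑ t ∈ T, deg G L t ≤ T.card * r := by
    calc _ ≤ ∑ t ∈ T, r := sum_le_sum (fun t ht => (deg_mono G hLW t).trans (hdL t (hT ht)))
      _ = _ := by simp
  have h4 := hind T hT hTi
  have h5 : T.card * r ≤ (r - 1) * r := Nat.mul_le_mul_right _ h4
  have h6 : 2 * L.card ≤ 2 * ((r - 1) * r) := by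
    have : r * T.card = T.card * r := mul_comm _ _
    omega
  have h7 : (r - 1) * r + r = r ^ 2 := by
    obtain ⟨m, rfl⟩ : ∃ m, r = m + 1 := ⟨r - 1, by omega⟩
    simp only [Nat.add_sub_cancel]
    ring
  omega

theorem level2 {V : Type} [DecidableEq V] (G : SimpleGraph V) [DecidableRel G.Adj]
    (W : Finset V) (hc : W.card = 11) (hk : IndLe G W 2) (hP : P G W 5) (hK6 : NoK G W 6)
    (h11 : ∀ M ⊆ W, M.card = 11 → e2 G M ≤ 62) : False := by
  refine final2 G W hc hk ?_ hK6 (h11 W subset_rfl hc)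
  intro Q hQ hQc hQcl
  exact (L5 G 5 W Q 1 (by omega) hk hQ hQc hQcl (hP Q hQ hQc hQcl)).1

/-- going down one level -/
theorem peelQ {V : Type} [DecidableEq V] (G : SimpleGraph V) [DecidableRel G.Adj]
    (W Q : Finset V) (k : ℕ) (hkr : k + 1 < 5) (hc : W.card = 5 * (k + 1) + 1)
    (hk : IndLe G W (k + 1)) (hQ : Q ⊆ W) (hQr : Q.card = 5) (hQc : Clq G Q)
    (hP : P G W 5) :
    ∃ W' ⊆ W, W'.card = 5 * k + 1 ∧ IndLe G W' k ∧ e2 G W' + 20 ≤ e2 G W := by
  obtain ⟨h1, h2⟩ := L5 G 5 W Q k hkr hk hQ hQr hQc (hP Q hQ hQr hQc)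
  refine ⟨W \ Q, sdiff_subset, ?_, h1, ?_⟩
  · rw [card_sdiff_of_subset hQ, hc, hQr]
    omega
  · have h3 := e2_remove G W Q hQ
    have h4 : 20 ≤ ∑ a ∈ Q, deg G W a := by
      calc 20 = ∑ a ∈ Q, 4 := by simp [hQr]
        _ ≤ _ := sum_le_sum h2
    omega

theorem peel {V : Type} [DecidableEq V] (G : SimpleGraph V) [DecidableRel G.Adj]
    (W : Finset V) (k : ℕ) (hc : W.card = 5 * (k + 1) + 1)
    (hk : IndLe G W (k + 1)) (v : V) (hv : v ∈ W) (hd : deg G W v ≤ 4) :
    ∃ W' ⊆ W, W'.card = 5 * k + 1 ∧ IndLe G W' k ∧ e2 G W' + 20 ≤ e2 G W :=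
  L4 G W k (fun S hS hS' => L4a G k (fun S' h1 h2 => L3 G k S' h1 h2) S hS hS') hc hk v hv hd

theorem level3 {V : Type} [DecidableEq V] (G : SimpleGraph V) [DecidableRel G.Adj]
    (W : Finset V) (hc : W.card = 16) (hk : IndLe G W 3) (he : e2 G W ≤ 90)
    (hP : P G W 5) (hK6 : NoK G W 6)
    (h11 : ∀ M ⊆ W, M.card = 11 → e2 G M ≤ 62) : False := by
  have down : (∃ W' ⊆ W, W'.card = 5 * 2 + 1 ∧ IndLe G W' 2 ∧ e2 G W' + 20 ≤ e2 G W) → False := by
    rintro ⟨W', hW', hc', hk', he'⟩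
    exact level2 G W' hc' hk' (P_mono G hW' hP) (NoK_mono G hW' hK6)
      (fun M hM => h11 M (hM.trans hW'))
  by_cases hK : NoK G W 5
  · by_cases hδ : ∀ v ∈ W, 5 ≤ deg G W v
    · refine final3 G W hc hk hK hδ he ?_ ?_
      · intro T hT hTi hTc
        have := L1 G 5 (by norm_num) W T hT hTi (by rw [hTc]; exact hk) hK
        omega
      · intro L hL hL2 v hv
        exact deg_ge_of_two G L hL2 (NoK_mono G hL hK) v hv
    · push Not at hδ
      obtain ⟨v, hv, hd⟩ := hδ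
      exact down (peel G W 2 hc hk v hv (by omega))
  · unfold NoK at hK
    push Not at hK
    obtain ⟨Q, hQ, hQc, hQcl⟩ := hK
    exact down (peelQ G W Q 2 (by norm_num) hc hk hQ hQc hQcl hP)

theorem level4 {V : Type} [DecidableEq V] (G : SimpleGraph V) [DecidableRel G.Adj]
    (W : Finset V) (hc : W.card = 21) (hk : IndLe G W 4) (he : e2 G W ≤ 110)
    (hP : P G W 5) (hK6 : NoK G W 6)
    (h11 : ∀ M ⊆ W, M.card = 11 → e2 G M ≤ 62) : False := by
  have down : (∃ W' ⊆ W, W'.card = 5 * 3 + 1 ∧ IndLe G W' 3 ∧ e2 G W' + 20 ≤ e2 G W) → False := by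
    rintro ⟨W', hW', hc', hk', he'⟩
    exact level3 G W' hc' hk' (by omega) (P_mono G hW' hP) (NoK_mono G hW' hK6)
      (fun M hM => h11 M (hM.trans hW'))
  by_cases hK : NoK G W 5
  · by_cases hδ : ∀ v ∈ W, 5 ≤ deg G W v
    · refine final4 G W hc hk hK hδ he ?_ ?_
      · intro T hT hTi hTc
        have := L1 G 5 (by norm_num) W T hT hTi (by rw [hTc]; exact hk) hK
        omega
      · intro L hL hd h3 hK5
        exact L2 G L hd h3 hK5
    · push Not at hδ
      obtain ⟨v, hv, hd⟩ := hδ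
      exact down (peel G W 3 hc hk v hv (by omega))
  · unfold NoK at hK
    push Not at hK
    obtain ⟨Q, hQ, hQc, hQcl⟩ := hK
    exact down (peelQ G W Q 3 (by norm_num) hc hk hQ hQc hQcl hP)

theorem level5 {V : Type} [DecidableEq V] (G : SimpleGraph V) [DecidableRel G.Adj]
    (W : Finset V) (hc : W.card = 26) (hk : IndLe G W 5) (he : e2 G W ≤ 130)
    (hP : P G W 5) (hK6 : NoK G W 6)
    (h11 : ∀ M ⊆ W, M.card = 11 → e2 G M ≤ 62) : False := by
  have down : (∃ W' ⊆ W, W'.card = 5 * 4 + 1 ∧ IndLe G W' 4 ∧ e2 G W' + 20 ≤ e2 G W) → False := by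
    rintro ⟨W', hW', hc', hk', he'⟩
    exact level4 G W' hc' hk' (by omega) (P_mono G hW' hP) (NoK_mono G hW' hK6)
      (fun M hM => h11 M (hM.trans hW'))
  by_cases hδ : ∀ v ∈ W, 5 ≤ deg G W v
  · refine gen G 5 (by norm_num) W hc hk ?_ hP
    intro v hv
    by_contra hlt
    push Not at hlt
    have h1 : ∑ w ∈ W, 5 < ∑ w ∈ W, deg G W w := sum_lt_sum hδ ⟨v, hv, hlt⟩
    rw [sum_const, hc] at h1
    unfold e2 at he
    simp at h1
    omega
  · push Not at hδ
    obtain ⟨v, hv, hd⟩ := hδ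
    exact down (peel G W 4 hc hk v hv (by omega))

theorem AllSee_of_not {n r : ℕ} (c : Fin n → Fin n → Fin r)
    (h : ¬ ∃ S : Finset (Fin n), S.card = r + 1 ∧
        ∃ k : Fin r, ∀ x ∈ S, ∀ y ∈ S, x ≠ y → c x y ≠ k) : AllSee c := by
  intro S hS k
  by_contra hno
  refine h ⟨S, hS, k, ?_⟩
  intro x hx y hy hxy he
  exact hno ⟨x, hx, y, hy, hxy, he⟩

theorem deg_colG {n r : ℕ} (c : Fin n → Fin n → Fin r) (hc : ∀ x y, c x y = c y x) (k : Fin r)
    (x : Fin n) : deg (colG c hc k) univ x = (univ.filter (fun y => x ≠ y ∧ c x y = k)).card := rfl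

/-- bounded degree in one colour -/
theorem bounded_colour (r : ℕ) (hr : 3 ≤ r) (c : Fin (r ^ 2 + 1) → Fin (r ^ 2 + 1) → Fin r)
    (hc : ∀ x y, c x y = c y x) (i : Fin r)
    (hi : ∀ x, (univ.filter (fun y => x ≠ y ∧ c x y = i)).card ≤ r) :
    ∃ S : Finset (Fin (r ^ 2 + 1)), S.card = r + 1 ∧
        ∃ k : Fin r, ∀ x ∈ S, ∀ y ∈ S, x ≠ y → c x y ≠ k := by
  by_contra h
  have hs := AllSee_of_not c h
  refine gen (colG c hc i) r hr univ (by simp) (C_ind c hc hs i univ) ?_ (C_P c hc hs i univ)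
  intro v _
  rw [deg_colG]
  exact hi v

theorem high_colour (r : ℕ) (hr : 3 ≤ r) (c : Fin (r ^ 2 + 1) → Fin (r ^ 2 + 1) → Fin r)
    (hc : ∀ x y, c x y = c y x) (i : Fin r)
    (hK : ∀ Q : Finset (Fin (r ^ 2 + 1)), Q.card = r → ∃ x ∈ Q, ∃ y ∈ Q, x ≠ y ∧ c x y ≠ i)
    (hi : (univ.filter (fun x => r < (univ.filter (fun y => x ≠ y ∧ c x y = i)).card)).card ≤ r) :
    ∃ S : Finset (Fin (r ^ 2 + 1)), S.card = r + 1 ∧
        ∃ k : Fin r, ∀ x ∈ S, ∀ y ∈ S, x ≠ y → c x y ≠ k := by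
  by_contra h
  have hs := AllSee_of_not c h
  have h1 := high (colG c hc i) r hr univ (by simp) (C_ind c hc hs i univ) (by
    intro T _ hT hcl
    obtain ⟨x, hx, y, hy, hxy, hne⟩ := hK T hT
    exact hne (hcl x hx y hy hxy).2)
  have h2 : (univ.filter (fun v => r + 1 ≤ deg (colG c hc i) univ v)).card ≤ r := hi
  omega

theorem five (c : Fin 26 → Fin 26 → Fin 5) (hc : ∀ x y, c x y = c y x) :
    ∃ S : Finset (Fin 26), S.card = 6 ∧
        ∃ k : Fin 5, ∀ x ∈ S, ∀ y ∈ S, x ≠ y → c x y ≠ k := by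
  by_contra h
  have hs := AllSee_of_not c h
  obtain ⟨k, hk⟩ := C_min c hc
  exact level5 (colG c hc k) univ (by simp) (C_ind c hc hs k univ) hk (C_P c hc hs k univ)
    (C_K (by norm_num) c hc hs k univ)
    (fun M _ hM => C_11 c hc (fun k W => C_ind c hc hs k W) k M hM)

end Pool.Agent.Helper351.EG
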