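import Pool.Agent.Helper351.EG.Main

set_option autoImplicit false

namespace Pool.Agent.Helper351.EG

open Finset

/-- non-neighbours -/
theorem deg_ge_of_two_g {V : Type} [DecidableEq V] (G : SimpleGraph V) [DecidableRel G.Adj]
    (r : ℕ) (hr : 1 ≤ r)
    (W : Finset V) (h2 : IndLe G W 2) (hK : NoK G W r) (v : V) (hv : v ∈ W) :
    W.card ≤ deg G W v + r := by
  have hs := L2_split G W v hv
  set M := W.filter (fun w => w ≠ v ∧ ¬ G.Adj v w) with hM
  have hMW : M ⊆ W := Finset.filter_subset _ _
  have hMc : Clq G M := by
    intro x hx y hy hxy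
    by_contra hn
    rw [hM, Finset.mem_filter] at hx hy
    have hT : ({v, x, y} : Finset V) ⊆ W := by
      intro z hz
      simp only [Finset.mem_insert, Finset.mem_singleton] at hz
      rcases hz with rfl | rfl | rfl
      · exact hv
      · exact hx.1
      · exact hy.1
    have hI : Ind G ({v, x, y} : Finset V) := by
      intro a ha b hb
      simp only [Finset.mem_insert, Finset.mem_singleton] at ha hb
      rcases ha with rfl | rfl | rfl <;> rcases hb with rfl | rfl | rfl
      · exact G.irrefl
      · exact hx.2.2
      · exact hy.2.2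
      · exact fun h => hx.2.2 h.symm
      · exact G.irrefl
      · exact hn
      · exact fun h => hy.2.2 h.symm
      · exact fun h => hn h.symm
      · exact G.irrefl
    have h3 := h2 _ hT hI
    rw [Finset.card_insert_of_notMem, Finset.card_insert_of_notMem, Finset.card_singleton] at h3
    · omega
    · simpa using hxy
    · simp only [Finset.mem_insert, Finset.mem_singleton, not_or]
      exact ⟨hx.2.1.symm, hy.2.1.symm⟩
  have hM4 : M.card ≤ r - 1 := by
    by_contra hcon
    obtain ⟨T, hTM, hTc⟩ := Finset.exists_subset_card_eq (show r ≤ M.card by omega)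
    exact hK T (hTM.trans hMW) hTc (fun x hx y hy hxy => hMc x (hTM hx) y (hTM hy) hxy)
  omega

/-- level two -/
theorem S2g {V : Type} [DecidableEq V] (G : SimpleGraph V) [DecidableRel G.Adj] (r : ℕ) (hr : 3 ≤ r)
    (W : Finset V) (hcard : W.card = 2 * r + 1) (h2 : IndLe G W 2)
    (hQ1 : ∀ Q ⊆ W, Q.card = r → Clq G Q → IndLe G (W \ Q) 1)
    (hK : NoK G W (r + 1)) (he : e2 G W ≤ 2 * r ^ 2 + 2 * r + 2) : False := by
  classical
  by_cases hK' : NoK G W r
  · have h1 : ∀ v ∈ W, r + 1 ≤ deg G W v := by
      intro v hv
      have := deg_ge_of_two_g G r (by omega) W h2 hK' v hv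
      omega
    have h3 : ∑ v ∈ W, (r + 1) ≤ e2 G W := Finset.sum_le_sum h1
    rw [Finset.sum_const, hcard, smul_eq_mul] at h3
    nlinarith
  · unfold NoK at hK'
    push Not at hK'
    obtain ⟨Q, hQ, hQc, hQq⟩ := hK'
    have h1 := hQ1 Q hQ hQc hQq
    refine hK (W \ Q) Finset.sdiff_subset ?_ ?_
    · have := Finset.card_sdiff_add_card_eq_card hQ
      omega
    · intro x hx y hy hxy
      by_contra hn
      have hsub : ({x, y} : Finset V) ⊆ W \ Q := by
        intro z hz
        simp only [Finset.mem_insert, Finset.mem_singleton] at hz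
        rcases hz with rfl | rfl
        · exact hx
        · exact hy
      have hI : Ind G ({x, y} : Finset V) := by
        intro a ha b hb
        simp only [Finset.mem_insert, Finset.mem_singleton] at ha hb
        rcases ha with rfl | rfl <;> rcases hb with rfl | rfl
        · exact G.irrefl
        · exact hn
        · exact fun h => hn h.symm
        · exact G.irrefl
      have h3 := h1 _ hsub hI
      rw [Finset.card_pair hxy] at h3
      omega

end Pool.Agent.Helper351.EG
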