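import Pool.Agent.Helper351.EG.Main
import Pool.Agent.Helper351.EG.ClaimC
import Pool.Agent.Helper351.EG.Andr
import Pool.Agent.Helper351.EG.L4g
import Pool.Agent.Helper351.EG.L4ag
import Pool.Agent.Helper351.EG.L3g
import Pool.Agent.Helper351.EG.S2g
import Pool.Agent.Helper351.EG.Count6

set_option autoImplicit false

namespace Pool.Agent.Helper351.EG

open Finset

/-- going down one level, general `r` -/
theorem peelQg {V : Type} [DecidableEq V] (G : SimpleGraph V) [DecidableRel G.Adj] (r : ℕ)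
    (W Q : Finset V) (k : ℕ) (hkr : k + 1 < r) (hc : W.card = r * (k + 1) + 1)
    (hk : IndLe G W (k + 1)) (hQ : Q ⊆ W) (hQr : Q.card = r) (hQc : Clq G Q)
    (hP : P G W r) :
    ∃ W' ⊆ W, W'.card = r * k + 1 ∧ IndLe G W' k ∧ e2 G W' + r * (r - 1) ≤ e2 G W := by
  obtain ⟨h1, h2⟩ := L5 G r W Q k hkr hk hQ hQr hQc (hP Q hQ hQr hQc)
  refine ⟨W \ Q, sdiff_subset, ?_, h1, ?_⟩
  · rw [card_sdiff_of_subset hQ, hc, hQr, Nat.mul_succ]
    omega
  · have h3 := e2_remove G W Q hQ
    have h4 : r * (r - 1) ≤ ∑ a ∈ Q, deg G W a := by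
      calc r * (r - 1) = ∑ a ∈ Q, (r - 1) := by simp [hQr]
        _ ≤ _ := sum_le_sum h2
    omega

theorem peelVg {V : Type} [DecidableEq V] (G : SimpleGraph V) [DecidableRel G.Adj] (r : ℕ)
    (hr : 1 ≤ r) (W : Finset V) (k : ℕ) (hc : W.card = r * (k + 1) + 1)
    (hk : IndLe G W (k + 1)) (v : V) (hv : v ∈ W) (hd : deg G W v ≤ r - 1) :
    ∃ W' ⊆ W, W'.card = r * k + 1 ∧ IndLe G W' k ∧ e2 G W' + r * (r - 1) ≤ e2 G W :=
  L4g G r hr W k
    (fun S hS hS' => L4ag G r hr k (fun S' h1 h2 => L3g G r hr k S' h1 h2) S hS hS') hc hk v hv hd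

/-- At each level either we can go down, or there is no clique with `r` elements and all degrees
are at least `r`. -/
theorem stepg {V : Type} [DecidableEq V] (G : SimpleGraph V) [DecidableRel G.Adj] (r : ℕ)
    (hr : 1 ≤ r) (W : Finset V) (k : ℕ) (hkr : k + 1 < r) (hc : W.card = r * (k + 1) + 1)
    (hk : IndLe G W (k + 1)) (hP : P G W r) :
    (NoK G W r ∧ ∀ v ∈ W, r ≤ deg G W v) ∨
    ∃ W' ⊆ W, W'.card = r * k + 1 ∧ IndLe G W' k ∧ e2 G W' + r * (r - 1) ≤ e2 G W := by
  by_cases hK : NoK G W r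
  · by_cases hδ : ∀ v ∈ W, r ≤ deg G W v
    · exact Or.inl ⟨hK, hδ⟩
    · push Not at hδ
      obtain ⟨v, hv, hd⟩ := hδ
      exact Or.inr (peelVg G r hr W k hc hk v hv (by omega))
  · unfold NoK at hK
    push Not at hK
    obtain ⟨Q, hQ, hQc, hQcl⟩ := hK
    exact Or.inr (peelQg G r W Q k hkr hc hk hQ hQc hQcl hP)

/-- level two is impossible for every `r ≥ 3` -/
theorem level2g {V : Type} [DecidableEq V] (G : SimpleGraph V) [DecidableRel G.Adj] (r : ℕ)
    (hr : 3 ≤ r) (W : Finset V) (hc : W.card = 2 * r + 1) (hk : IndLe G W 2) (hP : P G W r)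
    (hK : NoK G W (r + 1))
    (hC : ∀ M ⊆ W, e2 G M + 2 * (r - 1) * (M.card - r) ≤ M.card * (M.card - 1)) : False := by
  refine S2g G r hr W hc hk ?_ hK ?_
  · intro Q hQ hQc hQcl
    exact (L5 G r W Q 1 (by omega) hk hQ hQc hQcl (hP Q hQ hQc hQcl)).1
  · have h := hC W subset_rfl
    rw [hc] at h
    obtain ⟨m, rfl⟩ : ∃ m, r = m + 1 := ⟨r - 1, by omega⟩
    have e1 : 2 * (m + 1) + 1 - (m + 1) = m + 2 := by omega
    have e2' : 2 * (m + 1) + 1 - 1 = 2 * (m + 1) := by omega
    rw [e1, e2', Nat.add_sub_cancel] at h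
    nlinarith

/-- the properties of a colour class of a balanced colouring that we use -/
structure Good {V : Type} [DecidableEq V] (G : SimpleGraph V) [DecidableRel G.Adj] (r : ℕ) :
    Prop where
  hP : ∀ W : Finset V, P G W r
  hK : ∀ W : Finset V, NoK G W (r + 1)
  hC : ∀ M : Finset V, e2 G M + 2 * (r - 1) * (M.card - r) ≤ M.card * (M.card - 1)

theorem level3_six {V : Type} [DecidableEq V] (G : SimpleGraph V) [DecidableRel G.Adj]
    (hG : Good G 6) (W : Finset V) (hc : W.card = 6 * 3 + 1) (hk : IndLe G W 3)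
    (he : e2 G W ≤ 132) : False := by
  rcases stepg G 6 (by norm_num) W 2 (by norm_num) hc hk (hG.hP W) with ⟨hK, hδ⟩ | h
  · have hex : ∃ v ∈ W, deg G W v ≤ 6 := by
      by_contra hno
      push Not at hno
      have h1 : ∑ w ∈ W, 7 ≤ ∑ w ∈ W, deg G W w := sum_le_sum (fun w hw => hno w hw)
      rw [sum_const, hc] at h1
      unfold e2 at he
      simp at h1
      omega
    obtain ⟨v, hv, hdv⟩ := hex
    have hd6 : deg G W v = 6 := le_antisymm hdv (hδ v hv)
    set M := W.filter (fun w => w ≠ v ∧ ¬ G.Adj v w) with hM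
    have hMW : M ⊆ W := filter_subset _ _
    have hM2 : IndLe G M 2 := indLe_remove_nbhd G W 2 hk v hv
    have hMc : M.card = 2 * 6 := by
      have h1 : W.card = (W.filter (fun w => G.Adj v w)).card +
          (W.filter (fun w => ¬ G.Adj v w)).card := (card_filter_add_card_filter_not _).symm
      have h2 : W.filter (fun w => ¬ G.Adj v w) = insert v M := by
        ext w
        simp only [hM, mem_filter, mem_insert]
        constructor
        · rintro ⟨hw, hna⟩
          by_cases hwv : w = v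
          · exact Or.inl hwv
          · exact Or.inr ⟨hw, hwv, hna⟩
        · rintro (rfl | ⟨hw, _, hna⟩)
          · exact ⟨hv, G.irrefl⟩
          · exact ⟨hw, hna⟩
      have h3 : v ∉ M := by simp [hM]
      rw [h2, card_insert_of_notMem h3] at h1
      have h4 : (W.filter (fun w => G.Adj v w)).card = 6 := hd6
      omega
    have hKM : NoK G M 6 := NoK_mono G hMW hK
    refine andrasfai G 6 (by norm_num) M hMc hM2 hKM ?_ ?_
    · have h := hG.hC M
      rw [hMc] at h
      norm_num at h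
      norm_num
      omega
    · intro u hu
      exact deg_ge_of_two_g G 6 (by norm_num) M hM2 hKM u hu
  · obtain ⟨W', hW', hc', hk', he'⟩ := h
    exact level2g G 6 (by norm_num) W' hc' hk' (hG.hP W') (hG.hK W') (fun M _ => hG.hC M)

theorem level4_six {V : Type} [DecidableEq V] (G : SimpleGraph V) [DecidableRel G.Adj]
    (hG : Good G 6) (W : Finset V) (hc : W.card = 6 * 4 + 1) (hk : IndLe G W 4)
    (he : e2 G W ≤ 162) : False := by
  rcases stepg G 6 (by norm_num) W 3 (by norm_num) hc hk (hG.hP W) with ⟨hK, hδ⟩ | h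
  · have := claimC G 6 (by norm_num) 4 (by norm_num) W hc hk hK hδ
    rw [hc] at this
    omega
  · obtain ⟨W', hW', hc', hk', he'⟩ := h
    exact level3_six G hG W' hc' hk' (by omega)

theorem level5_six {V : Type} [DecidableEq V] (G : SimpleGraph V) [DecidableRel G.Adj]
    (hG : Good G 6) (W : Finset V) (hc : W.card = 6 * 5 + 1) (hk : IndLe G W 5)
    (he : e2 G W ≤ 192) : False := by
  rcases stepg G 6 (by norm_num) W 4 (by norm_num) hc hk (hG.hP W) with ⟨hK, hδ⟩ | h
  · have := claimC G 6 (by norm_num) 5 (by norm_num) W hc hk hK hδ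
    rw [hc] at this
    omega
  · obtain ⟨W', hW', hc', hk', he'⟩ := h
    exact level4_six G hG W' hc' hk' (by omega)

/-- the top level, general `r`: either all degrees are `r`, impossible, or we go down -/
theorem topg {V : Type} [DecidableEq V] (G : SimpleGraph V) [DecidableRel G.Adj] (r : ℕ)
    (hr : 3 ≤ r) (hG : Good G r) (W : Finset V) (hc : W.card = r ^ 2 + 1) (hk : IndLe G W r)
    (he : e2 G W ≤ r * (r ^ 2 + 1)) :
    ∃ W' ⊆ W, W'.card = r * (r - 1) + 1 ∧ IndLe G W' (r - 1) ∧ e2 G W' + r * (r - 1) ≤ e2 G W := by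
  by_cases hδ : ∀ v ∈ W, r ≤ deg G W v
  · exfalso
    refine gen G r hr W hc hk ?_ (hG.hP W)
    intro v hv
    by_contra hlt
    push Not at hlt
    have h1 : ∑ w ∈ W, r < ∑ w ∈ W, deg G W w := sum_lt_sum hδ ⟨v, hv, hlt⟩
    rw [sum_const, hc, smul_eq_mul, mul_comm] at h1
    unfold e2 at he
    omega
  · push Not at hδ
    obtain ⟨v, hv, hd⟩ := hδ
    obtain ⟨m, rfl⟩ : ∃ m, r = m + 1 := ⟨r - 1, by omega⟩
    exact peelVg G (m + 1) (by omega) W m (by rw [hc, sq]) hk v hv (by omega)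

theorem good_colG {V : Type} [DecidableEq V] {r : ℕ} (hr : 3 ≤ r) (c : V → V → Fin r)
    (hc : ∀ x y, c x y = c y x) (hs : AllSee c) (k : Fin r) : Good (colG c hc k) r where
  hP := fun W => C_P c hc hs k W
  hK := fun W => C_K (by omega) c hc hs k W
  hC := fun M => C_gen (by omega) c hc (fun k W => C_ind c hc hs k W) k M

theorem six (c : Fin (6 ^ 2 + 1) → Fin (6 ^ 2 + 1) → Fin 6) (hc : ∀ x y, c x y = c y x) :
    ∃ S : Finset (Fin (6 ^ 2 + 1)), S.card = 6 + 1 ∧
        ∃ k : Fin 6, ∀ x ∈ S, ∀ y ∈ S, x ≠ y → c x y ≠ k := by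
  by_contra h
  have hs := AllSee_of_not c h
  obtain ⟨k, hk⟩ := C_min_gen 6 (by norm_num) c hc
  have hG := good_colG (by norm_num) c hc hs k
  obtain ⟨W', hW', hc', hk', he'⟩ := topg (colG c hc k) 6 (by norm_num) hG univ (by simp)
    (C_ind c hc hs k univ) hk
  exact level5_six (colG c hc k) hG W' hc' hk' (by omega)

end Pool.Agent.Helper351.EG
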