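import Pool.Agent.Helper351.EG.Main

set_option autoImplicit false

namespace Pool.Agent.Helper351.EG

open Finset

theorem nb357_main {V : Type} [DecidableEq V] (G : SimpleGraph V) [DecidableRel G.Adj] (s : ℕ)
    (M : Finset V) (hM : M.card = 2 * s + 5) (h2 : IndLe G M 2) (hK : NoK G M (s + 3)) :
    2 * (s + 3) ^ 2 ≤ e2 G M + 2 * (s + 3) + 2 := by
  classical
  obtain ⟨h, hh⟩ : ∃ h : V → V → ℕ, ∀ u v, h u v = if u ≠ v ∧ ¬ G.Adj u v then 1 else 0 :=
    ⟨_, fun _ _ => rfl⟩
  have hsymm : ∀ u v, h u v = h v u := by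
    intro u v
    rw [hh, hh]
    refine if_congr ?_ rfl rfl
    rw [ne_comm, G.adj_comm]
  have hle : ∀ u v, h u v ≤ 1 := by
    intro u v
    rw [hh]
    split_ifs <;> omega
  have hself : ∀ u, h u u = 0 := by
    intro u
    rw [hh, if_neg]
    simp
  have h1 : ∀ u v, h u v ≠ 0 → u ≠ v ∧ ¬ G.Adj u v := by
    intro u v h0
    rw [hh] at h0
    by_contra hc
    rw [if_neg hc] at h0
    exact h0 rfl
  have hpos : ∀ u v, u ≠ v → ¬ G.Adj u v → h u v = 1 := by
    intro u v e1 e2
    rw [hh, if_pos ⟨e1, e2⟩]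
  -- triangle free
  have htri : ∀ u ∈ M, ∀ v ∈ M, ∀ w ∈ M, h u v ≠ 0 → h u w ≠ 0 → h v w ≠ 0 → False := by
    intro u hu v hv w hw huv huw hvw
    obtain ⟨a1, a2⟩ := h1 _ _ huv
    obtain ⟨b1, b2⟩ := h1 _ _ huw
    obtain ⟨c1, c2⟩ := h1 _ _ hvw
    have a3 : ¬ G.Adj v u := fun e => a2 e.symm
    have b3 : ¬ G.Adj w u := fun e => b2 e.symm
    have c3 : ¬ G.Adj w v := fun e => c2 e.symm
    have l1 : ¬ G.Adj u u := G.loopless.irrefl u
    have l2 : ¬ G.Adj v v := G.loopless.irrefl v
    have l3 : ¬ G.Adj w w := G.loopless.irrefl w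
    have h4 := h2 {u, v, w} (by
      intro z hz
      simp only [mem_insert, mem_singleton] at hz
      rcases hz with rfl | rfl | rfl
      · exact hu
      · exact hv
      · exact hw) (by
      intro x hx y hy
      simp only [mem_insert, mem_singleton] at hx hy
      rcases hx with rfl | rfl | rfl <;> rcases hy with rfl | rfl | rfl <;> assumption)
    rw [card_eq_three.mpr ⟨u, v, w, a1, b1, c1, rfl⟩] at h4
    omega
  have hF2 : ∀ v ∈ M, deg G M v + ∑ w ∈ M, h v w + 1 = M.card := by
    intro v hv
    have e1 : ∀ w ∈ M, (if G.Adj v w then 1 else 0) + h v w + (if w = v then 1 else 0) = 1 := by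
      intro w _
      by_cases hwv : w = v
      · subst hwv
        rw [hself]
        simp
      · by_cases had : G.Adj v w
        · rw [hh]
          simp [had, hwv]
        · rw [hpos v w (Ne.symm hwv) had]
          simp [had, hwv]
    have e3 : ∑ w ∈ M, ((if G.Adj v w then 1 else 0) + h v w + (if w = v then 1 else 0)) =
        M.card := by
      rw [Finset.sum_congr rfl e1]
      simp
    rw [Finset.sum_add_distrib, Finset.sum_add_distrib, ← Finset.card_filter,
      Finset.sum_ite_eq' M v, if_pos hv] at e3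
    exact e3
  have hcard : ∀ v, ∑ w ∈ M, h v w = (M.filter (fun w => v ≠ w ∧ ¬ G.Adj v w)).card := by
    intro v
    rw [Finset.card_filter]
    exact Finset.sum_congr rfl fun w _ => hh v w
  have hF4 : ∀ v ∈ M, ∑ w ∈ M, h v w ≤ s + 2 := by
    intro v hv
    rw [hcard]
    by_contra hlt
    push Not at hlt
    obtain ⟨T, hT, hTc⟩ := Finset.exists_subset_card_eq (Nat.succ_le_of_lt hlt)
    refine hK T (hT.trans (filter_subset _ _)) hTc ?_
    intro x hx y hy hxy
    by_contra hn
    have hx' := mem_filter.mp (hT hx)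
    have hy' := mem_filter.mp (hT hy)
    refine htri v hv x hx'.1 y hy'.1 ?_ ?_ ?_
    · rw [hpos _ _ hx'.2.1 hx'.2.2]
      exact one_ne_zero
    · rw [hpos _ _ hy'.2.1 hy'.2.2]
      exact one_ne_zero
    · rw [hpos _ _ hxy hn]
      exact one_ne_zero
  have hE : e2 G M + ∑ v ∈ M, ∑ w ∈ M, h v w + M.card = M.card * M.card := by
    unfold e2
    have h5 := Finset.sum_congr (rfl : M = M) hF2
    rw [Finset.sum_add_distrib, Finset.sum_add_distrib] at h5
    simpa using h5
  have hmain : ∑ v ∈ M, ∑ w ∈ M, h v w ≤ 2 * ((s + 2) * (s + 2)) + 2 := by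
    by_cases hA : ∀ v ∈ M, ∑ w ∈ M, h v w ≤ s + 1
    · have h5 : ∑ v ∈ M, ∑ w ∈ M, h v w ≤ M.card * (s + 1) := by
        rw [← smul_eq_mul]
        exact Finset.sum_le_card_nsmul _ _ _ hA
      rw [hM] at h5
      nlinarith
    · push Not at hA
      obtain ⟨y, hy, hylt⟩ := hA
      have hyc : ∑ w ∈ M, h y w = s + 2 := le_antisymm (hF4 y hy) hylt
      obtain ⟨N, hN⟩ : ∃ N : Finset V, N = M.filter (fun w => y ≠ w ∧ ¬ G.Adj y w) := ⟨_, rfl⟩
      obtain ⟨R, hR⟩ : ∃ R : Finset V, R = M.filter (fun w => G.Adj y w) := ⟨_, rfl⟩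
      have hNc : N.card = s + 2 := by rw [hN, ← hcard, hyc]
      have hRc : R.card = s + 2 := by
        have h6 := hF2 y hy
        unfold deg at h6
        rw [← hR, hyc, hM] at h6
        omega
      have hsplit : ∀ φ : V → ℕ, ∑ w ∈ M, φ w = φ y + ∑ w ∈ N, φ w + ∑ w ∈ R, φ w := by
        intro φ
        rw [← Finset.sum_filter_add_sum_filter_not M (fun w => G.Adj y w)]
        have h7 : M.filter (fun w => ¬ G.Adj y w) = insert y N := by
          ext w
          simp only [hN, mem_filter, mem_insert]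
          constructor
          · rintro ⟨a, b⟩
            by_cases e : w = y
            · exact Or.inl e
            · exact Or.inr ⟨a, Ne.symm e, b⟩
          · rintro (rfl | ⟨a, _, b⟩)
            · exact ⟨hy, G.loopless.irrefl _⟩
            · exact ⟨a, b⟩
        rw [h7, Finset.sum_insert (by simp [hN]), ← hR]
        ring
      have hNm : ∀ x ∈ N, x ∈ M ∧ h y x = 1 := by
        intro x hx
        rw [hN, mem_filter] at hx
        exact ⟨hx.1, hpos _ _ hx.2.1 hx.2.2⟩
      have hRm : ∀ x ∈ R, x ∈ M ∧ h y x = 0 := by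
        intro x hx
        rw [hR, mem_filter] at hx
        refine ⟨hx.1, ?_⟩
        rw [hh, if_neg]
        tauto
      have hNN : ∀ x ∈ N, ∀ x' ∈ N, h x x' = 0 := by
        intro x hx x' hx'
        by_contra h0
        refine htri y hy x (hNm x hx).1 x' (hNm x' hx').1 ?_ ?_ h0
        · rw [(hNm x hx).2]
          exact one_ne_zero
        · rw [(hNm x' hx').2]
          exact one_ne_zero
      -- the edge
      obtain ⟨a, b, ha, hb, hab⟩ : ∃ a b, a ∈ R ∧ b ∈ R ∧ h a b ≠ 0 := by
        by_contra hcon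
        push Not at hcon
        have hyR : y ∉ R := by
          rw [hR, mem_filter]
          exact fun e => G.loopless.irrefl _ e.2
        refine hK (insert y R) ?_ ?_ ?_
        · intro z hz
          rcases mem_insert.mp hz with rfl | hz
          · exact hy
          · exact (hRm z hz).1
        · rw [card_insert_of_notMem hyR, hRc]
        · intro x hx z hz hxz
          have hadj : ∀ w ∈ R, G.Adj y w := by
            intro w hw
            rw [hR, mem_filter] at hw
            exact hw.2
          rcases mem_insert.mp hx with e | hx <;> rcases mem_insert.mp hz with e' | hz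
          · exact absurd (e.trans e'.symm) hxz
          · rw [e]
            exact hadj z hz
          · rw [e']
            exact (hadj x hx).symm
          · by_contra hn
            have h8 := hcon x z hx hz
            rw [hpos x z hxz hn] at h8
            exact one_ne_zero h8
      have hab1 : h a b = 1 := by
        have := hle a b
        omega
      have hne : a ≠ b := (h1 a b hab).1
      obtain ⟨R2, hR2⟩ : ∃ R2 : Finset V, R2 = (R.erase a).erase b := ⟨_, rfl⟩
      have hb' : b ∈ R.erase a := mem_erase.mpr ⟨hne.symm, hb⟩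
      have hR2c : R2.card = s := by
        rw [hR2, card_erase_of_mem hb', card_erase_of_mem ha, hRc]
        omega
      have hRs : ∀ φ : V → ℕ, ∑ w ∈ R, φ w = φ a + (φ b + ∑ w ∈ R2, φ w) := by
        intro φ
        rw [← Finset.add_sum_erase R φ ha, ← Finset.add_sum_erase (R.erase a) φ hb', hR2]
      have hR2m : ∀ c ∈ R2, c ∈ R := by
        intro c hc
        rw [hR2] at hc
        exact mem_of_mem_erase (mem_of_mem_erase hc)
      obtain ⟨n, hn⟩ : ∃ n : V → ℕ, ∀ c, n c = ∑ w ∈ N, h c w := ⟨_, fun _ => rfl⟩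
      obtain ⟨d, hd⟩ : ∃ d : V → ℕ, ∀ c, d c = ∑ w ∈ R, h c w := ⟨_, fun _ => rfl⟩
      have hndN : ∀ x ∈ N, ∑ w ∈ M, h x w = 1 + ∑ w ∈ R, h x w := by
        intro x hx
        rw [hsplit (fun w => h x w), hsymm x y, (hNm x hx).2, Finset.sum_eq_zero (hNN x hx), add_zero]
      have hndR : ∀ c ∈ R, ∑ w ∈ M, h c w = n c + d c := by
        intro c hc
        rw [hsplit (fun w => h c w), hsymm c y, (hRm c hc).2, zero_add, hn, hd]
      have hswap : ∑ x ∈ N, ∑ w ∈ R, h x w = ∑ c ∈ R, n c := by
        rw [Finset.sum_comm]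
        refine Finset.sum_congr rfl fun c _ => ?_
        rw [hn]
        exact Finset.sum_congr rfl fun x _ => hsymm x c
      have htot : ∑ v ∈ M, ∑ w ∈ M, h v w =
          (s + 2) + ((s + 2) + ∑ c ∈ R, n c) + (∑ c ∈ R, n c + ∑ c ∈ R, d c) := by
        rw [hsplit (fun v => ∑ w ∈ M, h v w), hyc, Finset.sum_congr rfl hndN,
          Finset.sum_congr rfl hndR, Finset.sum_add_distrib, Finset.sum_add_distrib, hswap]
        simp [hNc]
      have hnd : ∀ c ∈ R, n c + d c ≤ s + 2 := by
        intro c hc
        rw [← hndR c hc]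
        exact hF4 c (hRm c hc).1
      have hsd : ∑ c ∈ R2, n c + ∑ c ∈ R2, d c ≤ s * (s + 2) := by
        rw [← Finset.sum_add_distrib]
        have h9 := Finset.sum_le_card_nsmul R2 (fun c => n c + d c) (s + 2)
          (fun c hc => hnd c (hR2m c hc))
        rw [hR2c, smul_eq_mul] at h9
        exact h9
      have hnab : n a + n b ≤ s + 2 := by
        rw [hn, hn, ← Finset.sum_add_distrib]
        have h9 := Finset.sum_le_card_nsmul N (fun w => h a w + h b w) 1 (by
          intro w hw
          have e1 := hle a w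
          have e2 := hle b w
          by_contra hcon
          have e3 : h a w ≠ 0 := by
            simp only [not_le] at hcon
            omega
          have e4 : h b w ≠ 0 := by
            simp only [not_le] at hcon
            omega
          exact htri a (hRm a ha).1 b (hRm b hb).1 w (hNm w hw).1 hab e3 e4)
        rw [hNc, smul_eq_mul, mul_one] at h9
        exact h9
      have hda : d a = 1 + ∑ c ∈ R2, h c a := by
        rw [hd, hRs (fun w => h a w), hself, hab1, zero_add]
        congr 1
        exact Finset.sum_congr rfl fun c _ => hsymm a c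
      have hdb : d b = 1 + ∑ c ∈ R2, h c b := by
        rw [hd, hRs (fun w => h b w), hself, zero_add, hsymm b a, hab1]
        congr 1
        exact Finset.sum_congr rfl fun c _ => hsymm b c
      have hD2 : ∑ c ∈ R2, h c a + ∑ c ∈ R2, h c b ≤ ∑ c ∈ R2, d c := by
        rw [← Finset.sum_add_distrib]
        refine Finset.sum_le_sum fun c hc => ?_
        rw [hd, hRs (fun w => h c w)]
        omega
      rw [htot, hRs n, hRs d]
      have h10 : (s + 2) * (s + 2) = s * (s + 2) + 2 * (s + 2) := by ring
      rw [h10]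
      generalize s * (s + 2) = q at *
      omega
  rw [hM] at hE
  have h11 : (2 * s + 5) * (2 * s + 5) = 4 * (s * s) + 20 * s + 25 := by ring
  have h12 : 2 * (s + 3) ^ 2 = 2 * (s * s) + 12 * s + 18 := by ring
  have h13 : 2 * ((s + 2) * (s + 2)) + 2 = 2 * (s * s) + 8 * s + 10 := by ring
  rw [h11] at hE
  rw [h12]
  rw [h13] at hmain
  generalize s * s = q at *
  omega

/-- `2 r - 1` vertices, independence number at most two, no `K_r`: many edges. -/
theorem nonbip {V : Type} [DecidableEq V] (G : SimpleGraph V) [DecidableRel G.Adj] (r : ℕ)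
    (hr : 3 ≤ r) (M : Finset V) (hM : M.card + 1 = 2 * r) (h2 : IndLe G M 2) (hK : NoK G M r) :
    2 * r ^ 2 ≤ e2 G M + 2 * r + 2 := by
  obtain ⟨s, rfl⟩ : ∃ s, r = s + 3 := ⟨r - 3, by omega⟩
  exact nb357_main G s M (by omega) h2 hK

end Pool.Agent.Helper351.EG
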