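import Pool.Agent.Helper351.EG.Main

set_option autoImplicit false

namespace Pool.Agent.Helper351.EG

open Finset

theorem e2_split {V : Type} [DecidableEq V] (G : SimpleGraph V) [DecidableRel G.Adj]
    (W N : Finset V) (hN : N ⊆ W) :
    e2 G W + e2 G N = e2 G (W \ N) + 2 * ∑ x ∈ N, deg G W x := by
  have h1 : ∀ x, deg G W x = deg G N x + deg G (W \ N) x := by
    intro x
    unfold deg
    rw [← card_union_of_disjoint, ← filter_union, union_sdiff_of_subset hN]
    exact disjoint_filter_filter disjoint_sdiff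
  have h2 : ∀ f : V → ℕ, ∑ x ∈ W, f x = ∑ x ∈ W \ N, f x + ∑ x ∈ N, f x :=
    fun f => (sum_sdiff hN).symm
  have h3 : ∑ x ∈ W \ N, deg G N x = ∑ x ∈ N, deg G (W \ N) x := by
    unfold deg
    simp_rw [card_filter]
    rw [sum_comm]
    refine sum_congr rfl fun x _ => sum_congr rfl fun y _ => ?_
    simp [G.adj_comm]
  have h4 : ∑ x ∈ W \ N, deg G W x = ∑ x ∈ W \ N, deg G N x + ∑ x ∈ W \ N, deg G (W \ N) x := by
    rw [← sum_add_distrib]
    exact sum_congr rfl fun x _ => h1 x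
  have h5 : ∑ x ∈ N, deg G W x = ∑ x ∈ N, deg G N x + ∑ x ∈ N, deg G (W \ N) x := by
    rw [← sum_add_distrib]
    exact sum_congr rfl fun x _ => h1 x
  have h6 : e2 G W = ∑ x ∈ W \ N, deg G W x + ∑ x ∈ N, deg G W x := h2 _
  have h7 : e2 G N = ∑ x ∈ N, deg G N x := rfl
  have h8 : e2 G (W \ N) = ∑ x ∈ W \ N, deg G (W \ N) x := rfl
  omega

end Pool.Agent.Helper351.EG
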