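import Pool.Agent.Helper351.EG.Main

set_option autoImplicit false

namespace Pool.Agent.Helper351.EG

open Finset

theorem turan_j_aux (j d : ℕ) : 2 * j * (d + 1) ≤ d * (d + 1) + j * (j + 1) := by
  zify
  have h : (0:ℤ) ≤ ((d:ℤ) - j) * ((d:ℤ) - j + 1) := by
    rcases le_or_gt (j:ℤ) d with h | h
    · exact mul_nonneg (by linarith) (by linarith)
    · exact mul_nonneg_of_nonpos_of_nonpos (by linarith) (by linarith)
  nlinarith [h]

/-- tangent form of Turan's theorem -/
theorem turan_j {V : Type} [DecidableEq V] (G : SimpleGraph V) [DecidableRel G.Adj]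
    (W : Finset V) (k j : ℕ) (hk : IndLe G W k) :
    2 * j * W.card ≤ e2 G W + j * (j + 1) * k := by
  induction k generalizing W with
  | zero =>
    have hW : W = ∅ := by
      by_contra hne
      obtain ⟨v, hv⟩ := Finset.nonempty_iff_ne_empty.mpr hne
      have := hk {v} (Finset.singleton_subset_iff.mpr hv) (by
        intro x hx y hy
        rw [Finset.mem_singleton] at hx hy
        rw [hx, hy]
        exact G.irrefl)
      simp at this
    rw [hW]
    simp
  | succ k ih =>
    rcases W.eq_empty_or_nonempty with hW | ⟨v, hv⟩
    · rw [hW]; simp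
    obtain ⟨v0, hv0, hmin⟩ := W.exists_min_image (deg G W) ⟨v, hv⟩
    obtain ⟨d, hdd⟩ : ∃ d, d = deg G W v0 := ⟨_, rfl⟩
    obtain ⟨A, hA⟩ : ∃ A, A = insert v0 (W.filter (fun w => G.Adj v0 w)) := ⟨_, rfl⟩
    have hAW : A ⊆ W := by
      rw [hA]
      exact Finset.insert_subset hv0 (Finset.filter_subset _ _)
    have hAc : A.card = d + 1 := by
      rw [hA, Finset.card_insert_of_notMem, hdd]
      · rfl
      · intro h
        exact G.irrefl (Finset.mem_filter.mp h).2
    have hv0A : v0 ∈ A := by rw [hA]; exact Finset.mem_insert_self _ _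
    have hSI : IndLe G (W \ A) k := by
      intro T hT hTI
      have hnA : ∀ t ∈ T, ¬ G.Adj v0 t := by
        intro t ht hadj
        have h1 := hT ht
        rw [Finset.mem_sdiff] at h1
        apply h1.2
        rw [hA]
        exact Finset.mem_insert_of_mem (Finset.mem_filter.mpr ⟨h1.1, hadj⟩)
      have hv0T : v0 ∉ T := by
        intro h
        exact (Finset.mem_sdiff.mp (hT h)).2 hv0A
      have h2 := hk (insert v0 T) (by
        apply Finset.insert_subset hv0
        exact hT.trans Finset.sdiff_subset) (by
        intro x hx y hy hxy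
        rw [Finset.mem_insert] at hx hy
        rcases hx with hx | hx
        · rcases hy with hy | hy
          · rw [hx, hy] at hxy
            exact G.irrefl hxy
          · rw [hx] at hxy
            exact hnA y hy hxy
        · rcases hy with hy | hy
          · rw [hy] at hxy
            exact hnA x hx hxy.symm
          · exact hTI x hx y hy hxy)
      rw [Finset.card_insert_of_notMem hv0T] at h2
      omega
    have h1 : e2 G (W \ A) + (d + 1) * d ≤ e2 G W := by
      unfold e2
      rw [← Finset.sum_sdiff hAW]
      apply add_le_add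
      · apply Finset.sum_le_sum
        intro w _
        exact Finset.card_le_card (Finset.filter_subset_filter _ Finset.sdiff_subset)
      · rw [← hAc, ← smul_eq_mul]
        apply Finset.card_nsmul_le_sum
        intro w hw
        rw [hdd]
        exact hmin w (hAW hw)
    have h2 := ih (W \ A) hSI
    have h3 : W.card = (W \ A).card + (d + 1) := by
      rw [← hAc]
      exact (Finset.card_sdiff_add_card_eq_card hAW).symm
    have h4 := turan_j_aux j d
    rw [h3]
    calc 2 * j * ((W \ A).card + (d + 1)) = 2 * j * (W \ A).card + 2 * j * (d + 1) := by ring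
      _ ≤ (e2 G (W \ A) + j * (j + 1) * k) + (d * (d + 1) + j * (j + 1)) := add_le_add h2 h4
      _ = (e2 G (W \ A) + (d + 1) * d) + j * (j + 1) * (k + 1) := by ring
      _ ≤ e2 G W + j * (j + 1) * (k + 1) := Nat.add_le_add_right h1 _

end Pool.Agent.Helper351.EG
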