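import Pool.Agent.Helper351.EG.Main

set_option autoImplicit false

namespace Pool.Agent.Helper351.EG

open Finset

theorem W7a {V : Type} [DecidableEq V] (G : SimpleGraph V) [DecidableRel G.Adj]
    (W : Finset V) (hW : W.card = 29) (hδ : ∀ v ∈ W, 7 ≤ deg G W v)
    (h8 : ∀ M ⊆ W, M.card = 8 → e2 G M ≤ 44)
    (hsplit : ∀ N ⊆ W, e2 G W + e2 G N = e2 G (W \ N) + 2 * ∑ x ∈ N, deg G W x)
    (v : V) (hv : v ∈ W) (hd : deg G W v = 7) :
    (W.filter (fun w => w ≠ v ∧ ¬ G.Adj v w)).card = 21 ∧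
    e2 G (W.filter (fun w => w ≠ v ∧ ¬ G.Adj v w)) + 68 +
      2 * (∑ x ∈ W.filter (fun w => G.Adj v w), (deg G W x - 7)) ≤ e2 G W := by
  have hKc : (W.filter (fun w => G.Adj v w)).card = 7 := hd
  have hvK : v ∉ W.filter (fun w => G.Adj v w) := by
    intro h
    exact G.irrefl (mem_filter.mp h).2
  have hNW : insert v (W.filter (fun w => G.Adj v w)) ⊆ W := by
    intro x hx
    rcases mem_insert.mp hx with rfl | hx
    · exact hv
    · exact (mem_filter.mp hx).1
  have hNc : (insert v (W.filter (fun w => G.Adj v w))).card = 8 := by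
    rw [card_insert_of_notMem hvK, hKc]
  have hM : W.filter (fun w => w ≠ v ∧ ¬ G.Adj v w) =
      W \ insert v (W.filter (fun w => G.Adj v w)) := by
    ext x
    rw [mem_filter, mem_sdiff, mem_insert, mem_filter]
    constructor
    · rintro ⟨h1, h2, h3⟩
      refine ⟨h1, ?_⟩
      rintro (h | h)
      · exact h2 h
      · exact h3 h.2
    · rintro ⟨h1, h2⟩
      refine ⟨h1, fun h => h2 (Or.inl h), fun h => h2 (Or.inr ⟨h1, h⟩)⟩
  have hMc : (W \ insert v (W.filter (fun w => G.Adj v w))).card = 21 := by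
    rw [card_sdiff_of_subset hNW, hW, hNc]
  have hS : ∑ x ∈ insert v (W.filter (fun w => G.Adj v w)), deg G W x =
      56 + ∑ x ∈ W.filter (fun w => G.Adj v w), (deg G W x - 7) := by
    rw [sum_insert hvK, hd]
    have h1 : ∑ x ∈ W.filter (fun w => G.Adj v w), deg G W x =
        ∑ x ∈ W.filter (fun w => G.Adj v w), (7 + (deg G W x - 7)) := by
      refine sum_congr rfl fun x hx => ?_
      have := hδ x (mem_filter.mp hx).1
      omega
    rw [h1, sum_add_distrib, sum_const, hKc, smul_eq_mul]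
    omega
  have h1 := hsplit _ hNW
  have h2 := h8 _ hNW hNc
  rw [hS] at h1
  rw [hM]
  refine ⟨hMc, ?_⟩
  omega

end Pool.Agent.Helper351.EG
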