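import Pool.Agent.Helper351.EG.Main

set_option autoImplicit false

namespace Pool.Agent.Helper351.EG

open Finset

theorem W7p_split {V : Type} [DecidableEq V] (G : SimpleGraph V) [DecidableRel G.Adj]
    (W : Finset V) (p : V → Prop) [DecidablePred p] (v : V) :
    deg G W v = deg G (W.filter p) v + deg G (W.filter (fun v => ¬ p v)) v := by
  unfold deg
  rw [filter_comm p, filter_comm (fun v => ¬ p v)]
  exact (card_filter_add_card_filter_not _).symm

theorem W7p_dc {V : Type} [DecidableEq V] (G : SimpleGraph V) [DecidableRel G.Adj]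
    (H L : Finset V) : ∑ x ∈ H, deg G L x = ∑ v ∈ L, deg G H v := by
  unfold deg
  simp only [card_filter]
  rw [sum_comm]
  refine sum_congr rfl (fun v _ => sum_congr rfl (fun x _ => ?_))
  simp only [G.adj_comm]

theorem W7p {V : Type} [DecidableEq V] (G : SimpleGraph V) [DecidableRel G.Adj]
    (W H L : Finset V) (hH : H = W.filter (fun v => 8 ≤ deg G W v))
    (hL : L = W.filter (fun v => ¬ 8 ≤ deg G W v)) (hδ : ∀ v ∈ W, 7 ≤ deg G W v)
    (hv : ∀ v ∈ W, deg G W v = 7 →
      ∑ x ∈ W.filter (fun w => G.Adj v w), (deg G W x - 7) ≤ 1) :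
    6 * L.card ≤ e2 G L ∧ e2 G W ≤ 7 * L.card + e2 G H + L.card ∧
      ∀ v ∈ L, deg G H v ≤ 1 := by
  have hsplit : ∀ v, deg G W v = deg G H v + deg G L v := by
    intro v
    rw [hH, hL]
    exact W7p_split G W _ v
  have hL7 : ∀ v ∈ L, v ∈ W ∧ deg G W v = 7 := by
    intro v hvL
    rw [hL, mem_filter] at hvL
    have := hδ v hvL.1
    exact ⟨hvL.1, by omega⟩
  have h3 : ∀ v ∈ L, deg G H v ≤ 1 := by
    intro v hvL
    obtain ⟨hW, h7⟩ := hL7 v hvL
    refine le_trans ?_ (hv v hW h7)
    calc deg G H v = ∑ x ∈ H.filter (fun w => G.Adj v w), 1 := by simp [deg]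
      _ ≤ ∑ x ∈ H.filter (fun w => G.Adj v w), (deg G W x - 7) := by
        refine sum_le_sum (fun x hx => ?_)
        rw [hH, mem_filter, mem_filter] at hx
        have := hx.1.2
        omega
      _ ≤ ∑ x ∈ W.filter (fun w => G.Adj v w), (deg G W x - 7) := by
        refine sum_le_sum_of_subset ?_
        rw [hH]
        exact filter_subset_filter _ (filter_subset _ _)
  refine ⟨?_, ?_, h3⟩
  · calc 6 * L.card = ∑ v ∈ L, 6 := by simp [mul_comm]
      _ ≤ ∑ v ∈ L, deg G L v := by
        refine sum_le_sum (fun v hvL => ?_)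
        have h1 := h3 v hvL
        have h2 := (hL7 v hvL).2
        have h4 := hsplit v
        omega
      _ = e2 G L := rfl
  · have h1 : e2 G W = ∑ v ∈ H, deg G W v + ∑ v ∈ L, deg G W v := by
      rw [hH, hL]
      exact (sum_filter_add_sum_filter_not W _ _).symm
    have h2 : ∑ v ∈ L, deg G W v = 7 * L.card := by
      rw [sum_congr rfl (fun v hvL => (hL7 v hvL).2)]
      simp [mul_comm]
    have h4 : ∑ v ∈ H, deg G W v = e2 G H + ∑ v ∈ H, deg G L v := by
      unfold e2
      rw [← sum_add_distrib]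
      exact sum_congr rfl (fun v _ => hsplit v)
    have h5 : ∑ v ∈ H, deg G L v ≤ L.card := by
      rw [W7p_dc]
      calc _ ≤ ∑ v ∈ L, 1 := sum_le_sum h3
        _ = _ := by simp
    omega

end Pool.Agent.Helper351.EG
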