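import Pool.Agent.Helper351.EG.Main

set_option autoImplicit false

namespace Pool.Agent.Helper351.EG

open Finset

theorem W7r {V : Type} [DecidableEq V] (G : SimpleGraph V) [DecidableRel G.Adj]
    (W H L : Finset V) (hH : H = W.filter (fun v => 8 ≤ deg G W v))
    (hL : L = W.filter (fun v => ¬ 8 ≤ deg G W v)) (hδ : ∀ v ∈ W, 7 ≤ deg G W v)
    (hL1 : ∀ T ⊆ W, Ind G T → T.card = 4 → 30 ≤ ∑ t ∈ T, deg G W t)
    (hone : ∀ v ∈ L, deg G H v ≤ 1) (T : Finset V) (hT : T ⊆ L) (hTi : Ind G T)
    (hTc : T.card = 3) :
    7 * W.card + 2 * H.card ≤ e2 G W + 3 := by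
  classical
  have hL7 : ∀ v ∈ L, deg G W v = 7 := by
    intro v hv
    rw [hL, mem_filter] at hv
    have := hδ v hv.1
    omega
  have hLW : L ⊆ W := by rw [hL]; exact filter_subset _ _
  have hHW : H ⊆ W := by rw [hH]; exact filter_subset _ _
  have hsum : e2 G W = ∑ v ∈ H, deg G W v + ∑ v ∈ L, deg G W v := by
    unfold e2
    rw [hH, hL]
    exact (Finset.sum_filter_add_sum_filter_not W (fun v => 8 ≤ deg G W v) (fun v => deg G W v)).symm
  have hcard : W.card = H.card + L.card := by
    rw [hH, hL]
    exact (Finset.card_filter_add_card_filter_not (s := W) (fun v => 8 ≤ deg G W v)).symm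
  have hsL : ∑ v ∈ L, deg G W v = 7 * L.card := by
    rw [Finset.sum_congr rfl hL7, Finset.sum_const, smul_eq_mul, mul_comm]
  set A := H.filter (fun v => deg G W v = 8) with hA
  have hAn : ∀ x ∈ A, ∃ t ∈ T, G.Adj t x := by
    intro x hx
    by_contra hcon
    push Not at hcon
    rw [hA, mem_filter] at hx
    have hxL : x ∉ L := by
      intro h
      have := hL7 x h
      omega
    have hxT : x ∉ T := fun h => hxL (hT h)
    have h1 : Ind G (insert x T) := by
      intro a ha b hb
      rw [mem_insert] at ha hb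
      rcases ha with rfl | ha
      · rcases hb with rfl | hb
        · exact G.irrefl
        · exact fun h => hcon b hb h.symm
      · rcases hb with rfl | hb
        · exact hcon a ha
        · exact hTi a ha b hb
    have h2 : insert x T ⊆ W := by
      intro z hz
      rw [mem_insert] at hz
      rcases hz with rfl | hz
      · exact hHW hx.1
      · exact hLW (hT hz)
    have h3 := hL1 _ h2 h1 (by rw [card_insert_of_notMem hxT, hTc])
    rw [sum_insert hxT, hx.2] at h3
    have h4 : ∑ t ∈ T, deg G W t = 21 := by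
      rw [Finset.sum_congr rfl (fun t ht => hL7 t (hT ht)), Finset.sum_const, hTc, smul_eq_mul]
    omega
  have hA3 : A.card ≤ 3 := by
    have hsub : A ⊆ T.biUnion (fun t => H.filter (fun w => G.Adj t w)) := by
      intro x hx
      obtain ⟨t, ht, htx⟩ := hAn x hx
      rw [mem_biUnion]
      refine ⟨t, ht, ?_⟩
      rw [mem_filter]
      rw [hA, mem_filter] at hx
      exact ⟨hx.1, htx⟩
    refine le_trans (card_le_card hsub) (le_trans card_biUnion_le ?_)
    have h1 : ∀ t ∈ T, (H.filter (fun w => G.Adj t w)).card ≤ 1 := fun t ht => hone t (hT ht)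
    have h2 := sum_le_card_nsmul T _ 1 h1
    rw [hTc] at h2
    simpa using h2
  have hsH : 9 * H.card ≤ ∑ v ∈ H, deg G W v + A.card := by
    have h1 : A.card = ∑ v ∈ H, (if deg G W v = 8 then 1 else 0) := by
      rw [hA, card_filter]
    rw [h1, ← Finset.sum_add_distrib]
    have h2 : ∀ v ∈ H, 9 ≤ deg G W v + (if deg G W v = 8 then 1 else 0) := by
      intro v hv
      rw [hH, mem_filter] at hv
      split_ifs with h
      · omega
      · omega
    have h3 := card_nsmul_le_sum H _ 9 h2
    rw [smul_eq_mul, mul_comm] at h3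
    exact h3
  omega

end Pool.Agent.Helper351.EG
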