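import Pool.Agent.Helper351.EG.Main
import Pool.Agent.Helper351.EG.W7p
import Pool.Agent.Helper351.EG.W7r

set_option autoImplicit false

namespace Pool.Agent.Helper351.EG

open Finset

theorem W7b {V : Type} [DecidableEq V] (G : SimpleGraph V) [DecidableRel G.Adj]
    (W : Finset V) (hW : W.card = 29) (hδ : ∀ v ∈ W, 7 ≤ deg G W v)
    (he : e2 G W ≤ 224) (hlow : 218 ≤ e2 G W)
    (hv : ∀ v ∈ W, deg G W v = 7 →
      ∑ x ∈ W.filter (fun w => G.Adj v w), (deg G W x - 7) ≤ 1)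
    (hL1 : ∀ T ⊆ W, Ind G T → T.card = 4 → 30 ≤ ∑ t ∈ T, deg G W t)
    (hL3 : ∀ L ⊆ W, (∀ v ∈ L, deg G L v ≤ 7) → IndLe G L 3 → L.card ≤ 21)
    (hL2 : ∀ L ⊆ W, IndLe G L 2 → L.card ≤ 13)
    (hB1 : ∀ M ⊆ W, e2 G M + 12 * (M.card - 7) ≤ M.card * (M.card - 1))
    (hB2 : ∀ M ⊆ W, e2 G M + 6 * (4 * M.card - 42) ≤ M.card * (M.card - 1)) : False := by
  obtain ⟨H, hH⟩ : ∃ H, H = W.filter (fun v => 8 ≤ deg G W v) := ⟨_, rfl⟩
  obtain ⟨L, hL⟩ : ∃ L, L = W.filter (fun v => ¬ 8 ≤ deg G W v) := ⟨_, rfl⟩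
  have hHW : H ⊆ W := by rw [hH]; exact filter_subset _ _
  have hLW : L ⊆ W := by rw [hL]; exact filter_subset _ _
  have hcard : H.card + L.card = 29 := by
    rw [← hW, hH, hL]
    exact card_filter_add_card_filter_not _
  obtain ⟨p1, p2, p3⟩ := W7p G W H L hH hL hδ hv
  have hLd : ∀ v ∈ L, deg G W v = 7 := by
    intro v hvL
    rw [hL, mem_filter] at hvL
    have := hδ v hvL.1
    omega
  have hXh : 7 * 29 + H.card ≤ e2 G W := by
    have h1 : ∑ w ∈ W, (7 + if 8 ≤ deg G W w then 1 else 0) ≤ ∑ w ∈ W, deg G W w := by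
      refine sum_le_sum (fun w hw => ?_)
      have := hδ w hw
      split_ifs <;> omega
    rw [sum_add_distrib, sum_const, hW, sum_boole, ← hH] at h1
    unfold e2
    simp at h1
    omega
  have hi3 : IndLe G L 3 := by
    intro T hT hTi
    by_contra hlt
    push Not at hlt
    obtain ⟨T', hT'T, hT'c⟩ := exists_subset_card_eq (show 4 ≤ T.card by omega)
    have h1 := hL1 T' (hT'T.trans (hT.trans hLW)) (fun x hx y hy => hTi x (hT'T hx) y (hT'T hy)) hT'c
    have h2 : ∑ t ∈ T', deg G W t = ∑ t ∈ T', 7 :=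
      sum_congr rfl (fun t ht => hLd t (hT (hT'T ht)))
    rw [h2, sum_const, hT'c] at h1
    simp at h1
  have hL21 := hL3 L hLW (fun v hv => (deg_mono G hLW v).trans (le_of_eq (hLd v hv))) hi3
  have b1 := hB1 H hHW
  have b2 := hB2 H hHW
  have b3 := hB1 L hLW
  by_cases hT : ∃ T ⊆ L, Ind G T ∧ T.card = 3
  · obtain ⟨T, hT, hTi, hTc⟩ := hT
    have hr := W7r G W H L hH hL hδ hL1 p3 T hT hTi hTc
    rw [hW] at hr
    obtain ⟨h, hh⟩ : ∃ h, H.card = h := ⟨_, rfl⟩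
    have hl : L.card = 29 - h := by omega
    rw [hh] at b1 b2 hXh hr
    rw [hl] at p1 p2 b3 hL21
    have h8 : 8 ≤ h := by omega
    have h12 : h ≤ 12 := by omega
    interval_cases h <;> omega
  · have hi2 : IndLe G L 2 := by
      intro T hTL hTi
      by_contra hlt
      push Not at hlt
      obtain ⟨T', hT'T, hT'c⟩ := exists_subset_card_eq (show 3 ≤ T.card by omega)
      exact hT ⟨T', hT'T.trans hTL, fun x hx y hy => hTi x (hT'T hx) y (hT'T hy), hT'c⟩
    have h13 := hL2 L hLW hi2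
    obtain ⟨h, hh⟩ : ∃ h, H.card = h := ⟨_, rfl⟩
    have hl : L.card = 29 - h := by omega
    rw [hh] at b1 b2 hXh
    rw [hl] at p1 p2 b3 h13
    have h16 : 16 ≤ h := by omega
    have h21 : h ≤ 21 := by omega
    interval_cases h <;> omega

end Pool.Agent.Helper351.EG
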