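import Pool.Agent.Helper351.EG.Main6
import Pool.Agent.Helper351.EG.Tur
import Pool.Agent.Helper351.EG.Nonbip
import Pool.Agent.Helper351.EG.Split
import Pool.Agent.Helper351.EG.F7a
import Pool.Agent.Helper351.EG.F7b
import Pool.Agent.Helper351.EG.W7a
import Pool.Agent.Helper351.EG.W7b

set_option autoImplicit false

namespace Pool.Agent.Helper351.EG

open Finset

theorem IndLe_mono {V : Type} (G : SimpleGraph V)
    {W' W : Finset V} (h : W' ⊆ W) {k : ℕ} (hP : IndLe G W k) : IndLe G W' k :=
  fun T hT hi => hP T (hT.trans h) hi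

theorem nonnbr_card {V : Type} [DecidableEq V] (G : SimpleGraph V) [DecidableRel G.Adj]
    (W : Finset V) (v : V) (hv : v ∈ W) :
    W.card = deg G W v + (W.filter (fun w => w ≠ v ∧ ¬ G.Adj v w)).card + 1 := by
  set M := W.filter (fun w => w ≠ v ∧ ¬ G.Adj v w) with hM
  have h1 : W.card = (W.filter (fun w => G.Adj v w)).card +
      (W.filter (fun w => ¬ G.Adj v w)).card := (card_filter_add_card_filter_not _).symm
  have h2 : W.filter (fun w => ¬ G.Adj v w) = insert v M := by
    ext w
    simp only [hM, mem_filter, mem_insert]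
    constructor
    · rintro ⟨hw, hna⟩
      by_cases hwv : w = v
      · exact Or.inl hwv
      · exact Or.inr ⟨hw, hwv, hna⟩
    · rintro (rfl | ⟨hw, _, hna⟩)
      · exact ⟨hv, G.irrefl⟩
      · exact ⟨hw, hna⟩
  have h3 : v ∉ M := by simp [hM]
  rw [h2, card_insert_of_notMem h3] at h1
  unfold deg
  omega

/-- The stronger properties: also the tangent Turan bound for the other colours. -/
structure Good' {V : Type} [DecidableEq V] (G : SimpleGraph V) [DecidableRel G.Adj] (r : ℕ) :
    Prop extends Good G r where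
  hT : ∀ (j : ℕ) (M : Finset V),
    e2 G M + (r - 1) * (2 * j * M.card - j * (j + 1) * r) ≤ M.card * (M.card - 1)

theorem no_two_r {V : Type} [DecidableEq V] (G : SimpleGraph V) [DecidableRel G.Adj] (r : ℕ)
    (hr : 6 ≤ r) (hG : Good G r) (M : Finset V) (hM : M.card = 2 * r) (h2 : IndLe G M 2)
    (hK : NoK G M r) : False := by
  refine andrasfai G r hr M hM h2 hK ?_ (fun u hu => deg_ge_of_two_g G r (by omega) M h2 hK u hu)
  have h := hG.hC M
  rw [hM] at h
  obtain ⟨m, rfl⟩ : ∃ m, r = m + 1 := ⟨r - 1, by omega⟩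
  have e1 : 2 * (m + 1) - (m + 1) = m + 1 := by omega
  have e3 : 2 * (m + 1) - 1 = 2 * m + 1 := by omega
  rw [e1, e3, Nat.add_sub_cancel] at h
  nlinarith

/-- level three is impossible for every `r ≥ 6` -/
theorem level3g {V : Type} [DecidableEq V] (G : SimpleGraph V) [DecidableRel G.Adj] (r : ℕ)
    (hr : 6 ≤ r) (hG : Good' G r) (W : Finset V) (hc : W.card = r * 3 + 1) (hk : IndLe G W 3) :
    False := by
  rcases stepg G r (by omega) W 2 (by omega) hc hk (hG.hP W) with ⟨hK, hδ⟩ | h
  · have hall : ∀ v ∈ W, r + 1 ≤ deg G W v := by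
      intro v hv
      by_contra hlt
      push Not at hlt
      have hd : deg G W v = r := by
        have := hδ v hv
        omega
      have hcard := nonnbr_card G W v hv
      exact no_two_r G r hr hG.toGood (W.filter (fun w => w ≠ v ∧ ¬ G.Adj v w)) (by omega)
        (indLe_remove_nbhd G W 2 hk v hv) (NoK_mono G (filter_subset _ _) hK)
    have h1 : W.card * (r + 1) ≤ e2 G W := by
      calc W.card * (r + 1) = ∑ w ∈ W, (r + 1) := by simp
        _ ≤ _ := sum_le_sum hall
    have h2 := hG.hT 3 W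
    rw [hc] at h1 h2
    obtain ⟨m, rfl⟩ : ∃ m, r = m + 6 := ⟨r - 6, by omega⟩
    have e1 : 2 * 3 * ((m + 6) * 3 + 1) - 3 * (3 + 1) * (m + 6) = 6 * m + 42 := by omega
    have e2' : m + 6 - 1 = m + 5 := by omega
    have e3 : (m + 6) * 3 + 1 - 1 = 3 * m + 18 := by omega
    rw [e1, e2', e3] at h2
    nlinarith
  · obtain ⟨W', hW', hc', hk', he'⟩ := h
    exact level2g G r (by omega) W' (by omega) hk' (hG.hP W') (hG.hK W') (fun M _ => hG.hC M)

theorem level4_seven {V : Type} [DecidableEq V] (G : SimpleGraph V) [DecidableRel G.Adj]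
    (hG : Good' G 7) (W : Finset V) (hc : W.card = 7 * 4 + 1) (hk : IndLe G W 4)
    (he : e2 G W ≤ 224) : False := by
  rcases stepg G 7 (by norm_num) W 3 (by norm_num) hc hk (hG.hP W) with ⟨hK, hδ⟩ | h
  · have h8 : ∀ M : Finset V, M.card = 8 → e2 G M ≤ 44 := by
      intro M hM
      have := hG.hC M
      rw [hM] at this
      omega
    have h14 : ∀ M ⊆ W, M.card = 14 → IndLe G M 2 → False := fun M hM hMc hM2 =>
      no_two_r G 7 (by norm_num) hG.toGood M (by omega) hM2 (NoK_mono G hM hK)
    have h13 : ∀ M ⊆ W, M.card = 13 → IndLe G M 2 → 82 ≤ e2 G M := by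
      intro M hM hMc hM2
      have := nonbip G 7 (by norm_num) M (by omega) hM2 (NoK_mono G hM hK)
      omega
    have hF : ∀ F ⊆ W, F.card = 21 → IndLe G F 3 → (∀ v ∈ F, 7 ≤ deg G F v) ∧
        (∀ u ∈ F, deg G F u = 7 →
          150 + 2 * (∑ x ∈ F.filter (fun w => G.Adj u w), (deg G F x - 7)) ≤ e2 G F) := by
      intro F hFW hFc hF3
      exact F7a G F hFc hF3 (fun M hM => h14 M (hM.trans hFW)) (fun M hM => h13 M (hM.trans hFW))
        (fun M _ => h8 M) (fun N hN => e2_split G F N hN)
    have hF150 : ∀ F ⊆ W, F.card = 21 → IndLe G F 3 → 150 ≤ e2 G F := by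
      intro F hFW hFc hF3
      obtain ⟨h1, h2⟩ := hF F hFW hFc hF3
      by_cases hex : ∃ u ∈ F, deg G F u = 7
      · obtain ⟨u, hu, hu7⟩ := hex
        have := h2 u hu hu7
        omega
      · push Not at hex
        have h3 : ∑ w ∈ F, 8 ≤ ∑ w ∈ F, deg G F w := sum_le_sum (fun w hw => by
          have a := h1 w hw
          have b := hex w hw
          omega)
        rw [sum_const, hFc] at h3
        unfold e2
        simp at h3
        omega
    have hW : ∀ v ∈ W, deg G W v = 7 →
        (W.filter (fun w => w ≠ v ∧ ¬ G.Adj v w)).card = 21 ∧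
        e2 G (W.filter (fun w => w ≠ v ∧ ¬ G.Adj v w)) + 68 +
          2 * (∑ x ∈ W.filter (fun w => G.Adj v w), (deg G W x - 7)) ≤ e2 G W := by
      intro v hv hd
      exact W7a G W hc hδ (fun M _ => h8 M) (fun N hN => e2_split G W N hN) v hv hd
    have hbig : ∀ v ∈ W, deg G W v = 7 →
        ∑ x ∈ W.filter (fun w => G.Adj v w), (deg G W x - 7) ≤ 1 := by
      intro v hv hd
      by_contra hlt
      push Not at hlt
      obtain ⟨h1, h2⟩ := hW v hv hd
      have hsub : W.filter (fun w => w ≠ v ∧ ¬ G.Adj v w) ⊆ W := filter_subset _ _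
      have h3 := hF _ hsub h1 (indLe_remove_nbhd G W 3 hk v hv)
      exact F7b G _ h1 h3.1 h3.2 (by omega)
    have hlow : 218 ≤ e2 G W := by
      have hex : ∃ v ∈ W, deg G W v = 7 := by
        by_contra hno
        push Not at hno
        have h3 : ∑ w ∈ W, 8 ≤ ∑ w ∈ W, deg G W w := sum_le_sum (fun w hw => by
          have a := hδ w hw
          have b := hno w hw
          omega)
        rw [sum_const, hc] at h3
        unfold e2 at he
        simp at h3
        omega
      obtain ⟨v, hv, hd⟩ := hex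
      obtain ⟨h1, h2⟩ := hW v hv hd
      have hsub : W.filter (fun w => w ≠ v ∧ ¬ G.Adj v w) ⊆ W := filter_subset _ _
      have h3 := hF150 _ hsub h1 (indLe_remove_nbhd G W 3 hk v hv)
      omega
    refine W7b G W hc hδ he hlow hbig ?_ ?_ ?_ ?_ ?_
    · intro T hT hTi hTc
      have := L1 G 7 (by norm_num) W T hT hTi (by rw [hTc]; exact hk) hK
      omega
    · intro L hL hd hL3
      obtain ⟨T, hT, hTi, hTm⟩ := exists_max_ind G L
      have h2 := L1 G 7 (by norm_num) L T hT hTi hTm (NoK_mono G hL hK)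
      have h3 : ∑ t ∈ T, deg G L t ≤ T.card * 7 := by
        calc _ ≤ ∑ t ∈ T, 7 := sum_le_sum (fun t ht => hd t (hT ht))
          _ = _ := by simp
      have h4 := hL3 T hT hTi
      omega
    · intro L hL hL2
      by_contra hlt
      push Not at hlt
      obtain ⟨M, hML, hMc⟩ := exists_subset_card_eq (show 14 ≤ L.card by omega)
      exact h14 M (hML.trans hL) hMc (IndLe_mono G hML hL2)
    · intro M _
      have := hG.hC M
      simpa using this
    · intro M _
      have := hG.hT 2 M
      have e1 : 2 * 2 * M.card - 2 * (2 + 1) * 7 = 4 * M.card - 42 := by omega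
      rw [e1] at this
      simpa using this
  · obtain ⟨W', hW', hc', hk', he'⟩ := h
    exact level3g G 7 (by norm_num) hG W' hc' hk'

theorem level5_seven {V : Type} [DecidableEq V] (G : SimpleGraph V) [DecidableRel G.Adj]
    (hG : Good' G 7) (W : Finset V) (hc : W.card = 7 * 5 + 1) (hk : IndLe G W 5)
    (he : e2 G W ≤ 266) : False := by
  rcases stepg G 7 (by norm_num) W 4 (by norm_num) hc hk (hG.hP W) with ⟨hK, hδ⟩ | h
  · have := claimC G 7 (by norm_num) 5 (by norm_num) W hc hk hK hδ
    rw [hc] at this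
    omega
  · obtain ⟨W', hW', hc', hk', he'⟩ := h
    exact level4_seven G hG W' hc' hk' (by omega)

theorem level6_seven {V : Type} [DecidableEq V] (G : SimpleGraph V) [DecidableRel G.Adj]
    (hG : Good' G 7) (W : Finset V) (hc : W.card = 7 * 6 + 1) (hk : IndLe G W 6)
    (he : e2 G W ≤ 308) : False := by
  rcases stepg G 7 (by norm_num) W 5 (by norm_num) hc hk (hG.hP W) with ⟨hK, hδ⟩ | h
  · have := claimC G 7 (by norm_num) 6 (by norm_num) W hc hk hK hδ
    rw [hc] at this
    omega
  · obtain ⟨W', hW', hc', hk', he'⟩ := h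
    exact level5_seven G hG W' hc' hk' (by omega)

theorem C_tur {V : Type} [DecidableEq V] {r : ℕ} (hr : 1 ≤ r) (c : V → V → Fin r)
    (hc : ∀ x y, c x y = c y x)
    (hi : ∀ k, ∀ W : Finset V, IndLe (colG c hc k) W r) (k : Fin r) (j : ℕ) (M : Finset V) :
    e2 (colG c hc k) M + (r - 1) * (2 * j * M.card - j * (j + 1) * r) ≤
      M.card * (M.card - 1) := by
  have h1 := sum_e2 c hc M
  rw [← h1, ← Finset.add_sum_erase univ (fun k => e2 (colG c hc k) M) (mem_univ k)]
  refine Nat.add_le_add_left ?_ _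
  calc (r - 1) * (2 * j * M.card - j * (j + 1) * r)
      = ∑ i ∈ univ.erase k, (2 * j * M.card - j * (j + 1) * r) := by
        rw [sum_const, card_erase_of_mem (mem_univ k), card_univ, Fintype.card_fin, smul_eq_mul]
    _ ≤ _ := by
        refine sum_le_sum (fun i _ => ?_)
        have := turan_j (colG c hc i) M r j (hi i M)
        omega

theorem good'_colG {V : Type} [DecidableEq V] {r : ℕ} (hr : 3 ≤ r) (c : V → V → Fin r)
    (hc : ∀ x y, c x y = c y x) (hs : AllSee c) (k : Fin r) : Good' (colG c hc k) r where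
  toGood := good_colG hr c hc hs k
  hT := fun j M => C_tur (by omega) c hc (fun k W => C_ind c hc hs k W) k j M

theorem seven (c : Fin (7 ^ 2 + 1) → Fin (7 ^ 2 + 1) → Fin 7) (hc : ∀ x y, c x y = c y x) :
    ∃ S : Finset (Fin (7 ^ 2 + 1)), S.card = 7 + 1 ∧
        ∃ k : Fin 7, ∀ x ∈ S, ∀ y ∈ S, x ≠ y → c x y ≠ k := by
  by_contra h
  have hs := AllSee_of_not c h
  obtain ⟨k, hk⟩ := C_min_gen 7 (by norm_num) c hc
  have hG := good'_colG (by norm_num) c hc hs k
  obtain ⟨W', hW', hc', hk', he'⟩ := topg (colG c hc k) 7 (by norm_num) hG.toGood univ (by simp)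
    (C_ind c hc hs k univ) hk
  exact level6_seven (colG c hc k) hG W' hc' hk' (by omega)

/-- local density for `r ≥ 6` -/
theorem local_density (r : ℕ) (hr : 6 ≤ r) {V : Type} [DecidableEq V] (c : V → V → Fin r)
    (hc : ∀ x y, c x y = c y x) (hs : AllSee c) (k : Fin r) (W : Finset V)
    (hW : W.card = 3 * r + 1) : ∃ T ⊆ W, T.card = 4 ∧ ∀ x ∈ T, ∀ y ∈ T, x ≠ y → c x y ≠ k := by
  by_contra hno
  push Not at hno
  refine level3g (colG c hc k) r hr (good'_colG (by omega) c hc hs k) W (by omega) ?_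
  intro T hT hTi
  by_contra hlt
  push Not at hlt
  obtain ⟨M, hMT, hMc⟩ := exists_subset_card_eq (show 4 ≤ T.card by omega)
  obtain ⟨x, hx, y, hy, hxy, he⟩ := hno M (hMT.trans hT) hMc
  exact hTi x (hMT hx) y (hMT hy) ⟨hxy, he⟩

end Pool.Agent.Helper351.EG
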