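import Pool.Agent.Helper351.EG.Main7

set_option autoImplicit false

namespace Pool.Agent.Helper351.EG

open Finset

theorem peelB {V : Type} [DecidableEq V] (G : SimpleGraph V) [DecidableRel G.Adj]
    (F B : Finset V) (k : ℕ) (hk : IndLe G F (k + 1)) (hB : B ⊆ F)
    (hout : ∀ x ∈ F, x ∉ B → deg G B x ≤ 2) (hlt : 2 * (k + 1) < B.card) :
    IndLe G (F \ B) k := by
  intro T hT hTi
  by_contra hcon
  have hcon' : k + 1 ≤ T.card := by omega
  obtain ⟨T', hT', hT'c⟩ := Finset.exists_subset_card_eq hcon'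
  have hT'W : T' ⊆ F := fun x hx => (Finset.mem_sdiff.mp (hT (hT' hx))).1
  have hT'Q : ∀ x ∈ T', x ∉ B := fun x hx => (Finset.mem_sdiff.mp (hT (hT' hx))).2
  have hb : (T'.biUnion (fun t => B.filter (fun w => G.Adj t w))).card ≤ 2 * (k + 1) := by
    calc _ ≤ ∑ t ∈ T', (B.filter (fun w => G.Adj t w)).card := Finset.card_biUnion_le
      _ ≤ ∑ t ∈ T', 2 := Finset.sum_le_sum (fun t ht => hout t (hT'W ht) (hT'Q t ht))
      _ = 2 * (k + 1) := by rw [Finset.sum_const, hT'c, smul_eq_mul, mul_comm]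
  have hex : ∃ q ∈ B, q ∉ T'.biUnion (fun t => B.filter (fun w => G.Adj t w)) := by
    by_contra hne
    have hsub : B ⊆ T'.biUnion (fun t => B.filter (fun w => G.Adj t w)) := by
      intro q hq
      by_contra h
      exact hne ⟨q, hq, h⟩
    have := Finset.card_le_card hsub
    omega
  obtain ⟨q, hqQ, hq⟩ := hex
  have hqn : ∀ t ∈ T', ¬ G.Adj t q := by
    intro t ht hadj
    exact hq (Finset.mem_biUnion.mpr ⟨t, ht, Finset.mem_filter.mpr ⟨hqQ, hadj⟩⟩)
  have hqT : q ∉ T' := fun h => hT'Q q h hqQ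
  have h1 := hk (insert q T') (Finset.insert_subset (hB hqQ) hT'W) (by
    intro x hx y hy hxy
    rw [Finset.mem_insert] at hx hy
    rcases hx with rfl | hx
    · rcases hy with rfl | hy
      · exact G.loopless.irrefl _ hxy
      · exact hqn y hy hxy.symm
    · rcases hy with rfl | hy
      · exact hqn x hx hxy
      · exact hTi x (hT' hx) y (hT' hy) hxy)
  rw [Finset.card_insert_of_notMem hqT, hT'c] at h1
  omega

end Pool.Agent.Helper351.EG
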