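import Pool.Agent.Helper351.EG.Main7

set_option autoImplicit false

namespace Pool.Agent.Helper351.EG

open Finset

/-- non-neighbours of `v` in `S` -/
def nb {V : Type} [DecidableEq V] (G : SimpleGraph V) [DecidableRel G.Adj] (S : Finset V) (v : V) :
    Finset V := S.filter (fun w => w ≠ v ∧ ¬ G.Adj v w)

theorem mem_nb {V : Type} [DecidableEq V] {G : SimpleGraph V} [DecidableRel G.Adj] {S : Finset V}
    {v w : V} : w ∈ nb G S v ↔ w ∈ S ∧ w ≠ v ∧ ¬ G.Adj v w := by
  unfold nb
  rw [mem_filter]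

theorem sum_nb {V : Type} [DecidableEq V] (G : SimpleGraph V) [DecidableRel G.Adj]
    (B : Finset V) : B.card * B.card = e2 G B + ∑ v ∈ B, (nb G B v).card + B.card := by
  have h := Finset.sum_congr (rfl : B = B) (fun v hv => nonnbr_card G B v hv)
  rw [sum_const, smul_eq_mul, sum_add_distrib, sum_add_distrib, sum_const, smul_eq_mul, mul_one] at h
  exact h

theorem nb_comm {V : Type} [DecidableEq V] (G : SimpleGraph V) [DecidableRel G.Adj]
    (A B : Finset V) : ∑ v ∈ A, (nb G B v).card = ∑ v ∈ B, (nb G A v).card := by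
  have h1 : ∀ v, (nb G B v).card = ∑ w ∈ B, if (w ≠ v ∧ ¬ G.Adj v w) then 1 else 0 := by
    intro v
    unfold nb
    rw [card_filter]
  have h2 : ∀ v, (nb G A v).card = ∑ w ∈ A, if (w ≠ v ∧ ¬ G.Adj v w) then 1 else 0 := by
    intro v
    unfold nb
    rw [card_filter]
  simp only [h1, h2]
  rw [sum_comm]
  refine sum_congr rfl fun v _ => sum_congr rfl fun w _ => ?_
  have : (v ≠ w ∧ ¬ G.Adj w v) ↔ (w ≠ v ∧ ¬ G.Adj v w) := by
    rw [G.adj_comm, ne_comm]
  simp only [this]

theorem S8 {V : Type} [DecidableEq V] (G : SimpleGraph V) [DecidableRel G.Adj]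
    (M : Finset V) (hM : M.card = 15) (h2 : IndLe G M 2) (hK : NoK G M 8) (he : e2 G M ≤ 112)
    (hB : ∀ B ⊆ M, B.card = 8 → e2 G B ≤ 52) :
    112 ≤ e2 G M ∧ ∃ (a : V) (N1 N2 D0 D1 : Finset V), a ∈ M ∧ N1 ⊆ M ∧ N2 ⊆ M ∧ D0 ⊆ M ∧
      D1 ⊆ M ∧ N1.card = 2 ∧ N2.card = 5 ∧ D0.card = 5 ∧ D1.card = 2 ∧
      a ∉ N1 ∪ N2 ∪ D0 ∪ D1 ∧ Disjoint N1 N2 ∧ Disjoint D0 D1 ∧ Disjoint (N1 ∪ N2) (D0 ∪ D1) ∧
      Clq G (N1 ∪ N2) ∧ Clq G (D0 ∪ D1) ∧ (∀ x ∈ N1, ¬ G.Adj a x) ∧ (∀ x ∈ D1, ¬ G.Adj a x) ∧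
      (∀ x ∈ N2, G.Adj a x) ∧ (∀ x ∈ D0, G.Adj a x) ∧
      (∀ x ∈ N2, ∀ y ∈ D0 ∪ D1, ¬ G.Adj x y) ∧ (∀ x ∈ N1, ∀ y ∈ D0, ¬ G.Adj x y) := by
  classical
  have hind3 : ∀ x ∈ M, ∀ y ∈ M, ∀ z ∈ M, x ≠ y → y ≠ z → x ≠ z → ¬ G.Adj x y → ¬ G.Adj y z →
      ¬ G.Adj x z → False := by
    intro x hx y hy z hz hxy hyz hxz h1 h2' h3
    have hc : ({x,y,z} : Finset V).card = 3 := Finset.card_eq_three.2 ⟨x,y,z,hxy,hxz,hyz,rfl⟩
    have h1' : ¬ G.Adj y x := fun h => h1 h.symm
    have h2'' : ¬ G.Adj z y := fun h => h2' h.symm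
    have h3' : ¬ G.Adj z x := fun h => h3 h.symm
    have := h2 {x,y,z} (by
      intro w hw
      simp only [mem_insert, mem_singleton] at hw
      rcases hw with rfl|rfl|rfl <;> assumption) (by
      intro u hu w hw
      simp only [mem_insert, mem_singleton] at hu hw
      rcases hu with rfl|rfl|rfl <;> rcases hw with rfl|rfl|rfl <;>
        first | exact G.irrefl | assumption)
    omega
  have hclq7 : ∀ T ⊆ M, Clq G T → T.card ≤ 7 := by
    intro T hT hc
    by_contra hlt
    push Not at hlt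
    obtain ⟨T', hT', hc'⟩ := Finset.exists_subset_card_eq (show 8 ≤ T.card by omega)
    exact hK T' (hT'.trans hT) hc' (fun x hx z hz => hc x (hT' hx) z (hT' hz))
  have hnbclq : ∀ v ∈ M, Clq G (nb G M v) := by
    intro v hv x hx z hz hxz
    by_contra hna
    rw [mem_nb] at hx hz
    exact hind3 v hv x hx.1 z hz.1 (Ne.symm hx.2.1) hxz (Ne.symm hz.2.1) hx.2.2 hna hz.2.2
  have hnbsub : ∀ (S : Finset V) v, nb G S v ⊆ S := fun S v => filter_subset _ _
  have hnb7 : ∀ v ∈ M, (nb G M v).card ≤ 7 := fun v hv => hclq7 _ (hnbsub M v) (hnbclq v hv)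
  have hsM := sum_nb G M
  rw [hM] at hsM
  obtain ⟨y, hy, hy7⟩ : ∃ y ∈ M, 7 ≤ (nb G M y).card := by
    by_contra hcon
    push Not at hcon
    have : ∑ v ∈ M, (nb G M v).card ≤ ∑ v ∈ M, 6 := sum_le_sum fun v hv => by
      have := hcon v hv
      omega
    rw [sum_const, hM, smul_eq_mul] at this
    omega
  obtain ⟨N, hN⟩ : ∃ N, N = nb G M y := ⟨_, rfl⟩
  obtain ⟨R, hR⟩ : ∃ R, R = M.filter (fun w => G.Adj y w) := ⟨_, rfl⟩
  have hNc : N.card = 7 := by rw [hN]; exact le_antisymm (hnb7 y hy) hy7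
  have hNM : N ⊆ M := by rw [hN]; exact hnbsub M y
  have hRM : R ⊆ M := by rw [hR]; exact filter_subset _ _
  have hNclq : Clq G N := by rw [hN]; exact hnbclq y hy
  have hRy : ∀ c ∈ R, G.Adj y c := fun c hc => by rw [hR, mem_filter] at hc; exact hc.2
  have hNy : ∀ c ∈ N, c ≠ y ∧ ¬ G.Adj y c := fun c hc => by rw [hN, mem_nb] at hc; exact hc.2
  have hyN : y ∉ N := fun h => (hNy y h).1 rfl
  have hyR : y ∉ R := fun h => G.irrefl (hRy y h)
  have hNR : Disjoint N R := by
    rw [Finset.disjoint_left]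
    intro c h1 h2
    exact (hNy c h1).2 (hRy c h2)
  have hMeq : M = insert y (N ∪ R) := by
    ext w
    rw [mem_insert, mem_union]
    constructor
    · intro hw
      by_cases h1 : w = y
      · exact Or.inl h1
      · by_cases h3 : G.Adj y w
        · right; right; rw [hR, mem_filter]; exact ⟨hw, h3⟩
        · right; left; rw [hN, mem_nb]; exact ⟨hw, h1, h3⟩
    · rintro (rfl | h | h)
      · exact hy
      · exact hNM h
      · exact hRM h
  have hRc : R.card = 7 := by
    have := congrArg Finset.card hMeq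
    rw [card_insert_of_notMem (by rw [mem_union]; tauto), card_union_of_disjoint hNR, hM, hNc] at this
    omega
  -- split of nb
  have hyNR : y ∉ N ∪ R := by rw [mem_union]; tauto
  have hsplit : ∀ v, (nb G M v).card = (nb G {y} v).card + (nb G N v).card + (nb G R v).card := by
    intro v
    have e1 : nb G M v = nb G {y} v ∪ (nb G N v ∪ nb G R v) := by
      ext w
      rw [mem_union, mem_union, mem_nb, mem_nb, mem_nb, mem_nb, hMeq, mem_insert, mem_union,
        mem_singleton]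
      tauto
    rw [e1, card_union_of_disjoint, card_union_of_disjoint, add_assoc]
    · exact disjoint_of_subset_left (hnbsub _ _) (disjoint_of_subset_right (hnbsub _ _) hNR)
    · rw [Finset.disjoint_left]
      intro w h1 h3
      have h4 := hnbsub _ _ h1
      rw [mem_singleton] at h4
      subst h4
      rw [mem_union] at h3
      rcases h3 with h | h
      · exact hyN (hnbsub _ _ h)
      · exact hyR (hnbsub _ _ h)
  have htotE : ∑ v ∈ M, (nb G M v).card = 14 + 2 * ∑ c ∈ R, (nb G N c).card + ∑ c ∈ R, (nb G R c).card := by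
    have e1 : ∑ v ∈ M, (nb G M v).card = (nb G M y).card + ∑ v ∈ N, (nb G M v).card +
        ∑ v ∈ R, (nb G M v).card := by
      conv_lhs => rw [hMeq]
      rw [sum_insert hyNR, sum_union hNR, ← hMeq, add_assoc]
    have e2' : ∑ v ∈ N, (nb G M v).card = 7 + ∑ c ∈ R, (nb G N c).card := by
      have h1 : ∀ v ∈ N, (nb G M v).card = 1 + (nb G R v).card := by
        intro v hv
        rw [hsplit v]
        have a1 : nb G {y} v = {y} := by
          ext w
          rw [mem_nb, mem_singleton]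
          constructor
          · exact fun h => h.1
          · rintro rfl
            exact ⟨rfl, (hNy v hv).1.symm, fun h => (hNy v hv).2 h.symm⟩
        have a2 : nb G N v = ∅ := by
          rw [eq_empty_iff_forall_notMem]
          intro w hw
          rw [mem_nb] at hw
          exact hw.2.2 (hNclq v hv w hw.1 hw.2.1.symm)
        rw [a1, a2, card_singleton, card_empty, add_zero]
      rw [sum_congr rfl h1, sum_add_distrib, sum_const, hNc, nb_comm G N R]
      rfl
    have e3 : ∑ v ∈ R, (nb G M v).card = ∑ c ∈ R, (nb G N c).card + ∑ c ∈ R, (nb G R c).card := by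
      rw [← sum_add_distrib]
      refine sum_congr rfl fun v hv => ?_
      rw [hsplit v]
      have a1 : nb G {y} v = ∅ := by
        rw [eq_empty_iff_forall_notMem]
        intro w hw
        rw [mem_nb, mem_singleton] at hw
        obtain ⟨rfl, _, h⟩ := hw
        exact h (hRy v hv).symm
      rw [a1, card_empty, zero_add]
    rw [← hN, hNc] at e1
    omega
  have htot : 84 ≤ 2 * ∑ c ∈ R, (nb G N c).card + ∑ c ∈ R, (nb G R c).card := by omega
  have hnby : ∀ c ∈ R, nb G {y} c = ∅ := by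
    intro v hv
    rw [eq_empty_iff_forall_notMem]
    intro w hw
    rw [mem_nb, mem_singleton] at hw
    obtain ⟨rfl, _, h⟩ := hw
    exact h (hRy v hv).symm
  have n1 : ∀ c ∈ R, (nb G N c).card + (nb G R c).card ≤ 7 := by
    intro c hc
    have h1 := hnb7 c (hRM hc)
    rw [hsplit c, hnby c hc, card_empty] at h1
    omega
  have n3 : ∀ S ⊆ M, ∀ a ∈ M, ∀ b ∈ M, a ≠ b → ¬ G.Adj a b →
      (nb G S a).card + (nb G S b).card ≤ S.card := by
    intro S hS a ha b hb hab hadj
    have hd : Disjoint (nb G S a) (nb G S b) := by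
      rw [Finset.disjoint_left]
      intro x h1 h3
      rw [mem_nb] at h1 h3
      exact hind3 a ha b hb x (hS h1.1) hab h3.2.1.symm h1.2.1.symm hadj h3.2.2 h1.2.2
    rw [← card_union_of_disjoint hd]
    exact card_le_card (union_subset (hnbsub _ _) (hnbsub _ _))
  have hdisj : ∀ a ∈ R, ∀ b ∈ R, ∀ c ∈ R, ∀ e ∈ R, a ≠ b → ¬ G.Adj a b → c ≠ e → ¬ G.Adj c e →
      a ≠ c → a ≠ e → b ≠ c → b ≠ e → False := by
    intro a ha b hb c hc e hee hab h1 hce h3 hac hae hbc hbe
    obtain ⟨Q, hQ⟩ : ∃ Q : Finset V, Q = {a, b, c, e} := ⟨_, rfl⟩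
    have hQc : Q.card = 4 := by
      rw [hQ, card_insert_of_notMem (by simp; tauto), card_insert_of_notMem (by simp; tauto),
        card_insert_of_notMem (by simp; tauto), card_singleton]
    have hQR : Q ⊆ R := by
      rw [hQ]
      intro w hw
      simp only [mem_insert, mem_singleton] at hw
      rcases hw with rfl|rfl|rfl|rfl <;> assumption
    have hQs : ∀ f : V → ℕ, ∑ v ∈ Q, f v = f a + f b + f c + f e := by
      intro f
      rw [hQ, sum_insert (by simp; tauto), sum_insert (by simp; tauto),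
        sum_insert (by simp; tauto), sum_singleton]
      ring
    have hRs : ∀ f : V → ℕ, ∑ v ∈ R, f v = ∑ v ∈ Q, f v + ∑ v ∈ R \ Q, f v := by
      intro f
      rw [add_comm, sum_sdiff hQR]
    have hRQc : (R \ Q).card = 3 := by
      rw [card_sdiff_of_subset hQR, hRc, hQc]
    have hdd : ∀ v, (nb G R v).card = (nb G Q v).card + (nb G (R \ Q) v).card := by
      intro v
      rw [← card_union_of_disjoint (disjoint_of_subset_left (hnbsub _ _)
        (disjoint_of_subset_right (hnbsub _ _) disjoint_sdiff))]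
      congr 1
      ext w
      rw [mem_union, mem_nb, mem_nb, mem_nb, mem_sdiff]
      have := @hQR w
      tauto
    have hQM := hQR.trans hRM
    have q1 := n3 Q hQM a (hRM ha) b (hRM hb) hab h1
    have q2 := n3 Q hQM c (hRM hc) e (hRM hee) hce h3
    have q3 := n3 N hNM a (hRM ha) b (hRM hb) hab h1
    have q4 := n3 N hNM c (hRM hc) e (hRM hee) hce h3
    have q5 : ∑ v ∈ Q, (nb G R v).card ≤ 8 + ∑ v ∈ R \ Q, (nb G R v).card := by
      rw [sum_congr rfl (fun v _ => hdd v), sum_add_distrib, hQs (fun v => (nb G Q v).card),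
        nb_comm G Q (R \ Q)]
      have : ∑ v ∈ R \ Q, (nb G Q v).card ≤ ∑ v ∈ R \ Q, (nb G R v).card :=
        sum_le_sum fun v _ => by rw [hdd v]; omega
      omega
    have q6 : ∑ v ∈ R \ Q, (nb G N v).card + ∑ v ∈ R \ Q, (nb G R v).card ≤ 21 := by
      rw [← sum_add_distrib]
      have : ∑ v ∈ R \ Q, ((nb G N v).card + (nb G R v).card) ≤ ∑ v ∈ R \ Q, 7 :=
        sum_le_sum fun v hv => n1 v (sdiff_subset hv)
      rw [sum_const, hRQc, smul_eq_mul] at this
      omega
    rw [hRs (fun v => (nb G N v).card), hRs (fun v => (nb G R v).card),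
      hQs (fun v => (nb G N v).card)] at htot
    rw [hQc] at q1 q2
    rw [hNc] at q3 q4
    omega
  have hedge : ∃ a ∈ R, ∃ b ∈ R, a ≠ b ∧ ¬ G.Adj a b := by
    by_contra hcon
    push Not at hcon
    have h1 : Clq G (insert y R) := by
      intro x hx z hz hxz
      rw [mem_insert] at hx hz
      rcases hx with rfl | hx
      · rcases hz with rfl | hz
        · exact absurd rfl hxz
        · exact hRy z hz
      · rcases hz with rfl | hz
        · exact (hRy x hx).symm
        · exact hcon x hx z hz hxz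
    have h3 := hclq7 _ (by rw [insert_subset_iff]; exact ⟨hy, hRM⟩) h1
    rw [card_insert_of_notMem hyR, hRc] at h3
    omega
  obtain ⟨a, ha, hstar, hne⟩ : ∃ a ∈ R, (∀ x ∈ R, ∀ z ∈ R, x ≠ z → ¬ G.Adj x z → x = a ∨ z = a) ∧
      ∃ b ∈ R, b ≠ a ∧ ¬ G.Adj a b := by
    obtain ⟨a, ha, b, hb, hab, hadj⟩ := hedge
    by_cases h1 : ∀ x ∈ R, ∀ z ∈ R, x ≠ z → ¬ G.Adj x z → x = a ∨ z = a
    · exact ⟨a, ha, h1, b, hb, hab.symm, hadj⟩
    · by_cases h3 : ∀ x ∈ R, ∀ z ∈ R, x ≠ z → ¬ G.Adj x z → x = b ∨ z = b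
      · exact ⟨b, hb, h3, a, ha, hab, fun h => hadj h.symm⟩
      · exfalso
        push Not at h1 h3
        obtain ⟨x, hx, z, hz, hxz, hxz', hxa, hza⟩ := h1
        obtain ⟨x', hx', z', hz', hxz1, hxz1', hxb, hzb⟩ := h3
        -- first edge contains b
        have p1 : x = b ∨ z = b := by
          by_contra hc
          push Not at hc
          exact hdisj a ha b hb x hx z hz hab hadj hxz hxz' hxa.symm hza.symm hc.1.symm hc.2.symm
        have p2 : x' = a ∨ z' = a := by
          by_contra hc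
          push Not at hc
          exact hdisj a ha b hb x' hx' z' hz' hab hadj hxz1 hxz1' hc.1.symm hc.2.symm hxb.symm hzb.symm
        obtain ⟨v, hv, hva, hvb, hvadj⟩ : ∃ v ∈ R, v ≠ a ∧ v ≠ b ∧ ¬ G.Adj b v := by
          rcases p1 with rfl | rfl
          · exact ⟨z, hz, hza, hxz.symm, hxz'⟩
          · exact ⟨x, hx, hxa, hxz, fun h => hxz' h.symm⟩
        obtain ⟨w, hw, hwb, hwa, hwadj⟩ : ∃ v ∈ R, v ≠ b ∧ v ≠ a ∧ ¬ G.Adj a v := by
          rcases p2 with rfl | rfl
          · exact ⟨z', hz', hzb, hxz1.symm, hxz1'⟩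
          · exact ⟨x', hx', hxb, hxz1, fun h => hxz1' h.symm⟩
        by_cases hvw : v = w
        · subst hvw
          exact hind3 a (hRM ha) b (hRM hb) v (hRM hv) hab hvb.symm hva.symm hadj hvadj hwadj
        · exact hdisj b hb v hv a ha w hw hvb.symm hvadj hwa.symm hwadj hab.symm hwb.symm hva hvw
  obtain ⟨D1, hD1⟩ : ∃ D1, D1 = nb G R a := ⟨_, rfl⟩
  obtain ⟨N1, hN1⟩ : ∃ N1, N1 = nb G N a := ⟨_, rfl⟩
  obtain ⟨D, hD⟩ : ∃ D, D = (R.erase a) \ D1 := ⟨_, rfl⟩
  have haN : a ∉ N := fun h => (Finset.disjoint_left.1 hNR) h ha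
  have haM := hRM ha
  have hay : a ≠ y := fun h => hyR (h ▸ ha)
  have hD1R : D1 ⊆ R.erase a := by
    intro x hx
    rw [hD1, mem_nb] at hx
    rw [mem_erase]
    exact ⟨hx.2.1, hx.1⟩
  have hDR : D ⊆ R.erase a := by rw [hD]; exact sdiff_subset
  have hDc : D.card + D1.card = 6 := by
    rw [hD, card_sdiff_of_subset hD1R, card_erase_of_mem ha, hRc]
    have := card_le_card hD1R
    rw [card_erase_of_mem ha, hRc] at this
    omega
  have hRsum : ∀ f : V → ℕ, ∑ v ∈ R, f v = f a + (∑ v ∈ D, f v + ∑ v ∈ D1, f v) := by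
    intro f
    rw [hD, sum_sdiff hD1R, add_sum_erase R f ha]
  have hd1 : ∀ v ∈ D1, (nb G R v).card ≤ 1 := by
    intro v hv
    have h1 : nb G R v ⊆ {a} := by
      intro w hw
      rw [mem_nb] at hw
      rw [mem_singleton]
      have hv' := hD1R hv
      rw [mem_erase] at hv'
      rcases hstar v hv'.2 w hw.1 hw.2.1.symm hw.2.2 with h | h
      · exact absurd h hv'.1
      · exact h
    have := card_le_card h1
    rwa [card_singleton] at this
  have hd0 : ∀ v ∈ D, (nb G R v).card = 0 := by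
    intro v hv
    rw [card_eq_zero, eq_empty_iff_forall_notMem]
    intro w hw
    rw [mem_nb] at hw
    have hv' := hDR hv
    rw [mem_erase] at hv'
    rcases hstar v hv'.2 w hw.1 hw.2.1.symm hw.2.2 with h | h
    · exact absurd h hv'.1
    · subst h
      rw [hD, mem_sdiff] at hv
      apply hv.2
      rw [hD1, mem_nb]
      exact ⟨hv'.2, hv'.1, fun h => hw.2.2 h.symm⟩
  have hs1 : 1 ≤ D1.card := by
    obtain ⟨b, hb, hba, hadj⟩ := hne
    refine card_pos.2 ⟨b, ?_⟩
    rw [hD1, mem_nb]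
    exact ⟨hb, hba, hadj⟩
  have hnD1 : ∀ v ∈ D1, N1.card + (nb G N v).card ≤ 7 := by
    intro v hv
    rw [hD1, mem_nb] at hv
    have := n3 N hNM a haM v (hRM hv.1) hv.2.1.symm hv.2.2
    rw [hNc] at this
    rw [hN1]
    exact this
  have hnD : ∀ v ∈ D, (nb G N v).card ≤ 7 := by
    intro v hv
    have := card_le_card (hnbsub N v)
    rwa [hNc] at this
  -- n(a) ≠ 0, 1
  have h8 : ∀ B ⊆ M, B.card = 8 → 4 ≤ ∑ v ∈ B, (nb G B v).card := by
    intro B hBM hBc
    have h1 := hB B hBM hBc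
    have h3 := sum_nb G B
    rw [hBc] at h3
    omega
  have hna2 : 2 ≤ N1.card := by
    have h1 := h8 (insert a N) (by rw [insert_subset_iff]; exact ⟨haM, hNM⟩)
      (by rw [card_insert_of_notMem haN, hNc])
    rw [sum_insert haN] at h1
    have e1 : (nb G (insert a N) a).card ≤ N1.card := by
      rw [hN1]
      refine card_le_card fun w hw => ?_
      rw [mem_nb, mem_insert] at hw
      rw [mem_nb]
      exact ⟨hw.1.resolve_left hw.2.1, hw.2⟩
    have e2' : ∑ v ∈ N, (nb G (insert a N) v).card ≤ ∑ v ∈ N, (nb G {a} v).card := by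
      refine sum_le_sum fun v hv => card_le_card fun w hw => ?_
      rw [mem_nb, mem_insert] at hw
      rw [mem_nb, mem_singleton]
      rcases hw.1 with h | h
      · exact ⟨h, hw.2⟩
      · exact absurd (hNclq v hv w h hw.2.1.symm) hw.2.2
    rw [nb_comm G N {a}, sum_singleton, ← hN1] at e2'
    omega
  have hs2 : 2 ≤ D1.card := by
    have h1 := h8 (insert y R) (by rw [insert_subset_iff]; exact ⟨hy, hRM⟩)
      (by rw [card_insert_of_notMem hyR, hRc])
    rw [sum_insert hyR] at h1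
    have e1 : (nb G (insert y R) y).card = 0 := by
      rw [card_eq_zero, eq_empty_iff_forall_notMem]
      intro w hw
      rw [mem_nb, mem_insert] at hw
      exact hw.2.2 (hRy w (hw.1.resolve_left hw.2.1))
    have e2' : ∑ v ∈ R, (nb G (insert y R) v).card ≤ ∑ v ∈ R, (nb G R v).card := by
      refine sum_le_sum fun v hv => card_le_card fun w hw => ?_
      rw [mem_nb, mem_insert] at hw
      rw [mem_nb]
      rcases hw.1 with h | h
      · subst h
        exact absurd (hRy v hv).symm hw.2.2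
      · exact ⟨h, hw.2⟩
    rw [hRsum (fun v => (nb G R v).card), ← hD1, sum_congr rfl hd0] at e2'
    have e3 : ∑ v ∈ D1, (nb G R v).card ≤ ∑ v ∈ D1, 1 := sum_le_sum hd1
    rw [sum_const, smul_eq_mul, mul_one] at e3
    rw [sum_const, smul_zero] at e2'
    omega
  -- counting
  have c1 : ∑ v ∈ D1, (nb G R v).card ≤ D1.card := by
    have e3 : ∑ v ∈ D1, (nb G R v).card ≤ ∑ v ∈ D1, 1 := sum_le_sum hd1
    rwa [sum_const, smul_eq_mul, mul_one] at e3
  have c2 : ∑ v ∈ D, (nb G R v).card = 0 := by rw [sum_congr rfl hd0, sum_const, smul_zero]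
  have c3 : ∑ v ∈ D1, (nb G N v).card + D1.card * N1.card ≤ D1.card * 7 := by
    have : ∑ v ∈ D1, (N1.card + (nb G N v).card) ≤ ∑ v ∈ D1, 7 := sum_le_sum hnD1
    rw [sum_add_distrib, sum_const, sum_const, smul_eq_mul, smul_eq_mul] at this
    omega
  have c4 : ∑ v ∈ D, (nb G N v).card ≤ D.card * 7 := by
    have : ∑ v ∈ D, (nb G N v).card ≤ ∑ v ∈ D, 7 := sum_le_sum hnD
    rwa [sum_const, smul_eq_mul] at this
  rw [hRsum (fun v => (nb G N v).card), hRsum (fun v => (nb G R v).card)] at htot htotE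
  rw [← hN1, ← hD1, c2] at htot htotE
  have hs6 : D1.card ≤ 6 := by omega
  have hn7 : N1.card ≤ 7 := by
    rw [hN1]
    have := card_le_card (hnbsub N a)
    rwa [hNc] at this
  have hkey : (D1.card - 1) * (N1.card - 1) ≤ 1 := by
    obtain ⟨s', hs'⟩ : ∃ s', D1.card = s' + 1 := ⟨D1.card - 1, by omega⟩
    obtain ⟨m', hm'⟩ : ∃ m', N1.card = m' + 1 := ⟨N1.card - 1, by omega⟩
    rw [hs', hm'] at c3
    rw [hs', hm', Nat.add_sub_cancel, Nat.add_sub_cancel]
    have e : (s' + 1) * (m' + 1) = s' * m' + s' + m' + 1 := by ring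
    rw [e] at c3
    rw [hs', hm'] at htot
    rw [hs'] at c1 hDc
    omega
  have hs : D1.card = 2 ∧ N1.card = 2 := by
    obtain ⟨s', hs'⟩ : ∃ s', D1.card = s' + 2 := ⟨D1.card - 2, by omega⟩
    obtain ⟨m', hm'⟩ : ∃ m', N1.card = m' + 2 := ⟨N1.card - 2, by omega⟩
    rw [hs', hm'] at hkey
    have e1 : s' + 2 - 1 = s' + 1 := by omega
    have e3 : m' + 2 - 1 = m' + 1 := by omega
    rw [e1, e3] at hkey
    have e : (s' + 1) * (m' + 1) = s' * m' + s' + m' + 1 := by ring
    rw [e] at hkey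
    omega
  obtain ⟨hsD, hsN⟩ := hs
  rw [hsD, hsN] at htot c3
  rw [hsD] at c1 hDc
  have hD4 : D.card = 4 := by omega
  rw [hD4] at c4
  rw [hsD, hsN] at htotE
  have t1 : ∑ v ∈ D1, (nb G N v).card = 10 := by omega
  have t2 : ∑ v ∈ D, (nb G N v).card = 28 := by omega
  have u1 : ∀ v ∈ D, nb G N v = N := by
    intro v hv
    refine eq_of_subset_of_card_le (hnbsub _ _) ?_
    rw [hNc]
    by_contra hlt
    have h1 : ∑ v ∈ D, (nb G N v).card < ∑ v ∈ D, 7 :=
      sum_lt_sum hnD ⟨v, hv, by omega⟩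
    rw [sum_const, hD4, smul_eq_mul] at h1
    omega
  have u2 : ∀ v ∈ D1, nb G N v = N \ N1 := by
    intro v hv
    have hv' := hv
    rw [hD1, mem_nb] at hv'
    have h0 : nb G N v ⊆ N \ N1 := by
      intro w hw
      rw [mem_sdiff]
      refine ⟨hnbsub _ _ hw, fun hw1 => ?_⟩
      rw [hN1, mem_nb] at hw1
      rw [mem_nb] at hw
      exact hind3 a haM v (hRM hv'.1) w (hNM hw.1) hv'.2.1.symm hw.2.1.symm hw1.2.1.symm
        hv'.2.2 hw.2.2 hw1.2.2
    refine eq_of_subset_of_card_le h0 ?_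
    have hc5 : (N \ N1).card = 5 := by
      rw [card_sdiff_of_subset (by rw [hN1]; exact hnbsub _ _), hNc, hsN]
    rw [hc5]
    by_contra hlt
    have h1 : ∑ v ∈ D1, (nb G N v).card < ∑ v ∈ D1, 5 := by
      refine sum_lt_sum (fun v hv => ?_) ⟨v, hv, by omega⟩
      have := hnD1 v hv
      omega
    rw [sum_const, hsD, smul_eq_mul] at h1
    omega
  have hN1N : N1 ⊆ N := by rw [hN1]; exact hnbsub _ _
  have hyD : y ∉ D := fun h => hyR (mem_of_mem_erase (hDR h))
  refine ⟨by omega, a, N1, N \ N1, insert y D, D1, haM, hN1N.trans hNM, sdiff_subset.trans hNM,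
    ?_, (hD1R.trans (erase_subset _ _)).trans hRM, hsN, ?_, ?_, hsD, ?_, disjoint_sdiff, ?_, ?_,
    ?_, ?_, ?_, ?_, ?_, ?_, ?_, ?_⟩
  · rw [insert_subset_iff]
    exact ⟨hy, (hDR.trans (erase_subset _ _)).trans hRM⟩
  · rw [card_sdiff_of_subset hN1N, hNc, hsN]
  · rw [card_insert_of_notMem hyD, hD4]
  · rw [union_sdiff_of_subset hN1N, mem_union, mem_union, mem_insert]
    rintro ((h | h | h) | h)
    · exact haN h
    · exact hay h
    · exact (mem_erase.1 (hDR h)).1 rfl
    · exact (mem_erase.1 (hD1R h)).1 rfl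
  · rw [Finset.disjoint_left]
    intro w h1 h3
    rw [mem_insert] at h1
    rcases h1 with rfl | h1
    · exact hyR (mem_of_mem_erase (hD1R h3))
    · rw [hD, mem_sdiff] at h1
      exact h1.2 h3
  · rw [union_sdiff_of_subset hN1N, Finset.disjoint_left]
    intro w h1 h3
    rw [mem_union, mem_insert] at h3
    rcases h3 with (rfl | h) | h
    · exact hyN h1
    · exact (Finset.disjoint_left.1 hNR) h1 (mem_of_mem_erase (hDR h))
    · exact (Finset.disjoint_left.1 hNR) h1 (mem_of_mem_erase (hD1R h))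
  · rw [union_sdiff_of_subset hN1N]
    exact hNclq
  · have hmem : ∀ w ∈ insert y D ∪ D1, w = y ∨ (w ∈ R ∧ w ≠ a) := by
      intro w hw
      rw [mem_union, mem_insert] at hw
      rcases hw with (rfl | h) | h
      · exact Or.inl rfl
      · exact Or.inr ⟨(mem_erase.1 (hDR h)).2, (mem_erase.1 (hDR h)).1⟩
      · exact Or.inr ⟨(mem_erase.1 (hD1R h)).2, (mem_erase.1 (hD1R h)).1⟩
    intro x hx z hz hxz
    rcases hmem x hx with hx1 | hx1
    · rcases hmem z hz with hz1 | hz1
      · exact absurd (hx1.trans hz1.symm) hxz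
      · rw [hx1]
        exact hRy z hz1.1
    · rcases hmem z hz with hz1 | hz1
      · rw [hz1]
        exact (hRy x hx1.1).symm
      · by_contra hna
        rcases hstar x hx1.1 z hz1.1 hxz hna with h | h
        · exact hx1.2 h
        · exact hz1.2 h
  · intro x hx
    rw [hN1, mem_nb] at hx
    exact hx.2.2
  · intro x hx
    rw [hD1, mem_nb] at hx
    exact hx.2.2
  · intro x hx
    rw [mem_sdiff] at hx
    by_contra hna
    apply hx.2
    rw [hN1, mem_nb]
    exact ⟨hx.1, fun h => haN (h ▸ hx.1), hna⟩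
  · intro x hx
    rw [mem_insert] at hx
    rcases hx with rfl | hx
    · exact (hRy a ha).symm
    · by_contra hna
      have h1 := mem_erase.1 (hDR hx)
      rw [hD, mem_sdiff] at hx
      apply hx.2
      rw [hD1, mem_nb]
      exact ⟨h1.2, h1.1, hna⟩
  · intro x hx z hz hadj
    have hxN := (mem_sdiff.1 hx).1
    rw [mem_union, mem_insert] at hz
    rcases hz with (rfl | h) | h
    · exact (hNy x hxN).2 hadj.symm
    · have h1 := u1 z h
      rw [← h1, mem_nb] at hxN
      exact hxN.2.2 hadj.symm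
    · have h1 := u2 z h
      rw [← h1, mem_nb] at hx
      exact hx.2.2 hadj.symm
  · intro x hx z hz hadj
    have hxN := hN1N hx
    rw [mem_insert] at hz
    rcases hz with rfl | h
    · exact (hNy x hxN).2 hadj.symm
    · have h1 := u1 z h
      rw [← h1, mem_nb] at hxN
      exact hxN.2.2 hadj.symm

end Pool.Agent.Helper351.EG
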