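import Pool.Agent.Helper351.EG.Main7

set_option autoImplicit false

namespace Pool.Agent.Helper351.EG

open Finset

theorem T5 {V : Type} [DecidableEq V] (G : SimpleGraph V) [DecidableRel G.Adj]
    (F B T : Finset V) (hF : F.card = 32) (h4 : IndLe G F 4) (hδ : ∀ v ∈ F, 8 ≤ deg G F v)
    (he : e2 G F ≤ 266) (hB : B ⊆ F) (hBc : B.card = 8) (hBe : 54 ≤ e2 G B)
    (hout : ∀ x ∈ F, x ∉ B → deg G B x ≤ 2)
    (hT : T ⊆ F \ B) (hTi : Ind G T) (hTc : T.card = 4) : False := by
  classical
  have hTF : T ⊆ F := fun t ht => (mem_sdiff.mp (hT ht)).1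
  have hTB : ∀ t ∈ T, t ∉ B := fun t ht => (mem_sdiff.mp (hT ht)).2
  have hBT : ∀ b ∈ B, b ∉ T := fun b hb h => hTB b h hb
  have hswap : ∀ S : Finset V, ∑ t ∈ T, deg G S t = ∑ w ∈ S, deg G T w := by
    intro S
    unfold deg
    simp only [Finset.card_filter]
    rw [Finset.sum_comm]
    refine Finset.sum_congr rfl fun w _ => Finset.sum_congr rfl fun t _ => ?_
    exact if_congr (G.adj_comm t w) rfl rfl
  have hone : ∀ w ∈ F \ T, 1 ≤ deg G T w := by
    intro w hw
    rw [Finset.mem_sdiff] at hw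
    by_contra hcon
    have h0 : deg G T w = 0 := by omega
    unfold deg at h0
    rw [Finset.card_eq_zero, Finset.filter_eq_empty_iff] at h0
    have hind : Ind G (insert w T) := by
      intro x hx y hy
      rw [Finset.mem_insert] at hx hy
      rcases hx with rfl | hx <;> rcases hy with rfl | hy
      · exact G.irrefl
      · exact h0 hy
      · exact fun h => h0 hx h.symm
      · exact hTi x hx y hy
    have h1 := h4 (insert w T) (Finset.insert_subset hw.1 hTF) hind
    rw [Finset.card_insert_of_notMem hw.2] at h1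
    omega
  have hB1 : ∀ b ∈ B, deg G T b = 1 := by
    have hs : ∑ b ∈ B, deg G T b ≤ 8 := by
      rw [← hswap B]
      calc ∑ t ∈ T, deg G B t ≤ ∑ t ∈ T, 2 :=
            sum_le_sum (fun t ht => hout t (hTF ht) (hTB t ht))
        _ = 8 := by rw [sum_const, hTc]; rfl
    intro b hb
    by_contra hne
    have h1 : ∀ b ∈ B, 1 ≤ deg G T b := fun b hb => hone b (mem_sdiff.mpr ⟨hB hb, hBT b hb⟩)
    have h2 := h1 b hb
    have h3 : ∑ b' ∈ B, 1 < ∑ b' ∈ B, deg G T b' := sum_lt_sum h1 ⟨b, hb, by omega⟩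
    rw [sum_const, hBc, smul_eq_mul] at h3
    omega
  have hT2 : ∀ t ∈ T, deg G B t = 2 := by
    intro t ht
    by_contra hne
    have h2 := hout t (hTF ht) (hTB t ht)
    have h3 : ∑ t' ∈ T, deg G B t' < ∑ t' ∈ T, 2 :=
      sum_lt_sum (fun t' ht' => hout t' (hTF ht') (hTB t' ht')) ⟨t, ht, by omega⟩
    rw [hswap B, sum_congr rfl hB1, sum_const, sum_const, hBc, hTc, smul_eq_mul, smul_eq_mul] at h3
    omega
  let Pr : V → Finset V := fun t => (F \ T).filter (fun w => T.filter (fun s => G.Adj w s) = {t})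
  have hPrmem : ∀ t w, w ∈ Pr t ↔ (w ∈ F ∧ w ∉ T) ∧ T.filter (fun s => G.Adj w s) = {t} := by
    intro t w
    simp only [Pr, Finset.mem_filter, Finset.mem_sdiff]
  have honly : ∀ t, ∀ w ∈ Pr t, ∀ s ∈ T, G.Adj w s → s = t := by
    intro t w hw s hs hws
    have h := ((hPrmem t w).mp hw).2
    have h2 : s ∈ T.filter (fun s => G.Adj w s) := Finset.mem_filter.mpr ⟨hs, hws⟩
    rw [h] at h2
    exact Finset.mem_singleton.mp h2
  have hPadj : ∀ t, ∀ w ∈ Pr t, G.Adj w t := by
    intro t w hw
    have h := ((hPrmem t w).mp hw).2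
    have h2 : t ∈ T.filter (fun s => G.Adj w s) := by rw [h]; exact Finset.mem_singleton_self t
    exact (Finset.mem_filter.mp h2).2
  have hcl : ∀ t ∈ T, ∀ a ∈ Pr t, ∀ b ∈ Pr t, a ≠ b → G.Adj a b := by
    intro t ht a ha b hb hab
    by_contra hnab
    have haW := ((hPrmem t a).mp ha).1
    have hbW := ((hPrmem t b).mp hb).1
    have hind : Ind G (insert a (insert b (T.erase t))) := by
      have haT : ∀ s ∈ T.erase t, ¬ G.Adj a s := by
        intro s hs h
        rw [Finset.mem_erase] at hs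
        exact hs.1 (honly t a ha s hs.2 h)
      have hbT : ∀ s ∈ T.erase t, ¬ G.Adj b s := by
        intro s hs h
        rw [Finset.mem_erase] at hs
        exact hs.1 (honly t b hb s hs.2 h)
      intro x hx y hy
      rw [Finset.mem_insert, Finset.mem_insert] at hx hy
      rcases hx with hx | hx | hx <;> rcases hy with hy | hy | hy
      · rw [hx, hy]; exact G.irrefl
      · rw [hx, hy]; exact hnab
      · rw [hx]; exact haT y hy
      · rw [hx, hy]; exact fun h => hnab h.symm
      · rw [hx, hy]; exact G.irrefl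
      · rw [hx]; exact hbT y hy
      · rw [hy]; exact fun h => haT x hx h.symm
      · rw [hy]; exact fun h => hbT x hx h.symm
      · exact hTi x (Finset.mem_of_mem_erase hx) y (Finset.mem_of_mem_erase hy)
    have hsubW : insert a (insert b (T.erase t)) ⊆ F :=
      Finset.insert_subset haW.1 (Finset.insert_subset hbW.1
        ((Finset.erase_subset t T).trans hTF))
    have h1 := h4 _ hsubW hind
    have hbn : b ∉ T.erase t := fun h => hbW.2 (Finset.mem_of_mem_erase h)
    have han : a ∉ insert b (T.erase t) := by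
      rw [Finset.mem_insert]
      rintro (h | h)
      · exact hab h
      · exact haW.2 (Finset.mem_of_mem_erase h)
    rw [Finset.card_insert_of_notMem han, Finset.card_insert_of_notMem hbn,
      Finset.card_erase_of_mem ht, hTc] at h1
    omega
  -- elements of B adjacent to t are private
  have hBPr : ∀ t ∈ T, ∀ x ∈ B, G.Adj t x → x ∈ Pr t := by
    intro t ht x hx hadj
    rw [hPrmem]
    refine ⟨⟨hB hx, hBT x hx⟩, ?_⟩
    have h1 : (T.filter (fun s => G.Adj x s)).card = 1 := hB1 x hx
    obtain ⟨s, hs⟩ := card_eq_one.mp h1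
    have h2 : t ∈ T.filter (fun s => G.Adj x s) := mem_filter.mpr ⟨ht, hadj.symm⟩
    rw [hs] at h2 ⊢
    rw [mem_singleton.mp h2]
  -- degrees in B
  have hsubE : ∀ b ∈ B, B.filter (fun w => G.Adj b w) ⊆ B.erase b := by
    intro b _ w hw
    rw [mem_filter] at hw
    rw [mem_erase]
    exact ⟨fun h => G.irrefl (h ▸ hw.2), hw.1⟩
  have hdB : ∀ b ∈ B, deg G B b ≤ 7 := by
    intro b hb
    have h1 := card_le_card (hsubE b hb)
    rw [card_erase_of_mem hb, hBc] at h1
    exact h1
  have hfull : ∀ b ∈ B, deg G B b = 7 → ∀ z ∈ B, z ≠ b → G.Adj b z := by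
    intro b hb h7 z hz hzb
    have h1 : B.filter (fun w => G.Adj b w) = B.erase b := by
      apply eq_of_subset_of_card_le (hsubE b hb)
      rw [card_erase_of_mem hb, hBc]
      exact h7.ge
    have h2 : z ∈ B.filter (fun w => G.Adj b w) := by
      rw [h1, mem_erase]; exact ⟨hzb, hz⟩
    exact (mem_filter.mp h2).2
  have hnf : ∀ x ∈ B, deg G B x ≠ 7 → ∃ z ∈ B, z ≠ x ∧ ¬ G.Adj x z := by
    intro x hx hne
    by_contra hcon
    push Not at hcon
    apply hne
    have h1 : B.filter (fun w => G.Adj x w) = B.erase x := by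
      apply Subset.antisymm (hsubE x hx)
      intro z hz
      rw [mem_erase] at hz
      exact mem_filter.mpr ⟨hz.2, hcon z hz.2 hz.1⟩
    show (B.filter (fun w => G.Adj x w)).card = 7
    rw [h1, card_erase_of_mem hx, hBc]
  have h3 : ∀ x ∈ B, ∀ y ∈ B, ∀ z ∈ B, x ≠ y → x ≠ z → y ≠ z → deg G B x ≠ 7 →
      deg G B y ≠ 7 → deg G B z ≠ 7 → False := by
    intro x hx y hy z hz hxy hxz hyz h7x h7y h7z
    have hs : ∑ b ∈ B, (deg G B b + if b ∈ ({x, y, z} : Finset V) then 1 else 0) ≤ ∑ b ∈ B, 7 := by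
      apply sum_le_sum
      intro b hb
      have h1 := hdB b hb
      split_ifs with h2
      · rw [mem_insert, mem_insert, mem_singleton] at h2
        rcases h2 with rfl | rfl | rfl <;> omega
      · omega
    rw [sum_add_distrib, sum_const, hBc, smul_eq_mul, ← card_filter] at hs
    have hsub : ({x, y, z} : Finset V) ⊆ B.filter (fun b => b ∈ ({x, y, z} : Finset V)) := by
      intro b hb
      refine mem_filter.mpr ⟨?_, hb⟩
      rw [mem_insert, mem_insert, mem_singleton] at hb
      rcases hb with rfl | rfl | rfl <;> assumption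
    have hc := card_le_card hsub
    rw [card_eq_three.mpr ⟨x, y, z, hxy, hxz, hyz, rfl⟩] at hc
    have he' : e2 G B = ∑ b ∈ B, deg G B b := rfl
    omega
  have hex : ∀ t ∈ T, ∃ b ∈ B, G.Adj t b ∧ deg G B b = 7 := by
    intro t ht
    have hc : (B.filter (fun w => G.Adj t w)).card = 2 := hT2 t ht
    obtain ⟨x, y, hxy, hN⟩ := card_eq_two.mp hc
    have hx : x ∈ B.filter (fun w => G.Adj t w) := by rw [hN]; simp
    have hy : y ∈ B.filter (fun w => G.Adj t w) := by rw [hN]; simp
    rw [mem_filter] at hx hy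
    by_contra hcon
    push Not at hcon
    have h7x := hcon x hx.1 hx.2
    have h7y := hcon y hy.1 hy.2
    obtain ⟨z, hz, hzx, hnz⟩ := hnf x hx.1 h7x
    by_cases hzy : z = y
    · subst hzy
      exact hnz (hcl t ht x (hBPr t ht x hx.1 hx.2) z (hBPr t ht z hy.1 hy.2) hxy)
    · have h7z : deg G B z ≠ 7 := fun h => hnz ((hfull z hz h x hx.1 hzx.symm).symm)
      exact h3 x hx.1 y hy.1 z hz hxy hzx.symm (fun h => hzy h.symm) h7x h7y h7z
  choose! b hbB hbt hb7 using hex
  have hPrc : ∀ t ∈ T, (Pr t).card + 6 ≤ deg G F (b t) := by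
    intro t ht
    have hbP := hBPr t ht (b t) (hbB t ht) (hbt t ht)
    have hsub1 : insert t (B.erase (b t)) ⊆ F.filter (fun w => G.Adj (b t) w) := by
      intro z hz
      rw [mem_insert, mem_erase] at hz
      rw [mem_filter]
      rcases hz with rfl | ⟨hz1, hz2⟩
      · exact ⟨hTF ht, (hbt z ht).symm⟩
      · exact ⟨hB hz2, hfull (b t) (hbB t ht) (hb7 t ht) z hz2 hz1⟩
    have hc1 := card_sdiff_add_card_eq_card hsub1
    have hc2 : (insert t (B.erase (b t))).card = 8 := by
      rw [card_insert_of_notMem (fun h => hTB t ht (mem_of_mem_erase h)),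
        card_erase_of_mem (hbB t ht), hBc]
    have hsub2 : Pr t ⊆ (B.filter (fun w => G.Adj t w)) ∪
        ((F.filter (fun w => G.Adj (b t) w)) \ (insert t (B.erase (b t)))) := by
      intro w hw
      rw [mem_union, mem_filter, mem_sdiff, mem_filter, mem_insert, mem_erase]
      by_cases hwB : w ∈ B
      · exact Or.inl ⟨hwB, (hPadj t w hw).symm⟩
      · right
        have hw1 := ((hPrmem t w).mp hw).1
        have hne : b t ≠ w := fun h => hwB (h ▸ hbB t ht)
        refine ⟨⟨hw1.1, hcl t ht (b t) hbP w hw hne⟩, ?_⟩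
        rintro (h | h)
        · exact hw1.2 (h ▸ ht)
        · exact hwB h.2
    have hc3 := (card_le_card hsub2).trans (card_union_le _ _)
    have hc4 : (B.filter (fun w => G.Adj t w)).card = 2 := hT2 t ht
    have hc5 : (F.filter (fun w => G.Adj (b t) w)).card = deg G F (b t) := rfl
    omega
  let S1 : Finset V := (F \ T).filter (fun w => deg G T w = 1)
  have hS1 : S1.card ≤ ∑ t ∈ T, (Pr t).card := by
    have hsub1 : S1 ⊆ T.biUnion Pr := by
      intro w hw
      have hw' := Finset.mem_filter.mp hw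
      have h1 : (T.filter (fun s => G.Adj w s)).card = 1 := hw'.2
      obtain ⟨t, ht⟩ := Finset.card_eq_one.mp h1
      rw [Finset.mem_biUnion]
      refine ⟨t, ?_, ?_⟩
      · have h2 : t ∈ T.filter (fun s => G.Adj w s) := by
          rw [ht]; exact Finset.mem_singleton_self t
        exact (Finset.mem_filter.mp h2).1
      · exact (hPrmem t w).mpr ⟨Finset.mem_sdiff.mp hw'.1, ht⟩
    exact (Finset.card_le_card hsub1).trans Finset.card_biUnion_le
  have hsum : 2 * (F \ T).card ≤ ∑ w ∈ F \ T, deg G T w + S1.card := by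
    have h1 : S1.card = ∑ w ∈ F \ T, (if deg G T w = 1 then 1 else 0) := by
      simp only [S1, Finset.card_filter]
    rw [h1, ← Finset.sum_add_distrib, mul_comm, ← smul_eq_mul, ← Finset.sum_const]
    refine Finset.sum_le_sum fun w hw => ?_
    have h2 := hone w hw
    split_ifs with h3 <;> omega
  have hcF : (F \ T).card + T.card = F.card := by
    rw [Finset.card_sdiff_add_card, Finset.union_eq_left.mpr hTF]
  have hsub : ∑ w ∈ F \ T, deg G T w ≤ ∑ w ∈ F, deg G T w :=
    Finset.sum_le_sum_of_subset Finset.sdiff_subset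
  rw [← hswap F] at hsub
  have hPsum : ∑ t ∈ T, (Pr t).card + 24 ≤ ∑ t ∈ T, deg G F (b t) := by
    have h1 := sum_le_sum hPrc
    rw [sum_add_distrib, sum_const, hTc, smul_eq_mul] at h1
    omega
  have hinj : Set.InjOn b (T : Set V) := by
    intro t ht t' ht' htt
    have ht1 : t ∈ T := mem_coe.mp ht
    have ht2 : t' ∈ T := mem_coe.mp ht'
    have h1 := hBPr t ht1 (b t) (hbB t ht1) (hbt t ht1)
    have h2 : G.Adj (b t) t' := by rw [htt]; exact (hbt t' ht2).symm
    exact (honly t (b t) h1 t' ht2 h2).symm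
  have hdisj : Disjoint T (T.image b) := by
    rw [disjoint_left]
    intro v hv hv'
    obtain ⟨t, ht, rfl⟩ := mem_image.mp hv'
    exact hTB _ hv (hbB t ht)
  have hUF : T ∪ T.image b ⊆ F := by
    intro v hv
    rcases mem_union.mp hv with h | h
    · exact hTF h
    · obtain ⟨t, ht, rfl⟩ := mem_image.mp h
      exact hB (hbB t ht)
  have hUc : (T ∪ T.image b).card = 8 := by
    rw [card_union_of_disjoint hdisj, card_image_of_injOn hinj, hTc]
  have hUs : ∑ v ∈ T ∪ T.image b, deg G F v = ∑ t ∈ T, deg G F t + ∑ t ∈ T, deg G F (b t) := by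
    rw [sum_union hdisj, sum_image hinj]
  have htot := sum_sdiff (f := fun v => deg G F v) hUF
  have hrest : 8 * (F \ (T ∪ T.image b)).card ≤ ∑ v ∈ F \ (T ∪ T.image b), deg G F v := by
    rw [mul_comm, ← smul_eq_mul, ← sum_const]
    exact sum_le_sum (fun v hv => hδ v (mem_sdiff.mp hv).1)
  have hrc := card_sdiff_add_card_eq_card hUF
  have he' : e2 G F = ∑ v ∈ F, deg G F v := rfl
  omega

end Pool.Agent.Helper351.EG
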