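import Pool.Agent.Helper351.EG.Count

set_option autoImplicit false

namespace Pool.Agent.Helper351.EG

open Finset

theorem z2_e2_clq {V : Type} [DecidableEq V] (G : SimpleGraph V) [DecidableRel G.Adj]
    (K : Finset V) (h : Clq G K) : e2 G K = K.card * (K.card - 1) := by
  unfold e2
  rw [sum_const_nat (m := K.card - 1)]
  intro v hv
  unfold deg
  rw [← card_erase_of_mem hv]
  congr 1
  ext w
  simp only [mem_filter, mem_erase]
  constructor
  · rintro ⟨hw, ha⟩; exact ⟨(G.ne_of_adj ha).symm, hw⟩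
  · rintro ⟨hne, hw⟩; exact ⟨hw, h v hv w hw (Ne.symm hne)⟩

theorem z2_deg_mono {V : Type} [DecidableEq V] (G : SimpleGraph V) [DecidableRel G.Adj]
    {A B : Finset V} (h : A ⊆ B) (v : V) : deg G A v ≤ deg G B v :=
  card_le_card (filter_subset_filter _ h)

theorem z2_deg_union {V : Type} [DecidableEq V] (G : SimpleGraph V) [DecidableRel G.Adj]
    (A B : Finset V) (h : Disjoint A B) (v : V) : deg G (A ∪ B) v = deg G A v + deg G B v := by
  unfold deg
  rw [filter_union, card_union_of_disjoint (disjoint_filter_filter h)]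

theorem z2_aux {V : Type} [DecidableEq V] (G : SimpleGraph V) [DecidableRel G.Adj]
    (F K : Finset V) (h9 : ∀ B ⊆ F, B.card = 9 → e2 G B ≤ 58) (hK : K ⊆ F) (hc : K.card = 7)
    (hq : Clq G K) (a z : V) (ha : a ∉ K) (haF : a ∈ F) (h5 : 5 ≤ deg G K a) (hz : z ∉ insert a K)
    (hzF : z ∈ F) : deg G K z + (if G.Adj z a then 1 else 0) ≤ 3 := by
  have hB := h9 (insert z (insert a K))
    (insert_subset hzF (insert_subset haF hK))
    (by rw [card_insert_of_notMem hz, card_insert_of_notMem ha, hc])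
  have e1 := e2_insert251 G (insert a K) z hz
  have e2' := e2_insert251 G K a ha
  have e3 := z2_e2_clq G K hq
  have e4 : deg G (insert a K) z = deg G K z + (if G.Adj z a then 1 else 0) := by
    rw [insert_eq, z2_deg_union G {a} K (disjoint_singleton_left.mpr ha), add_comm]
    congr 1
    unfold deg
    by_cases h : G.Adj z a
    · simp [filter_singleton, h]
    · simp [filter_singleton, h]
  rw [hc] at e3
  rw [e1, e2', e3, e4] at hB
  omega

theorem z2_unc {V : Type} [DecidableEq V] (G : SimpleGraph V) [DecidableRel G.Adj]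
    (K : Finset V) (x x' : V) (h : deg G K x + deg G K x' < K.card) :
    ∃ n ∈ K, ¬ G.Adj x n ∧ ¬ G.Adj x' n := by
  by_contra hcon
  push Not at hcon
  have hsub : K ⊆ K.filter (fun w => G.Adj x w) ∪ K.filter (fun w => G.Adj x' w) := by
    intro n hn
    rw [mem_union, mem_filter, mem_filter]
    by_cases hx : G.Adj x n
    · exact Or.inl ⟨hn, hx⟩
    · exact Or.inr ⟨hn, hcon n hn hx⟩
  have := (card_le_card hsub).trans (card_union_le _ _)
  unfold deg at h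
  omega

theorem z2_ind4 {V : Type} [DecidableEq V] (G : SimpleGraph V) [DecidableRel G.Adj]
    (F : Finset V) (h3 : IndLe G F 3) (p q r s : V) (hp : p ∈ F) (hq : q ∈ F) (hr : r ∈ F)
    (hs : s ∈ F) (pq : p ≠ q) (pr : p ≠ r) (ps : p ≠ s) (qr : q ≠ r) (qs : q ≠ s) (rs : r ≠ s)
    (npq : ¬ G.Adj p q) (npr : ¬ G.Adj p r) (nps : ¬ G.Adj p s) (nqr : ¬ G.Adj q r)
    (nqs : ¬ G.Adj q s) (nrs : ¬ G.Adj r s) : False := by
  have h := h3 {p, q, r, s} (by
    intro v hv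
    simp only [mem_insert, mem_singleton] at hv
    rcases hv with rfl | rfl | rfl | rfl <;> assumption) (by
    intro u hu v hv
    simp only [mem_insert, mem_singleton] at hu hv
    rcases hu with rfl | rfl | rfl | rfl <;> rcases hv with rfl | rfl | rfl | rfl <;>
      first
      | exact G.irrefl
      | assumption
      | (rw [G.adj_comm]; assumption))
  have hc : ({p, q, r, s} : Finset V).card = 4 := by
    rw [card_insert_of_notMem (by simp [pq, pr, ps]), card_insert_of_notMem (by simp [qr, qs]),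
      card_insert_of_notMem (by simp [rs]), card_singleton]
  omega

theorem Z2 {V : Type} [DecidableEq V] (G : SimpleGraph V) [DecidableRel G.Adj]
    (F M : Finset V) (h3 : IndLe G F 3) (hMF : M ⊆ F) (x x' : V) (hx : x ∈ F) (hx' : x' ∈ F)
    (hxM : x ∉ M) (hxM' : x' ∉ M) (hne : x ≠ x') (hna : ¬ G.Adj x x')
    (h9 : ∀ B ⊆ F, B.card = 9 → e2 G B ≤ 58)
    (a : V) (N1 N2 D0 D1 : Finset V) (haM : a ∈ M) (h1M : N1 ⊆ M) (h2M : N2 ⊆ M) (h3M : D0 ⊆ M)
    (h4M : D1 ⊆ M) (c1 : N1.card = 2) (c2 : N2.card = 5) (c3 : D0.card = 5) (c4 : D1.card = 2)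
    (ha : a ∉ N1 ∪ N2 ∪ D0 ∪ D1) (d1 : Disjoint N1 N2) (d2 : Disjoint D0 D1)
    (d3 : Disjoint (N1 ∪ N2) (D0 ∪ D1))
    (q1 : Clq G (N1 ∪ N2)) (q2 : Clq G (D0 ∪ D1)) (a1 : ∀ x ∈ N1, ¬ G.Adj a x)
    (a2 : ∀ x ∈ D1, ¬ G.Adj a x) (a3 : ∀ x ∈ N2, G.Adj a x) (a4 : ∀ x ∈ D0, G.Adj a x)
    (n1 : ∀ x ∈ N2, ∀ y ∈ D0 ∪ D1, ¬ G.Adj x y) (n2 : ∀ x ∈ N1, ∀ y ∈ D0, ¬ G.Adj x y) :
    5 ≤ deg G M x := by
  simp only [mem_union, not_or] at ha
  obtain ⟨⟨⟨ha1, ha2⟩, ha3⟩, ha4⟩ := ha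
  have hKM : N1 ∪ N2 ⊆ M := union_subset h1M h2M
  have hKM' : D0 ∪ D1 ⊆ M := union_subset h3M h4M
  have haK : a ∉ N1 ∪ N2 := by simp [ha1, ha2]
  have haK' : a ∉ D0 ∪ D1 := by simp [ha3, ha4]
  have cK : (N1 ∪ N2).card = 7 := by rw [card_union_of_disjoint d1, c1, c2]
  have cK' : (D0 ∪ D1).card = 7 := by rw [card_union_of_disjoint d2, c3, c4]
  have d5 : 5 ≤ deg G (N1 ∪ N2) a := by
    refine le_trans ?_ (z2_deg_mono G (subset_union_right : N2 ⊆ N1 ∪ N2) a)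
    unfold deg
    rw [filter_true_of_mem a3, c2]
  have d5' : 5 ≤ deg G (D0 ∪ D1) a := by
    refine le_trans ?_ (z2_deg_mono G (subset_union_left : D0 ⊆ D0 ∪ D1) a)
    unfold deg
    rw [filter_true_of_mem a4, c3]
  have b1 : ∀ z ∈ F, z ∉ M → deg G (N1 ∪ N2) z + (if G.Adj z a then 1 else 0) ≤ 3 := by
    intro z hz hzM
    refine z2_aux G F _ h9 (hKM.trans hMF) cK q1 a z haK (hMF haM) d5 ?_ hz
    rw [mem_insert, not_or]
    exact ⟨fun h => hzM (h ▸ haM), fun h => hzM (hKM h)⟩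
  have b2 : ∀ z ∈ F, z ∉ M → deg G (D0 ∪ D1) z + (if G.Adj z a then 1 else 0) ≤ 3 := by
    intro z hz hzM
    refine z2_aux G F _ h9 (hKM'.trans hMF) cK' q2 a z haK' (hMF haM) d5' ?_ hz
    rw [mem_insert, not_or]
    exact ⟨fun h => hzM (h ▸ haM), fun h => hzM (hKM' h)⟩
  have bx1 := b1 x hx hxM
  have bx1' := b1 x' hx' hxM'
  have bx2 := b2 x hx hxM
  have bx2' := b2 x' hx' hxM'
  obtain ⟨n, hn, hn1, hn2⟩ := z2_unc G (N1 ∪ N2) x x' (by rw [cK]; omega)
  obtain ⟨m, hm, hm1, hm2⟩ := z2_unc G (D0 ∪ D1) x x' (by rw [cK']; omega)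
  have nex : ∀ y ∈ M, x ≠ y := fun y hy h => hxM (h ▸ hy)
  have nex' : ∀ y ∈ M, x' ≠ y := fun y hy h => hxM' (h ▸ hy)
  have key : ∀ n' ∈ N1 ∪ N2, ∀ m' ∈ D0 ∪ D1, ¬ G.Adj x n' → ¬ G.Adj x' n' → ¬ G.Adj x m' →
      ¬ G.Adj x' m' → G.Adj n' m' := by
    intro n' hn' m' hm' e1 e2 e3 e4
    by_contra hcon
    exact z2_ind4 G F h3 x x' n' m' hx hx' (hMF (hKM hn')) (hMF (hKM' hm')) hne
      (nex _ (hKM hn')) (nex _ (hKM' hm')) (nex' _ (hKM hn')) (nex' _ (hKM' hm'))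
      (fun h => (Finset.disjoint_left.mp d3) hn' (h ▸ hm')) hna e1 e3 e2 e4 hcon
  have cov2 : ∀ n' ∈ N2, ¬ (¬ G.Adj x n' ∧ ¬ G.Adj x' n') := by
    rintro n' hn' ⟨e1, e2⟩
    exact n1 n' hn' m hm (key n' (mem_union_right _ hn') m hm e1 e2 hm1 hm2)
  have cov0 : ∀ m' ∈ D0, ¬ (¬ G.Adj x m' ∧ ¬ G.Adj x' m') := by
    rintro m' hm' ⟨e1, e2⟩
    have h := key n hn m' (mem_union_left _ hm') hn1 hn2 e1 e2
    rcases mem_union.mp hn with h' | h'
    · exact n2 n h' m' hm' h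
    · exact n1 n h' m' (mem_union_left _ hm') h
  have hnN1 : n ∈ N1 := by
    rcases mem_union.mp hn with h' | h'
    · exact h'
    · exact absurd ⟨hn1, hn2⟩ (cov2 n h')
  have s2 : 5 ≤ deg G N2 x + deg G N2 x' := by
    by_contra hcon
    obtain ⟨n', h1, h2, h3'⟩ := z2_unc G N2 x x' (by rw [c2]; omega)
    exact cov2 n' h1 ⟨h2, h3'⟩
  have s0 : 5 ≤ deg G D0 x + deg G D0 x' := by
    by_contra hcon
    obtain ⟨n', h1, h2, h3'⟩ := z2_unc G D0 x x' (by rw [c3]; omega)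
    exact cov0 n' h1 ⟨h2, h3'⟩
  have ax : G.Adj x a ∨ G.Adj x' a := by
    by_contra hcon
    push Not at hcon
    exact z2_ind4 G F h3 x x' n a hx hx' (hMF (hKM hn)) (hMF haM) hne
      (nex _ (hKM hn)) (nex _ haM) (nex' _ (hKM hn)) (nex' _ haM)
      (fun h => haK (h ▸ hn)) hna hn1 hcon.1 hn2 hcon.2 (fun h => a1 n hnN1 h.symm)
  have m2 := z2_deg_mono G (subset_union_right : N2 ⊆ N1 ∪ N2) x'
  have m0 := z2_deg_mono G (subset_union_left : D0 ⊆ D0 ∪ D1) x'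
  have dis1 : Disjoint N2 D0 := by
    rw [Finset.disjoint_left] at d3 ⊢
    intro v hv hv'
    exact d3 (mem_union_right _ hv) (mem_union_left _ hv')
  have dis2 : Disjoint {a} (N2 ∪ D0) := by
    rw [disjoint_singleton_left, mem_union, not_or]
    exact ⟨ha2, ha3⟩
  have tot : deg G {a} x + (deg G N2 x + deg G D0 x) ≤ deg G M x := by
    rw [← z2_deg_union G N2 D0 dis1, ← z2_deg_union G {a} (N2 ∪ D0) dis2]
    apply z2_deg_mono
    rw [union_subset_iff, union_subset_iff, singleton_subset_iff]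
    exact ⟨haM, h2M, h3M⟩
  by_cases h : G.Adj x a
  · have : deg G {a} x = 1 := by
      unfold deg; simp [filter_singleton, h]
    split_ifs at bx1' <;> omega
  · have h' : G.Adj x' a := by tauto
    rw [if_pos h'] at bx1' bx2'
    omega

end Pool.Agent.Helper351.EG
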