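import Pool.Agent.Helper351.EG.Main7

set_option autoImplicit false

namespace Pool.Agent.Helper351.EG

open Finset

theorem Zc {V : Type} [DecidableEq V] (G : SimpleGraph V) [DecidableRel G.Adj]
    (F : Finset V) (u : V) (hu : u ∈ F) (d : ℕ) (hd : deg G F u = d)
    (hx : ∀ x x', x ∈ F → x' ∈ F → G.Adj u x → G.Adj u x' → x ≠ x' → ¬ G.Adj x x' →
      5 ≤ deg G (F.filter (fun w => w ≠ u ∧ ¬ G.Adj u w)) x) :
    ∃ m ≤ d, (d + 1) * d ≤ e2 G (insert u (F.filter (fun w => G.Adj u w))) + m * (m - 1) ∧
      e2 G (F.filter (fun w => w ≠ u ∧ ¬ G.Adj u w)) + 10 * m +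
        e2 G (insert u (F.filter (fun w => G.Adj u w))) ≤ e2 G F := by
  classical
  set A := F.filter (fun w => G.Adj u w) with hA
  set M := F.filter (fun w => w ≠ u ∧ ¬ G.Adj u w) with hM
  have hAd : A.card = d := by rw [← hd]; rfl
  have huA : u ∉ A := by simp [hA]
  have hAF : A ⊆ F := filter_subset _ _
  have hNF : insert u A ⊆ F := insert_subset hu hAF
  have hsd : F \ insert u A = M := by
    ext w
    simp only [hA, hM, mem_sdiff, mem_insert, mem_filter, not_or, not_and]
    tauto
  set I := A.filter (fun x => ∃ x' ∈ A, x' ≠ x ∧ ¬ G.Adj x x') with hI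
  have hIA : I ⊆ A := filter_subset _ _
  have hIm : I.card ≤ d := hAd ▸ card_le_card hIA
  have hNc : (insert u A).card = d + 1 := by rw [card_insert_of_notMem huA, hAd]
  have hdeg : ∀ v ∈ insert u A,
      d ≤ deg G (insert u A) v + (if v ∈ I then I.card - 1 else 0) := by
    intro v hv
    have h1 : (insert u A).erase v ⊆ (insert u A).filter (fun w => G.Adj v w) ∪
        (if v ∈ I then I.erase v else ∅) := by
      intro w hw
      rw [mem_erase] at hw
      by_cases hvw : G.Adj v w
      · exact mem_union_left _ (mem_filter.2 ⟨hw.2, hvw⟩)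
      · apply mem_union_right
        have hvA : v ∈ A := by
          rcases mem_insert.1 hv with h | h
          · exfalso
            rcases mem_insert.1 hw.2 with h' | h'
            · exact hw.1 (h'.trans h.symm)
            · apply hvw
              rw [h]
              exact (mem_filter.1 h').2
          · exact h
        have hwA : w ∈ A := by
          rcases mem_insert.1 hw.2 with h | h
          · exfalso
            apply hvw
            rw [h]
            exact (mem_filter.1 hvA).2.symm
          · exact h
        have hvI : v ∈ I := mem_filter.2 ⟨hvA, w, hwA, hw.1, hvw⟩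
        have hwI : w ∈ I := mem_filter.2 ⟨hwA, v, hvA, fun h => hw.1 h.symm, fun h => hvw h.symm⟩
        rw [if_pos hvI]
        exact mem_erase.2 ⟨hw.1, hwI⟩
    have h2 := card_le_card h1
    rw [card_erase_of_mem hv, hNc] at h2
    have h3 := card_union_le ((insert u A).filter (fun w => G.Adj v w))
      (if v ∈ I then I.erase v else ∅)
    have h4 : (if v ∈ I then I.erase v else ∅ : Finset V).card =
        if v ∈ I then I.card - 1 else 0 := by
      split_ifs with h
      · exact card_erase_of_mem h
      · rfl
    have h5 : deg G (insert u A) v = ((insert u A).filter (fun w => G.Adj v w)).card := rfl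
    rw [h4] at h3
    rw [h5]
    omega
  have hsum := sum_le_sum hdeg
  rw [sum_const, hNc, smul_eq_mul, sum_add_distrib, sum_ite_mem] at hsum
  have hNI : insert u A ∩ I = I := inter_eq_right.2 (hIA.trans (subset_insert _ _))
  rw [hNI, sum_const, smul_eq_mul] at hsum
  refine ⟨I.card, hIm, hsum, ?_⟩
  have h6 := e2_split G F (insert u A) hNF
  rw [hsd] at h6
  have h7 : ∀ x, deg G F x = deg G (insert u A) x + deg G M x := by
    intro x
    rw [← hsd]
    unfold deg
    rw [← card_union_of_disjoint, ← filter_union, union_sdiff_of_subset hNF]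
    exact disjoint_filter_filter disjoint_sdiff
  have h8 : ∑ x ∈ insert u A, deg G F x = e2 G (insert u A) + ∑ x ∈ insert u A, deg G M x := by
    rw [show e2 G (insert u A) = ∑ x ∈ insert u A, deg G (insert u A) x from rfl,
      ← sum_add_distrib]
    exact sum_congr rfl fun x _ => h7 x
  have h9 : 5 * I.card ≤ ∑ x ∈ insert u A, deg G M x := by
    calc 5 * I.card = ∑ x ∈ I, 5 := by rw [sum_const, smul_eq_mul, mul_comm]
      _ ≤ ∑ x ∈ I, deg G M x := by
        refine sum_le_sum fun x hxI => ?_
        obtain ⟨hxA, x', hx'A, hne, hadj⟩ := mem_filter.1 hxI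
        exact hx x x' (hAF hxA) (hAF hx'A) (mem_filter.1 hxA).2 (mem_filter.1 hx'A).2
          (fun h => hne h.symm) hadj
      _ ≤ _ := sum_le_sum_of_subset (hIA.trans (subset_insert _ _))
  omega

end Pool.Agent.Helper351.EG
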