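import Pool.Agent.Helper351.EG.MainAll
import Pool.Agent.Helper351.EG.S8
import Pool.Agent.Helper351.EG.Z2
import Pool.Agent.Helper351.EG.T5
import Pool.Agent.Helper351.EG.Zc
import Pool.Agent.Helper351.EG.PeelB

set_option autoImplicit false

namespace Pool.Agent.Helper351.EG

open Finset

theorem cover {V : Type} [DecidableEq V] (G : SimpleGraph V) [DecidableRel G.Adj] (D : ℕ)
    (F N : Finset V) (hδ : ∀ v ∈ F, D ≤ deg G F v) (hN : N ⊆ F) :
    e2 G (F \ N) + 2 * (N.card * D) ≤ e2 G F + e2 G N := by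
  have h := e2_split G F N hN
  have h2 : N.card * D ≤ ∑ x ∈ N, deg G F x := by
    calc N.card * D = ∑ x ∈ N, D := by simp
      _ ≤ _ := sum_le_sum (fun x hx => hδ x (hN hx))
  omega

theorem e2_ins {V : Type} [DecidableEq V] (G : SimpleGraph V) [DecidableRel G.Adj]
    (B : Finset V) (x : V) (hx : x ∉ B) : e2 G (insert x B) = e2 G B + 2 * deg G B x := by
  have h := e2_split G (insert x B) {x} (by simp)
  have h1 : insert x B \ {x} = B := by
    ext y
    simp only [mem_sdiff, mem_insert, mem_singleton]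
    constructor
    · rintro ⟨h1 | h1, h2⟩
      · exact absurd h1 h2
      · exact h1
    · intro hy
      exact ⟨Or.inr hy, fun h => hx (h ▸ hy)⟩
  have h2 : e2 G {x} = 0 := by
    unfold e2 deg
    simp
  have h3 : deg G (insert x B) x = deg G B x := by
    unfold deg
    congr 1
    ext y
    simp only [mem_filter, mem_insert]
    constructor
    · rintro ⟨h1 | h1, h2⟩
      · subst h1
        exact absurd h2 G.irrefl
      · exact ⟨h1, h2⟩
    · rintro ⟨h1, h2⟩
      exact ⟨Or.inr h1, h2⟩
  rw [h1, h2, sum_singleton, h3] at h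
  omega

theorem e2_even {V : Type} [DecidableEq V] (G : SimpleGraph V) [DecidableRel G.Adj]
    (B : Finset V) : e2 G B % 2 = 0 := by
  induction B using Finset.induction_on with
  | empty => simp [e2]
  | insert x B hx ih =>
    rw [e2_ins G B x hx]
    omega

theorem noK_e2 {V : Type} [DecidableEq V] (G : SimpleGraph V) [DecidableRel G.Adj]
    (M : Finset V) (hM : M.card = 8) (hK : NoK G M 8) : e2 G M ≤ 54 := by
  have h := hK M subset_rfl hM
  unfold Clq at h
  push Not at h
  obtain ⟨v, hv, w, hw, hvw, hna⟩ := h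
  have hle : ∀ x ∈ M, deg G M x + (if x = v then 1 else 0) + (if x = w then 1 else 0) ≤ 7 := by
    intro x hx
    have h7 : deg G M x ≤ (M.erase x).card := card_le_card (fun y hy => by
      rw [mem_filter] at hy
      rw [mem_erase]
      exact ⟨fun h => by subst h; exact G.irrefl hy.2, hy.1⟩)
    rw [card_erase_of_mem hx, hM] at h7
    by_cases hxv : x = v
    · subst hxv
      have h6 : deg G M x ≤ ((M.erase x).erase w).card := card_le_card (fun y hy => by
        rw [mem_filter] at hy
        rw [mem_erase, mem_erase]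
        exact ⟨fun h => by subst h; exact hna hy.2,
          fun h => by subst h; exact G.irrefl hy.2, hy.1⟩)
      rw [card_erase_of_mem (mem_erase.mpr ⟨hvw.symm, hw⟩), card_erase_of_mem hx, hM] at h6
      rw [if_pos rfl, if_neg hvw]
      omega
    · by_cases hxw : x = w
      · subst hxw
        have h6 : deg G M x ≤ ((M.erase x).erase v).card := card_le_card (fun y hy => by
          rw [mem_filter] at hy
          rw [mem_erase, mem_erase]
          exact ⟨fun h => by subst h; exact hna hy.2.symm,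
            fun h => by subst h; exact G.irrefl hy.2, hy.1⟩)
        rw [card_erase_of_mem (mem_erase.mpr ⟨hvw, hv⟩), card_erase_of_mem hx, hM] at h6
        rw [if_neg hxv, if_pos rfl]
        omega
      · rw [if_neg hxv, if_neg hxw]
        omega
  have hs := sum_le_sum hle
  rw [sum_add_distrib, sum_add_distrib, Finset.sum_ite_eq' M v, Finset.sum_ite_eq' M w,
    if_pos hv, if_pos hw, sum_const, hM] at hs
  unfold e2
  simp at hs
  omega

theorem nbhd_sdiff {V : Type} [DecidableEq V] (G : SimpleGraph V) [DecidableRel G.Adj]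
    (F : Finset V) (u : V) :
    F \ insert u (F.filter (fun w => G.Adj u w)) = F.filter (fun w => w ≠ u ∧ ¬ G.Adj u w) := by
  ext w
  simp only [mem_sdiff, mem_insert, mem_filter, not_or, not_and]
  constructor
  · rintro ⟨h1, h2, h3⟩
    exact ⟨h1, h2, h3 h1⟩
  · rintro ⟨h1, h2, h3⟩
    exact ⟨h1, h2, fun _ => h3⟩

theorem nbhd_sub {V : Type} [DecidableEq V] (G : SimpleGraph V) [DecidableRel G.Adj]
    (F : Finset V) (u : V) (hu : u ∈ F) : insert u (F.filter (fun w => G.Adj u w)) ⊆ F := by
  intro w hw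
  rw [mem_insert, mem_filter] at hw
  rcases hw with rfl | h
  · exact hu
  · exact h.1

theorem nbhd_card {V : Type} [DecidableEq V] (G : SimpleGraph V) [DecidableRel G.Adj]
    (F : Finset V) (u : V) :
    (insert u (F.filter (fun w => G.Adj u w))).card = deg G F u + 1 := by
  rw [card_insert_of_notMem (by simp)]
  rfl

/-- removing the closed neighbourhood of a vertex -/
theorem cover_nbhd {V : Type} [DecidableEq V] (G : SimpleGraph V) [DecidableRel G.Adj] (D d b : ℕ)
    (F : Finset V) (hδ : ∀ v ∈ F, D ≤ deg G F v) (u : V) (hu : u ∈ F) (hd : deg G F u = d)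
    (hb : e2 G (insert u (F.filter (fun w => G.Adj u w))) ≤ b) :
    e2 G (F.filter (fun w => w ≠ u ∧ ¬ G.Adj u w)) + 2 * ((d + 1) * D) ≤ e2 G F + b := by
  have h := cover G D F _ hδ (nbhd_sub G F u hu)
  rw [nbhd_sdiff, nbhd_card, hd] at h
  omega

theorem nine {V : Type} [DecidableEq V] (G : SimpleGraph V) [DecidableRel G.Adj]
    (hG : Good' G 8) (B : Finset V) (hB : B.card = 9) : e2 G B ≤ 58 := by
  have := hG.hC B
  rw [hB] at this
  omega

theorem hout8 {V : Type} [DecidableEq V] (G : SimpleGraph V) [DecidableRel G.Adj]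
    (hG : Good' G 8) (B : Finset V) (hB : B.card = 8) (hBe : 53 ≤ e2 G B) (x : V) (hx : x ∉ B) :
    deg G B x ≤ 2 := by
  have h1 := nine G hG (insert x B) (by rw [card_insert_of_notMem hx, hB])
  rw [e2_ins G B x hx] at h1
  omega

theorem fifteen {V : Type} [DecidableEq V] (G : SimpleGraph V) [DecidableRel G.Adj]
    (hG : Good' G 8) (B : Finset V) (hB : B.card = 15) : e2 G B ≤ 112 := by
  have := hG.hC B
  rw [hB] at this
  omega

theorem no16 {V : Type} [DecidableEq V] (G : SimpleGraph V) [DecidableRel G.Adj]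
    (hG : Good' G 8) (F : Finset V) (hK : NoK G F 8) (M : Finset V) (hMF : M ⊆ F)
    (h2 : IndLe G M 2) : M.card ≤ 15 := by
  by_contra hlt
  push Not at hlt
  obtain ⟨M', hM', hc⟩ := exists_subset_card_eq (show 16 ≤ M.card by omega)
  exact no_two_r G 8 (by norm_num) hG.toGood M' hc (IndLe_mono G hM' h2)
    (NoK_mono G (hM'.trans hMF) hK)

/-- the involved neighbours have at least five neighbours in the structured set -/
theorem five_nbrs {V : Type} [DecidableEq V] (G : SimpleGraph V) [DecidableRel G.Adj]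
    (hG : Good' G 8) (F : Finset V) (h3 : IndLe G F 3) (hK : NoK G F 8) (u : V) (hu : u ∈ F)
    (hM : (F.filter (fun w => w ≠ u ∧ ¬ G.Adj u w)).card = 15)
    (hB : ∀ B ⊆ F, B.card = 8 → e2 G B ≤ 52) :
    112 ≤ e2 G (F.filter (fun w => w ≠ u ∧ ¬ G.Adj u w)) ∧
    ∀ x x', x ∈ F → x' ∈ F → G.Adj u x → G.Adj u x' → x ≠ x' → ¬ G.Adj x x' →
      5 ≤ deg G (F.filter (fun w => w ≠ u ∧ ¬ G.Adj u w)) x := by
  have hMF : F.filter (fun w => w ≠ u ∧ ¬ G.Adj u w) ⊆ F := filter_subset _ _
  obtain ⟨h112, a, N1, N2, D0, D1, haM, s1, s2, s3, s4, c1, c2, c3, c4, ha, d1, d2, d3, q1, q2,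
    a1, a2, a3, a4, n1, n2⟩ := S8 G _ hM (indLe_remove_nbhd G F 2 h3 u hu) (NoK_mono G hMF hK)
    (fifteen G hG _ hM) (fun B hB' => hB B (hB'.trans hMF))
  refine ⟨h112, ?_⟩
  intro x x' hx hx' hux hux' hne hna
  exact Z2 G F _ h3 hMF x x' hx hx' (by simp [hux]) (by simp [hux']) hne hna
    (fun B _ hB9 => nine G hG B hB9) a N1 N2 D0 D1 haM s1 s2 s3 s4 c1 c2 c3 c4 ha d1 d2 d3 q1 q2
    a1 a2 a3 a4 n1 n2

/-- 24 vertices, independence number at most three, no `K_8`, few edges: impossible -/
theorem F8 {V : Type} [DecidableEq V] (G : SimpleGraph V) [DecidableRel G.Adj]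
    (hG : Good' G 8) (F : Finset V) (hF : F.card = 24) (h3 : IndLe G F 3) (hK : NoK G F 8)
    (he : e2 G F ≤ 210) : False := by
  have hδ : ∀ v ∈ F, 8 ≤ deg G F v := by
    intro v hv
    have h1 := nonnbr_card G F v hv
    have h2 := no16 G hG F hK _ (filter_subset _ _) (indLe_remove_nbhd G F 2 h3 v hv)
    omega
  have hB : ∀ B ⊆ F, B.card = 8 → e2 G B ≤ 52 := by
    intro B hBF hBc
    by_contra hlt
    push Not at hlt
    have h1 := peelB G F B 2 h3 hBF (fun x _ hx => hout8 G hG B hBc (by omega) x hx) (by omega)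
    have h2 := no16 G hG F hK (F \ B) sdiff_subset h1
    rw [card_sdiff_of_subset hBF, hF, hBc] at h2
    omega
  have hex : ∃ u ∈ F, deg G F u = 8 := by
    by_contra hno
    push Not at hno
    have h3 : ∑ w ∈ F, 9 ≤ ∑ w ∈ F, deg G F w := sum_le_sum (fun w hw => by
      have a := hδ w hw
      have b := hno w hw
      omega)
    rw [sum_const, hF] at h3
    unfold e2 at he
    simp at h3
    omega
  obtain ⟨u, hu, hd⟩ := hex
  have hMc := nonnbr_card G F u hu
  have hM15 : (F.filter (fun w => w ≠ u ∧ ¬ G.Adj u w)).card = 15 := by omega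
  obtain ⟨h112, hx⟩ := five_nbrs G hG F h3 hK u hu hM15 hB
  obtain ⟨m, hm, z1, z2⟩ := Zc G F u hu 8 hd hx
  have h9 := nine G hG (insert u (F.filter (fun w => G.Adj u w))) (by rw [nbhd_card, hd])
  have hc := cover G 8 F _ hδ (nbhd_sub G F u hu)
  rw [nbhd_sdiff, nbhd_card, hd] at hc
  interval_cases m <;> omega

theorem level4_eight {V : Type} [DecidableEq V] (G : SimpleGraph V) [DecidableRel G.Adj]
    (hG : Good' G 8) (W : Finset V) (hc : W.card = 8 * 4 + 1) (hk : IndLe G W 4)
    (he : e2 G W ≤ 296) : False := by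
  rcases stepg G 8 (by norm_num) W 3 (by norm_num) hc hk (hG.hP W) with ⟨hK, hδ⟩ | h
  · have hex : ∃ u ∈ W, deg G W u = 8 := by
      by_contra hno
      push Not at hno
      have h3 : ∑ w ∈ W, 9 ≤ ∑ w ∈ W, deg G W w := sum_le_sum (fun w hw => by
        have a := hδ w hw
        have b := hno w hw
        omega)
      rw [sum_const, hc] at h3
      unfold e2 at he
      simp at h3
      omega
    obtain ⟨u, hu, hd⟩ := hex
    have hMc := nonnbr_card G W u hu
    have h9 := nine G hG (insert u (W.filter (fun w => G.Adj u w))) (by rw [nbhd_card, hd])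
    have h2 := cover_nbhd G 8 8 58 W hδ u hu hd h9
    exact F8 G hG _ (by omega) (indLe_remove_nbhd G W 3 hk u hu)
      (NoK_mono G (filter_subset _ _) hK) (by omega)
  · obtain ⟨W', hW', hc', hk', he'⟩ := h
    exact level3g G 8 (by norm_num) hG W' hc' hk'

theorem level5_eight {V : Type} [DecidableEq V] (G : SimpleGraph V) [DecidableRel G.Adj]
    (hG : Good' G 8) (W : Finset V) (hc : W.card = 8 * 5 + 1) (hk : IndLe G W 5)
    (he : e2 G W ≤ 352) : False := by
  rcases stepg G 8 (by norm_num) W 4 (by norm_num) hc hk (hG.hP W) with ⟨hK, hδ⟩ | h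
  · have hex : ∃ u ∈ W, deg G W u = 8 := by
      by_contra hno
      push Not at hno
      have h3 : ∑ w ∈ W, 9 ≤ ∑ w ∈ W, deg G W w := sum_le_sum (fun w hw => by
        have a := hδ w hw
        have b := hno w hw
        omega)
      rw [sum_const, hc] at h3
      unfold e2 at he
      simp at h3
      omega
    obtain ⟨v, hv, hdv⟩ := hex
    have hMc := nonnbr_card G W v hv
    have h9 := nine G hG (insert v (W.filter (fun w => G.Adj v w))) (by rw [nbhd_card, hdv])
    have h2 := cover_nbhd G 8 8 58 W hδ v hv hdv h9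
    obtain ⟨F, hFdef⟩ : ∃ F, F = W.filter (fun w => w ≠ v ∧ ¬ G.Adj v w) := ⟨_, rfl⟩
    rw [← hFdef] at hMc h2
    have hFc : F.card = 32 := by omega
    have hFe : e2 G F ≤ 266 := by omega
    have hF4 : IndLe G F 4 := by rw [hFdef]; exact indLe_remove_nbhd G W 4 hk v hv
    have hFK : NoK G F 8 := by rw [hFdef]; exact NoK_mono G (filter_subset _ _) hK
    have hδ7 : ∀ w ∈ F, 7 ≤ deg G F w := by
      intro w hw
      have h1 := nonnbr_card G F w hw
      by_contra hlt
      push Not at hlt
      obtain ⟨M', hM', hM'c⟩ := exists_subset_card_eq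
        (show 25 ≤ (F.filter (fun x => x ≠ w ∧ ¬ G.Adj w x)).card by omega)
      exact level3g G 8 (by norm_num) hG M' hM'c
        (IndLe_mono G hM' (indLe_remove_nbhd G F 3 hF4 w hw))
    have hδ8 : ∀ w ∈ F, 8 ≤ deg G F w := by
      intro w hw
      by_contra hlt
      push Not at hlt
      have hd7 : deg G F w = 7 := by
        have := hδ7 w hw
        omega
      have h1 := nonnbr_card G F w hw
      have h54 := noK_e2 G (insert w (F.filter (fun x => G.Adj w x))) (by rw [nbhd_card, hd7])
        (NoK_mono G (nbhd_sub G F w hw) hFK)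
      have h3 := cover_nbhd G 7 7 54 F hδ7 w hw hd7 h54
      exact F8 G hG _ (by omega) (indLe_remove_nbhd G F 3 hF4 w hw)
        (NoK_mono G (filter_subset _ _) hFK) (by omega)
    have hex2 : ∃ u ∈ F, deg G F u = 8 := by
      by_contra hno
      push Not at hno
      have h3 : ∑ w ∈ F, 9 ≤ ∑ w ∈ F, deg G F w := sum_le_sum (fun w hw => by
        have a := hδ8 w hw
        have b := hno w hw
        omega)
      rw [sum_const, hFc] at h3
      unfold e2 at hFe
      simp at h3
      omega
    obtain ⟨w, hw, hdw⟩ := hex2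
    have hMwc := nonnbr_card G F w hw
    have h9w := nine G hG (insert w (F.filter (fun x => G.Adj w x))) (by rw [nbhd_card, hdw])
    have h2w := cover_nbhd G 8 8 58 F hδ8 w hw hdw h9w
    obtain ⟨M, hMdef⟩ : ∃ M, M = F.filter (fun x => x ≠ w ∧ ¬ G.Adj w x) := ⟨_, rfl⟩
    rw [← hMdef] at hMwc h2w
    have hMF : M ⊆ F := by rw [hMdef]; exact filter_subset _ _
    have hM3 : IndLe G M 3 := by rw [hMdef]; exact indLe_remove_nbhd G F 3 hF4 w hw
    have hMK : NoK G M 8 := NoK_mono G hMF hFK
    have hMc23 : M.card = 23 := by omega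
    have hMe : e2 G M ≤ 180 := by omega
    have hex3 : ∃ z ∈ M, deg G M z ≤ 7 := by
      by_contra hno
      push Not at hno
      have h3 : ∑ w ∈ M, 8 ≤ ∑ w ∈ M, deg G M w := sum_le_sum (fun w hw => hno w hw)
      rw [sum_const, hMc23] at h3
      unfold e2 at hMe
      simp at h3
      omega
    obtain ⟨z, hz, hdz⟩ := hex3
    have hzc := nonnbr_card G M z hz
    have hz15 := no16 G hG M hMK _ (filter_subset (fun x => x ≠ z ∧ ¬ G.Adj z x) M)
      (indLe_remove_nbhd G M 2 hM3 z hz)
    have hdz7 : deg G M z = 7 := by omega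
    have hBex : ∃ B ⊆ F, B.card = 8 ∧ 54 ≤ e2 G B := by
      by_contra hno
      push Not at hno
      have hB52 : ∀ B ⊆ M, B.card = 8 → e2 G B ≤ 52 := by
        intro B hB hBc
        have h1 := hno B (hB.trans hMF) hBc
        have h2 := e2_even G B
        omega
      obtain ⟨h112, hx⟩ := five_nbrs G hG M hM3 hMK z hz (by omega) hB52
      obtain ⟨m, hm, z1, z2⟩ := Zc G M z hz 7 hdz7 hx
      have h52 := hB52 (insert z (M.filter (fun x => G.Adj z x))) (nbhd_sub G M z hz)
        (by rw [nbhd_card, hdz7])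
      interval_cases m <;> omega
    obtain ⟨B, hBF, hBc, hBe⟩ := hBex
    have hout : ∀ x ∈ F, x ∉ B → deg G B x ≤ 2 := fun x _ hx =>
      hout8 G hG B hBc (by omega) x hx
    by_cases hI : IndLe G (F \ B) 3
    · have h54 := noK_e2 G B hBc (NoK_mono G hBF hFK)
      have h3 := cover G 8 F B hδ8 hBF
      rw [hBc] at h3
      exact F8 G hG (F \ B) (by rw [card_sdiff_of_subset hBF, hFc, hBc]) hI
        (NoK_mono G sdiff_subset hFK) (by omega)
    · unfold IndLe at hI
      push Not at hI
      obtain ⟨T, hT, hTi, hTc⟩ := hI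
      obtain ⟨T', hT', hT'c⟩ := exists_subset_card_eq (show 4 ≤ T.card by omega)
      exact T5 G F B T' hFc hF4 hδ8 hFe hBF hBc hBe hout (hT'.trans hT)
        (fun x hx y hy => hTi x (hT' hx) y (hT' hy)) hT'c
  · obtain ⟨W', hW', hc', hk', he'⟩ := h
    exact level4_eight G hG W' hc' hk' (by omega)

theorem eight (c : Fin (8 ^ 2 + 1) → Fin (8 ^ 2 + 1) → Fin 8) (hc : ∀ x y, c x y = c y x) :
    ∃ S : Finset (Fin (8 ^ 2 + 1)), S.card = 8 + 1 ∧
        ∃ k : Fin 8, ∀ x ∈ S, ∀ y ∈ S, x ≠ y → c x y ≠ k := by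
  by_contra h
  have hs := AllSee_of_not c h
  obtain ⟨k, hk⟩ := C_min_gen 8 (by norm_num) c hc
  have hG := good'_colG (by norm_num) c hc hs k
  obtain ⟨W', hW', hc', hk', he'⟩ := down3 (colG c hc k) 8 (by norm_num) hG.toGood univ (by simp)
    (C_ind c hc hs k univ) hk
  have hc41 : W'.card = 8 * 5 + 1 := hc'
  refine level5_eight (colG c hc k) hG W' hc41 hk' ?_
  rw [hc41] at he'
  exact he'

end Pool.Agent.Helper351.EG
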