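import Pool.Agent.Helper351.EG.Main7

set_option autoImplicit false

namespace Pool.Agent.Helper351.EG

open Finset

/-- three levels down from the top, for every `r ≥ 4` -/
theorem down3 {V : Type} [DecidableEq V] (G : SimpleGraph V) [DecidableRel G.Adj] (r : ℕ)
    (hr : 4 ≤ r) (hG : Good G r) (W : Finset V) (hc : W.card = r ^ 2 + 1) (hk : IndLe G W r)
    (he : e2 G W ≤ r * (r ^ 2 + 1)) :
    ∃ W' ⊆ W, W'.card = r * (r - 3) + 1 ∧ IndLe G W' (r - 3) ∧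
      e2 G W' ≤ r * W'.card + 3 * r := by
  obtain ⟨m, rfl⟩ : ∃ m, r = m + 4 := ⟨r - 4, by omega⟩
  obtain ⟨W1, hW1, hc1, hk1, he1⟩ := topg G (m + 4) (by omega) hG W hc hk he
  have s1 : m + 4 - 1 = m + 3 := by omega
  have s3 : m + 4 - 3 = m + 1 := by omega
  rw [s1] at hc1 hk1 he1
  rw [s3]
  have hX1 : e2 G W1 ≤ (m + 4) * W1.card + (m + 4) := by
    rw [hc1]
    nlinarith
  rcases stepg G (m + 4) (by omega) W1 (m + 2) (by omega) (by rw [hc1]) hk1 (hG.hP W1) with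
    ⟨hK, hδ⟩ | ⟨W2, hW2, hc2, hk2, he2⟩
  · exfalso
    have := claimC G (m + 4) (by omega) (m + 3) (by omega) W1 hc1 hk1 hK hδ
    omega
  · rw [s1] at he2
    have hX2 : e2 G W2 ≤ (m + 4) * W2.card + 2 * (m + 4) := by
      rw [hc2]
      rw [hc1] at hX1
      nlinarith
    rcases stepg G (m + 4) (by omega) W2 (m + 1) (by omega) (by rw [hc2]) hk2 (hG.hP W2) with
      ⟨hK, hδ⟩ | ⟨W3, hW3, hc3, hk3, he3⟩
    · exfalso
      have := claimC G (m + 4) (by omega) (m + 2) (by omega) W2 hc2 hk2 hK hδ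
      omega
    · refine ⟨W3, hW3.trans (hW2.trans hW1), hc3, hk3, ?_⟩
      rw [s1] at he3
      rw [hc3]
      rw [hc2] at hX2
      nlinarith

theorem four (c : Fin (4 ^ 2 + 1) → Fin (4 ^ 2 + 1) → Fin 4) (hc : ∀ x y, c x y = c y x) :
    ∃ S : Finset (Fin (4 ^ 2 + 1)), S.card = 4 + 1 ∧
        ∃ k : Fin 4, ∀ x ∈ S, ∀ y ∈ S, x ≠ y → c x y ≠ k := by
  by_contra h
  have hs := AllSee_of_not c h
  obtain ⟨k, hk⟩ := C_min_gen 4 (by norm_num) c hc
  have hG := good_colG (by norm_num) c hc hs k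
  obtain ⟨W, hW, hcW, hkW, heW⟩ := topg (colG c hc k) 4 (by norm_num) hG univ (by simp)
    (C_ind c hc hs k univ) hk
  rcases stepg (colG c hc k) 4 (by norm_num) W 2 (by norm_num) hcW hkW (hG.hP W) with
    ⟨hK, hδ⟩ | ⟨W', hW', hc', hk', he'⟩
  · have := claimC (colG c hc k) 4 (by norm_num) 3 (by norm_num) W hcW hkW hK hδ
    rw [hcW] at this
    omega
  · exact level2g (colG c hc k) 4 (by norm_num) W' hc' hk' (hG.hP W') (hG.hK W')
      (fun M _ => hG.hC M)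

theorem three (c : Fin (3 ^ 2 + 1) → Fin (3 ^ 2 + 1) → Fin 3) (hc : ∀ x y, c x y = c y x) :
    ∃ S : Finset (Fin (3 ^ 2 + 1)), S.card = 3 + 1 ∧
        ∃ k : Fin 3, ∀ x ∈ S, ∀ y ∈ S, x ≠ y → c x y ≠ k := by
  by_contra h
  have hs := AllSee_of_not c h
  obtain ⟨k, hk⟩ := C_min_gen 3 (by norm_num) c hc
  have hG := good_colG (by norm_num) c hc hs k
  obtain ⟨W, hW, hcW, hkW, heW⟩ := topg (colG c hc k) 3 (by norm_num) hG univ (by simp)
    (C_ind c hc hs k univ) hk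
  exact level2g (colG c hc k) 3 (by norm_num) W hcW hkW (hG.hP W) (hG.hK W)
    (fun M _ => hG.hC M)

/-- local density for `r ≥ 3` -/
theorem local_density_two (r : ℕ) (hr : 3 ≤ r) {V : Type} [DecidableEq V] (c : V → V → Fin r)
    (hc : ∀ x y, c x y = c y x) (hs : AllSee c) (k : Fin r) (W : Finset V)
    (hW : W.card = 2 * r + 1) : ∃ T ⊆ W, T.card = 3 ∧ ∀ x ∈ T, ∀ y ∈ T, x ≠ y → c x y ≠ k := by
  by_contra hno
  push Not at hno
  have hG := good_colG hr c hc hs k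
  refine level2g (colG c hc k) r hr W hW ?_ (hG.hP W) (hG.hK W) (fun M _ => hG.hC M)
  intro T hT hTi
  by_contra hlt
  push Not at hlt
  obtain ⟨M, hMT, hMc⟩ := exists_subset_card_eq (show 3 ≤ T.card by omega)
  obtain ⟨x, hx, y, hy, hxy, he⟩ := hno M (hMT.trans hT) hMc
  exact hTi x (hMT hx) y (hMT hy) ⟨hxy, he⟩

/-- the least used colour of a counterexample, three levels down -/
theorem three_down (r : ℕ) (hr : 4 ≤ r) (c : Fin (r ^ 2 + 1) → Fin (r ^ 2 + 1) → Fin r)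
    (hc : ∀ x y, c x y = c y x) (hs : AllSee c) :
    ∃ k : Fin r, ∃ W : Finset (Fin (r ^ 2 + 1)), W.card = r * (r - 3) + 1 ∧
      ∀ T ⊆ W, T.card = r - 2 → ∃ x ∈ T, ∃ y ∈ T, x ≠ y ∧ c x y = k := by
  obtain ⟨k, hk⟩ := C_min_gen r (by omega) c hc
  have hG := good_colG (by omega) c hc hs k
  obtain ⟨W, hW, hcW, hkW, heW⟩ := down3 (colG c hc k) r hr hG univ (by simp)
    (C_ind c hc hs k univ) hk
  refine ⟨k, W, hcW, ?_⟩
  intro T hT hTc
  by_contra hno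
  have := hkW T hT (by
    intro x hx y hy hxy
    exact hno ⟨x, hx, y, hy, hxy.1, hxy.2⟩)
  omega

end Pool.Agent.Helper351.EG
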